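import Pool.Agent.H85.FK.Step

/-!
Racks in which the action of a letter depends only on a class in an elementary abelian group:
right deletions and their commutation with left deletions.
-/

namespace Pool.Agent.H85.FK

section Ab

variable {A C : Type*} [DecidableEq A] [AddCommGroup C]

/-- an action of an elementary abelian group on letters, with an invariant class map -/
structure AbR (tr : C → A → A) (κ : A → C) : Prop where
  tr0 : ∀ a, tr 0 a = a
  trA : ∀ c d a, tr (c + d) a = tr c (tr d a)
  two : ∀ c : C, c + c = 0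
  ktr : ∀ c a, κ (tr c a) = κ a

variable (tr : C → A → A) (κ : A → C)

/-- the rack operation -/
def sC (a x : A) : A := tr (κ a) x

/-- total class of a word -/
def cnt (κ : A → C) : List A → C
  | [] => 0
  | x :: w => κ x + cnt κ w

/-- right deletion -/
def rdl (a : A) : List A → (List A → ZMod 2) → ZMod 2
  | [], _ => 0
  | x :: w, F => eqv (tr (cnt κ w) a) x * F w + rdl a w (fun v => F (x :: v))

theorem rdl_add (a : A) (w : List A) : ∀ F G : List A → ZMod 2,
    rdl tr κ a w (F + G) = rdl tr κ a w F + rdl tr κ a w G := by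
  induction w with
  | nil => intro F G; simp [rdl]
  | cons x w ih =>
    intro F G
    have h := ih (fun v => F (x :: v)) (fun v => G (x :: v))
    have e : (fun v => (F + G) (x :: v)) =
      (fun v => F (x :: v)) + (fun v => G (x :: v)) := rfl
    simp only [rdl]
    rw [e, h, Pi.add_apply]; ring

theorem rdl_smul (a : A) (w : List A) : ∀ (c : ZMod 2) (F : List A → ZMod 2),
    rdl tr κ a w (c • F) = c * rdl tr κ a w F := by
  induction w with
  | nil => intro c F; simp [rdl]
  | cons x w ih =>
    intro c F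
    have h := ih c (fun v => F (x :: v))
    have e : (fun v => (c • F) (x :: v)) = c • (fun v => F (x :: v)) := rfl
    simp only [rdl]
    rw [e, h, Pi.smul_apply, smul_eq_mul]; ring

/-- right deletion as a linear map -/
def RC (a : A) : (List A → ZMod 2) →ₗ[ZMod 2] (List A → ZMod 2) where
  toFun F := fun w => rdl tr κ a w F
  map_add' F G := by funext w; exact rdl_add tr κ a w F G
  map_smul' c F := by funext w; exact rdl_smul tr κ a w c F

/-- left deletion -/
def LC (a : A) : (List A → ZMod 2) →ₗ[ZMod 2] (List A → ZMod 2) := L (sC tr κ) eqv a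

theorem RC_nil (a : A) (F : List A → ZMod 2) : RC tr κ a F [] = 0 := rfl

theorem RC_cons (a : A) (F : List A → ZMod 2) (x : A) (w : List A) :
    RC tr κ a F (x :: w) = eqv (tr (cnt κ w) a) x * F w + RC tr κ a (fun v => F (x :: v)) w := rfl

theorem LC_nil (a : A) (F : List A → ZMod 2) : LC tr κ a F [] = 0 := rfl

theorem LC_cons (a : A) (F : List A → ZMod 2) (x : A) (w : List A) :
    LC tr κ a F (x :: w) = eqv a x * F w + LC tr κ a (fun v => F (sC tr κ a x :: v)) w := rfl

variable {tr κ} (h : AbR tr κ)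
include h

theorem eqv_tr (c : C) (a x : A) : eqv a (tr c x) = eqv (tr c a) x := by
  unfold eqv
  have h1 : tr c (tr c x) = x := by rw [← h.trA, h.two, h.tr0]
  have h2 : tr c (tr c a) = a := by rw [← h.trA, h.two, h.tr0]
  by_cases hx : tr c x = a
  · rw [if_pos hx, if_pos]; rw [← hx, h1]
  · rw [if_neg hx, if_neg]; intro h'; apply hx; rw [h', h2]

theorem LC_cnt (b : A) (w : List A) : ∀ (P : C → ZMod 2) (F : List A → ZMod 2),
    LC tr κ b (fun v => P (cnt κ v) * F v) w = P (cnt κ w + κ b) * LC tr κ b F w := by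
  induction w with
  | nil => intro P F; simp [LC_nil]
  | cons x w ih =>
    intro P F
    rw [LC_cons, LC_cons]
    have e : (fun v => P (cnt κ (sC tr κ b x :: v)) * F (sC tr κ b x :: v)) =
        fun v => (fun n => P (κ x + n)) (cnt κ v) * F (sC tr κ b x :: v) := by
      funext v
      show P (κ (tr (κ b) x) + cnt κ v) * _ = _
      rw [h.ktr]
    rw [e, ih (fun n => P (κ x + n)) (fun v => F (sC tr κ b x :: v))]
    simp only [cnt]
    rw [← add_assoc, mul_add]
    congr 1
    by_cases hx : x = b
    · subst hx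
      have h4 : κ x + cnt κ w + κ x = cnt κ w := by
        rw [add_comm (κ x) (cnt κ w), add_assoc, h.two, add_zero]
      rw [h4]; ring
    · simp [eqv, hx]

theorem RC_cnt (b : A) (w : List A) : ∀ (P : C → ZMod 2) (F : List A → ZMod 2),
    RC tr κ b (fun v => P (cnt κ v) * F v) w = P (cnt κ w + κ b) * RC tr κ b F w := by
  induction w with
  | nil => intro P F; simp [RC_nil]
  | cons x w ih =>
    intro P F
    rw [RC_cons, RC_cons]
    have e : (fun v => P (cnt κ (x :: v)) * F (x :: v)) =
        fun v => (fun n => P (κ x + n)) (cnt κ v) * F (x :: v) := rfl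
    rw [e, ih (fun n => P (κ x + n)) (fun v => F (x :: v))]
    simp only [cnt]
    rw [← add_assoc, mul_add]
    congr 1
    by_cases hx : x = tr (cnt κ w) b
    · have h3 : κ x = κ b := by rw [hx, h.ktr]
      have h4 : κ x + cnt κ w + κ b = cnt κ w := by
        rw [h3, add_comm (κ b) (cnt κ w), add_assoc, h.two, add_zero]
      rw [h4]; ring
    · simp [eqv, hx]

theorem RC_LC (a b : A) (w : List A) : ∀ F : List A → ZMod 2,
    RC tr κ a (LC tr κ b F) w = LC tr κ b (RC tr κ a F) w := by
  induction w with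
  | nil => intro F; rfl
  | cons x w ih =>
    intro F
    rw [RC_cons, LC_cons]
    have e1 : (fun v => LC tr κ b F (x :: v)) =
        eqv b x • F + LC tr κ b (fun v => F (sC tr κ b x :: v)) := by
      funext v; rw [LC_cons]; rfl
    have e2 : (fun v => RC tr κ a F (sC tr κ b x :: v)) =
        (fun v => (fun n => eqv (tr (κ b + n) a) x) (cnt κ v) * F v) +
          RC tr κ a (fun v => F (sC tr κ b x :: v)) := by
      funext v
      rw [RC_cons, Pi.add_apply]
      congr 2
      show eqv (tr (cnt κ v) a) (tr (κ b) x) = eqv (tr (κ b + cnt κ v) a) x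
      rw [eqv_tr h, h.trA]
    rw [e1, e2, map_add, map_add, map_smul]
    simp only [Pi.add_apply, Pi.smul_apply, smul_eq_mul]
    rw [LC_cnt h b w (fun n => eqv (tr (κ b + n) a) x) F, ih]
    have h4 : κ b + (cnt κ w + κ b) = cnt κ w := by
      rw [add_comm (cnt κ w), ← add_assoc, h.two, zero_add]
    simp only [h4]
    ring

theorem RC_LC' (a b : A) (F : List A → ZMod 2) :
    RC tr κ a (LC tr κ b F) = LC tr κ b (RC tr κ a F) := funext fun w => RC_LC h a b w F

theorem RC_dl (a : A) : RC tr κ a (dl A (ZMod 2)) = LC tr κ a (dl A (ZMod 2)) := by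
  funext w
  cases w with
  | nil => rfl
  | cons x w =>
    rw [RC_cons, LC_cons]
    have e1 : (fun v => dl A (ZMod 2) (x :: v)) = 0 := rfl
    have e2 : (fun v => dl A (ZMod 2) (sC tr κ a x :: v)) = 0 := rfl
    rw [e1, e2, map_zero, map_zero]
    cases w with
    | nil => simp only [cnt]; rw [h.tr0]
    | cons y w => simp [dl]

theorem RC_Lw (a : A) (u : List A) :
    RC tr κ a (Lw (sC tr κ) eqv u (dl A (ZMod 2))) =
      Lw (sC tr κ) eqv (u ++ [a]) (dl A (ZMod 2)) := by
  induction u with
  | nil => exact RC_dl h a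
  | cons b u ih =>
    have : RC tr κ a (Lw (sC tr κ) eqv (b :: u) (dl A (ZMod 2))) =
      LC tr κ b (RC tr κ a (Lw (sC tr κ) eqv u (dl A (ZMod 2)))) := RC_LC' h a b _
    rw [this, ih]; rfl

omit h in
/-- the span of iterated deletions with letters in `E`, of length `d` -/
def SpC (tr : C → A → A) (κ : A → C) (E : Set A) (d : ℕ) :
    Submodule (ZMod 2) (List A → ZMod 2) :=
  Submodule.span (ZMod 2) {F | ∃ u : List A, (∀ x ∈ u, x ∈ E) ∧ u.length = d ∧
    F = Lw (sC tr κ) eqv u (dl A (ZMod 2))}

omit h in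
theorem SpC_L (E : Set A) (d : ℕ) (a : A) (ha : a ∈ E) (F : List A → ZMod 2)
    (hF : F ∈ SpC tr κ E d) : LC tr κ a F ∈ SpC tr κ E (d + 1) := by
  refine Submodule.span_induction (p := fun F _ => LC tr κ a F ∈ SpC tr κ E (d + 1))
    ?_ ?_ ?_ ?_ hF
  · rintro _ ⟨u, hu, hd, rfl⟩
    apply Submodule.subset_span
    refine ⟨a :: u, ?_, by simp [hd], rfl⟩
    intro x hx
    rcases List.mem_cons.1 hx with h | h
    · rw [h]; exact ha
    · exact hu x h
  · simp
  · intro x y _ _ hx hy
    rw [map_add]
    exact Submodule.add_mem _ hx hy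
  · intro c x _ hx
    rw [map_smul]
    exact Submodule.smul_mem _ _ hx

theorem SpC_R (E : Set A) (d : ℕ) (a : A) (ha : a ∈ E) (F : List A → ZMod 2)
    (hF : F ∈ SpC tr κ E d) : RC tr κ a F ∈ SpC tr κ E (d + 1) := by
  refine Submodule.span_induction (p := fun F _ => RC tr κ a F ∈ SpC tr κ E (d + 1))
    ?_ ?_ ?_ ?_ hF
  · rintro _ ⟨u, hu, hd, rfl⟩
    apply Submodule.subset_span
    refine ⟨u ++ [a], ?_, by simp [hd], RC_Lw h a u⟩
    intro x hx
    rcases List.mem_append.1 hx with h | h
    · exact hu x h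
    · rw [List.mem_singleton.1 h]; exact ha
  · simp
  · intro x y _ _ hx hy
    rw [map_add]
    exact Submodule.add_mem _ hx hy
  · intro c x _ hx
    rw [map_smul]
    exact Submodule.smul_mem _ _ hx

omit h in
theorem exists_of_SpC (E : Set A) (d : ℕ) (F : List A → ZMod 2) (hF : F ∈ SpC tr κ E d)
    (hne : F ≠ 0) : ∃ u : List A, (∀ x ∈ u, x ∈ E) ∧ u.length = d ∧
      Lw (sC tr κ) eqv u (dl A (ZMod 2)) ≠ 0 := by
  by_contra hcon
  push Not at hcon
  have h0 : SpC tr κ E d = ⊥ := by
    rw [SpC, Submodule.span_eq_bot]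
    rintro _ ⟨u, hu, hd, rfl⟩
    exact hcon u hu hd
  rw [h0, Submodule.mem_bot] at hF
  exact hne hF

end Ab

end Pool.Agent.H85.FK
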