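import Mathlib

/-!
The Fomin-Kirillov algebras over the rationals and their subalgebras attached to graphs.
-/

namespace Pool.Agent.H85.FK

/-- The index set of the generators `x i j`, `i < j`. -/
abbrev Gen (n : ℕ) := {p : Fin n × Fin n // p.1 < p.2}

/-- The element `x i j` of the free algebra: the generator if `i < j`, minus the generator
`x j i` if `j < i` (and zero on the diagonal, which is never used). -/
noncomputable def gen (n : ℕ) (i j : Fin n) : FreeAlgebra ℚ (Gen n) :=
  if h : i < j then FreeAlgebra.ι ℚ ⟨(i, j), h⟩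
  else if h : j < i then -FreeAlgebra.ι ℚ ⟨(j, i), h⟩ else 0

/-- The defining relations. -/
inductive Rel (n : ℕ) : FreeAlgebra ℚ (Gen n) → FreeAlgebra ℚ (Gen n) → Prop
  | sq (i j : Fin n) (hij : i ≠ j) : Rel n (gen n i j * gen n i j) 0
  | comm (i j k l : Fin n) (hij : i ≠ j) (hik : i ≠ k) (hil : i ≠ l) (hjk : j ≠ k)
      (hjl : j ≠ l) (hkl : k ≠ l) : Rel n (gen n i j * gen n k l) (gen n k l * gen n i j)
  | tri (i j k : Fin n) (hij : i ≠ j) (hjk : j ≠ k) (hik : i ≠ k) :
      Rel n (gen n i j * gen n j k + gen n j k * gen n k i + gen n k i * gen n i j) 0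

/-- The Fomin-Kirillov algebra. -/
abbrev FKAlg (n : ℕ) := RingQuot (Rel n)

/-- The element `x i j` of the Fomin-Kirillov algebra. -/
noncomputable def xx {n : ℕ} (i j : Fin n) : FKAlg n := RingQuot.mkAlgHom ℚ (Rel n) (gen n i j)

/-- The subalgebra generated by the edges of a graph. -/
noncomputable def FKSub {n : ℕ} (G : SimpleGraph (Fin n)) : Subalgebra ℚ (FKAlg n) :=
  Algebra.adjoin ℚ {y | ∃ i j, G.Adj i j ∧ y = xx i j}

end Pool.Agent.H85.FK
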