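import Pool.Agent.H85.FK.Op
import Pool.Agent.H85.FK.Defs

/-!
The Fomin-Kirillov algebras, their subalgebras attached to graphs, and the action on functions
on words.
-/

namespace Pool.Agent.H85.FK

section Act

variable {n : ℕ} {k : Type*} [CommRing k]

/-- the transposition attached to a pair acts on pairs -/
def sX {α : Type*} [DecidableEq α] (a x : α × α) : α × α :=
  (Equiv.swap a.1 a.2 x.1, Equiv.swap a.1 a.2 x.2)

/-- signed pairing -/
def cX {α : Type*} [DecidableEq α] (k : Type*) [CommRing k] (a x : α × α) : k :=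
  (if x = a then 1 else 0) - (if x = a.swap then 1 else 0)

variable {α : Type*} [DecidableEq α]

theorem cX_swap (a x : α × α) : cX k a.swap x = - cX k a x := by
  unfold cX; rw [Prod.swap_swap]; ring

theorem sX_swap (a x : α × α) : sX a.swap x = sX a x := by
  unfold sX; simp [Equiv.swap_comm]

theorem L_rev (a : α × α) (w : List (α × α)) : ∀ F : List (α × α) → k,
    L sX (cX k) a.swap F w = - L sX (cX k) a F w := by
  induction w with
  | nil => intro F; simp [L_nil]
  | cons x w ih =>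
    intro F
    rw [L_cons, L_cons, ih, cX_swap, sX_swap]; ring

theorem sX_sX (a x : α × α) : sX a (sX a x) = x := by
  unfold sX; simp

theorem sX_fst (i j : α) (x : α × α) : sX (i, j) x = (Equiv.swap i j x.1, Equiv.swap i j x.2) :=
  rfl

theorem cX_sX (a b x : α × α) : cX k b (sX a x) = cX k (sX a b) x := by
  have h1 : ∀ y z : α × α, (sX a y = z) ↔ (y = sX a z) := by
    intro y z
    constructor
    · intro h; rw [← h, sX_sX]
    · intro h; rw [h, sX_sX]
  have h2 : sX a b.swap = (sX a b).swap := rfl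
  unfold cX
  simp only [h1, h2]

theorem L_sq (a : α × α) (w : List (α × α)) : ∀ F : List (α × α) → k,
    L sX (cX k) a (L sX (cX k) a F) w = 0 := by
  induction w with
  | nil => intro F; rfl
  | cons x w ih =>
    intro F
    rw [L_L_cons, ih, cX_sX]
    have : sX a a = a.swap := by
      unfold sX; simp [Prod.swap]
    rw [this, cX_swap]; ring

theorem L_cm (a b : α × α) (h1 : a.1 ≠ b.1) (h2 : a.1 ≠ b.2) (h3 : a.2 ≠ b.1) (h4 : a.2 ≠ b.2)
    (w : List (α × α)) : ∀ F : List (α × α) → k,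
    L sX (cX k) a (L sX (cX k) b F) w = L sX (cX k) b (L sX (cX k) a F) w := by
  have e1 : sX a b = b := by
    unfold sX
    rw [Equiv.swap_apply_of_ne_of_ne h1.symm h3.symm, Equiv.swap_apply_of_ne_of_ne h2.symm h4.symm]
  have e2 : sX b a = a := by
    unfold sX
    rw [Equiv.swap_apply_of_ne_of_ne h1 h2, Equiv.swap_apply_of_ne_of_ne h3 h4]
  have e3 : ∀ i, Equiv.swap a.1 a.2 (Equiv.swap b.1 b.2 i) =
      Equiv.swap b.1 b.2 (Equiv.swap a.1 a.2 i) := by
    intro i
    have h := Equiv.mul_swap_eq_swap_mul (Equiv.swap a.1 a.2) b.1 b.2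
    rw [Equiv.swap_apply_of_ne_of_ne h1.symm h3.symm,
      Equiv.swap_apply_of_ne_of_ne h2.symm h4.symm] at h
    exact congrArg (fun f : Equiv.Perm α => f i) h
  have e4 : ∀ x : α × α, sX a (sX b x) = sX b (sX a x) := by
    intro x; unfold sX; simp only [e3]
  induction w with
  | nil => intro F; rfl
  | cons x w ih =>
    intro F
    rw [L_L_cons, L_L_cons, ih, cX_sX, cX_sX, e1, e2, e4]
    ring

theorem L_tri (i j l : α) (hij : i ≠ j) (hjl : j ≠ l) (hil : i ≠ l)
    (w : List (α × α)) : ∀ F : List (α × α) → k,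
    L sX (cX k) (i, j) (L sX (cX k) (j, l) F) w + L sX (cX k) (j, l) (L sX (cX k) (l, i) F) w +
      L sX (cX k) (l, i) (L sX (cX k) (i, j) F) w = 0 := by
  have e1 : sX (i, j) (j, l) = Prod.swap (l, i) := by
    unfold sX
    simp only [Equiv.swap_apply_right, Prod.swap]
    rw [Equiv.swap_apply_of_ne_of_ne hil.symm hjl.symm]
  have e2 : sX (j, l) (l, i) = Prod.swap (i, j) := by
    unfold sX
    simp only [Equiv.swap_apply_right, Prod.swap]
    rw [Equiv.swap_apply_of_ne_of_ne hij hil]
  have e3 : sX (l, i) (i, j) = Prod.swap (j, l) := by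
    unfold sX
    simp only [Equiv.swap_apply_right, Prod.swap]
    rw [Equiv.swap_apply_of_ne_of_ne hjl hij.symm]
  have c1 : ∀ m, Equiv.swap j l (Equiv.swap i j m) = Equiv.swap l i (Equiv.swap j l m) := by
    intro m
    have h := Equiv.mul_swap_eq_swap_mul (Equiv.swap j l) i j
    rw [Equiv.swap_apply_of_ne_of_ne hij hil, Equiv.swap_apply_left, Equiv.swap_comm i l] at h
    exact congrArg (fun f : Equiv.Perm α => f m) h
  have c2 : ∀ m, Equiv.swap l i (Equiv.swap j l m) = Equiv.swap i j (Equiv.swap l i m) := by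
    intro m
    have h := Equiv.mul_swap_eq_swap_mul (Equiv.swap l i) j l
    rw [Equiv.swap_apply_of_ne_of_ne hjl hij.symm, Equiv.swap_apply_left, Equiv.swap_comm j i] at h
    exact congrArg (fun f : Equiv.Perm α => f m) h
  have d1 : ∀ x, sX (j, l) (sX (i, j) x) = sX (l, i) (sX (j, l) x) := by
    intro x; unfold sX; simp only [c1]
  have d2 : ∀ x, sX (l, i) (sX (j, l) x) = sX (i, j) (sX (l, i) x) := by
    intro x; unfold sX; simp only [c2]
  induction w with
  | nil => intro F; simp [L_nil]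
  | cons x w ih =>
    intro F
    have h := ih (fun v => F (sX (j, l) (sX (i, j) x) :: v))
    rw [L_L_cons, L_L_cons, L_L_cons, ← d2, ← d1, cX_sX, cX_sX, cX_sX, e1, e2, e3, cX_swap,
      cX_swap, cX_swap]
    linear_combination h

/-- the operator as an endomorphism -/
def LX (n : ℕ) (a : Fin n × Fin n) : Module.End ℚ (List (Fin n × Fin n) → ℚ) :=
  L sX (cX ℚ) a

/-- the action of the free algebra -/
noncomputable def act0 (n : ℕ) :
    FreeAlgebra ℚ (Gen n) →ₐ[ℚ] Module.End ℚ (List (Fin n × Fin n) → ℚ) :=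
  FreeAlgebra.lift ℚ (fun p => LX n p.1)

theorem act0_gen (n : ℕ) (i j : Fin n) (hij : i ≠ j) : act0 n (gen n i j) = LX n (i, j) := by
  unfold gen act0
  split_ifs with h1 h2
  · rw [FreeAlgebra.lift_ι_apply]
  · rw [map_neg, FreeAlgebra.lift_ι_apply]
    apply LinearMap.ext
    intro F
    funext w
    have := L_rev (k := ℚ) (i, j) w F
    show - (L sX (cX ℚ) (j, i) F w) = L sX (cX ℚ) (i, j) F w
    rw [show (j, i) = Prod.swap (i, j) from rfl, this, neg_neg]
  · exact absurd (le_antisymm (not_lt.1 h2) (not_lt.1 h1)) hij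

theorem act0_rel (n : ℕ) ⦃x y : FreeAlgebra ℚ (Gen n)⦄ (h : Rel n x y) :
    act0 n x = act0 n y := by
  cases h with
  | sq i j hij =>
    rw [map_mul, map_zero, act0_gen n i j hij]
    apply LinearMap.ext
    intro F
    funext w
    exact L_sq (i, j) w F
  | comm i j k l hij hik hil hjk hjl hkl =>
    rw [map_mul, map_mul, act0_gen n i j hij, act0_gen n k l hkl]
    apply LinearMap.ext
    intro F
    funext w
    exact L_cm (i, j) (k, l) hik hil hjk hjl w F
  | tri i j k hij hjk hik =>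
    rw [map_add, map_add, map_mul, map_mul, map_mul, map_zero, act0_gen n i j hij,
      act0_gen n j k hjk, act0_gen n k i hik.symm]
    apply LinearMap.ext
    intro F
    funext w
    exact L_tri i j k hij hjk hik w F

/-- the action of the Fomin-Kirillov algebra -/
noncomputable def act (n : ℕ) :
    FKAlg n →ₐ[ℚ] Module.End ℚ (List (Fin n × Fin n) → ℚ) :=
  RingQuot.liftAlgHom ℚ ⟨act0 n, act0_rel n⟩

theorem act_xx (n : ℕ) (i j : Fin n) (hij : i ≠ j) : act n (xx i j) = LX n (i, j) := by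
  unfold act xx
  rw [RingQuot.liftAlgHom_mkAlgHom_apply]
  exact act0_gen n i j hij

/-- product of generators along a word -/
noncomputable def xw {n : ℕ} (u : List (Fin n × Fin n)) : FKAlg n :=
  (u.map (fun p => xx p.1 p.2)).prod

theorem act_xw (n : ℕ) (u : List (Fin n × Fin n)) (hu : ∀ p ∈ u, p.1 ≠ p.2) :
    act n (xw u) (dl (Fin n × Fin n) ℚ) = Lw sX (cX ℚ) u (dl (Fin n × Fin n) ℚ) := by
  induction u with
  | nil => simp [xw]
  | cons a u ih =>
    have h1 : xw (a :: u) = xx a.1 a.2 * xw u := by simp [xw]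
    rw [h1, map_mul, Module.End.mul_apply, ih (fun p hp => hu p (List.mem_cons_of_mem _ hp)),
      act_xx n _ _ (hu a (by simp)), Lw_cons]
    rfl

theorem xw_mem {n : ℕ} (G : SimpleGraph (Fin n)) (u : List (Fin n × Fin n))
    (hu : ∀ p ∈ u, G.Adj p.1 p.2) : xw u ∈ FKSub G := by
  unfold xw
  apply Subalgebra.list_prod_mem
  intro y hy
  rw [List.mem_map] at hy
  obtain ⟨p, hp, rfl⟩ := hy
  exact Algebra.subset_adjoin ⟨p.1, p.2, hu p hp, rfl⟩

/-- The criterion: unboundedly long words acting nontrivially on the delta function. -/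
theorem infinite_of_words {n : ℕ} (G : SimpleGraph (Fin n))
    (h : ∀ N : ℕ, ∃ u : List (Fin n × Fin n), N ≤ u.length ∧ (∀ p ∈ u, G.Adj p.1 p.2) ∧
      Lw sX (cX ℚ) u (dl (Fin n × Fin n) ℚ) ≠ 0) : ¬ FiniteDimensional ℚ (FKSub G) := by
  intro hfd
  set ev : FKSub G →ₗ[ℚ] (List (Fin n × Fin n) → ℚ) :=
    (LinearMap.applyₗ (dl (Fin n × Fin n) ℚ)) ∘ₗ (act n).toLinearMap ∘ₗ
      (FKSub G).toSubmodule.subtype with hev
  set S : Set ℕ := {d | ∃ F ∈ LinearMap.range ev, F ≠ 0 ∧ Supp d F} with hS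
  have hinf : S.Infinite := by
    rw [Set.infinite_iff_exists_gt]
    intro N
    obtain ⟨u, hN, hu, hne⟩ := h (N + 1)
    refine ⟨u.length, ⟨Lw sX (cX ℚ) u (dl (Fin n × Fin n) ℚ), ?_, hne, supp_Lw _ _ _⟩, hN⟩
    refine ⟨⟨xw u, xw_mem G u hu⟩, ?_⟩
    exact act_xw n u (fun p hp => (hu p hp).ne)
  have hch : ∀ d : S, ∃ F : LinearMap.range ev, ∃ w : List (Fin n × Fin n),
      w.length = d.1 ∧ F.1 w ≠ 0 ∧ Supp d.1 F.1 := by
    rintro ⟨d, F, hF, hne, hs⟩
    obtain ⟨w, hw⟩ := Function.ne_iff.1 hne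
    refine ⟨⟨F, hF⟩, w, ?_, hw, hs⟩
    by_contra hl
    exact hw (hs w hl)
  choose f w hw1 hw2 hw3 using hch
  have hli : LinearIndependent ℚ f := by
    rw [linearIndependent_iff']
    intro t c hsum d hd
    have h1 := congrArg (fun F : LinearMap.range ev => F.1 (w d)) hsum
    simp only [Submodule.coe_sum, Submodule.coe_smul, Finset.sum_apply, Pi.smul_apply,
      Submodule.coe_zero, Pi.zero_apply, smul_eq_mul] at h1
    rw [Finset.sum_eq_single d] at h1
    · exact (mul_eq_zero.1 h1).resolve_right (hw2 d)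
    · intro e _ hed
      rw [hw3 e, mul_zero]
      rw [hw1 d]
      intro h'
      exact hed (Subtype.ext h'.symm)
    · intro hd'; exact absurd hd hd'
  have : FiniteDimensional ℚ (LinearMap.range ev) := inferInstance
  have hfin : Finite S := hli.finite
  exact hinf (Set.toFinite S)

end Act

end Pool.Agent.H85.FK
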