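import Pool.Agent.H85.FK.Step
import Pool.Agent.H85.FK.Alg

/-!
The chain of foldings on eight points and the main theorem.
-/

namespace Pool.Agent.H85.FK

section Sym

variable {α : Type*} [DecidableEq α]

/-- the transposition of an unordered pair -/
def sw : Sym2 α → Equiv.Perm α :=
  Sym2.lift ⟨fun i j => Equiv.swap i j, fun i j => Equiv.swap_comm i j⟩

theorem sw_mk (i j : α) : sw s(i, j) = Equiv.swap i j := rfl

/-- the rack of unordered pairs -/
def s0 (a x : Sym2 α) : Sym2 α := x.map (sw a)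

theorem sw_map (σ : Equiv.Perm α) (b : Sym2 α) : sw (b.map σ) = σ * sw b * σ⁻¹ := by
  induction b using Sym2.ind with
  | _ i j =>
    rw [Sym2.map_mk]
    show Equiv.swap (σ i) (σ j) = σ * Equiv.swap i j * σ⁻¹
    rw [Equiv.swap_apply_apply]

theorem map_s0 (σ : Equiv.Perm α) (a b : Sym2 α) :
    (s0 a b).map σ = s0 (a.map σ) (b.map σ) := by
  unfold s0
  rw [sw_map, Sym2.map_map, Sym2.map_map]
  congr 1
  funext i
  simp

theorem quan0 : Quan (s0 (α := α)) where
  inv a x := by
    unfold s0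
    rw [Sym2.map_map]
    have : (sw a ∘ sw a : α → α) = id := by
      funext i
      induction a using Sym2.ind with
      | _ p q => simp [sw_mk]
    rw [this, Sym2.map_id]
    rfl
  dist a b x := by
    exact map_s0 (sw a) b x
  idem a := by
    induction a using Sym2.ind with
    | _ i j =>
      unfold s0
      rw [Sym2.map_mk, sw_mk]
      simp [Sym2.eq_swap]

end Sym

/-- the involution on eight points -/
def tau : Equiv.Perm (Fin 8) :=
  ⟨![2, 3, 0, 1, 6, 7, 4, 5], ![2, 3, 0, 1, 6, 7, 4, 5], by decide, by decide⟩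

/-- the induced map on pairs -/
def g0 (x : Sym2 (Fin 8)) : Sym2 (Fin 8) := x.map tau

theorem g0_g0 (x : Sym2 (Fin 8)) : g0 (g0 x) = x := by
  unfold g0
  rw [Sym2.map_map]
  have : (tau ∘ tau : Fin 8 → Fin 8) = id := by decide
  rw [this, Sym2.map_id]
  rfl

theorem g0_s0 (a b : Sym2 (Fin 8)) : g0 (s0 a b) = s0 (g0 a) (g0 b) := map_s0 tau a b

/-- table -/
def N1 : ℕ := 0xf6d74a58ce9b12306e7cb495df8a3120f7d65a48ecb912307e6cb594fda831204e5cb6978adf0213f4d56a789bce30125e4cb796a8fd0213f5d47a68b9ec3012cdef89ab76542310efcdab897654231098badcfe76543201ba98fedc76543201defc9ab867543210fcdeb89a67543210dcfeba9876453210fedc98ba76453210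

/-- the rack with sixteen letters -/
def s1 (b x : Fin 16) : Fin 16 := Fin.ofNat 16 (N1 >>> (4 * (16 * b.1 + x.1)))

/-- its involution -/
def g1 (b : Fin 16) : Fin 16 := Fin.ofNat 16 (0xa98bcfed67452301 >>> (4 * b.1))

theorem quan1 : Quan s1 where
  inv := by decide +kernel
  dist := by decide +kernel
  idem := by decide +kernel

theorem g1_g1 : ∀ a, g1 (g1 a) = a := by decide +kernel

theorem g1_s1 : ∀ a b, g1 (s1 a b) = s1 (g1 a) (g1 b) := by decide +kernel

/-- representatives of the sixteen letters -/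
def r1 : Fin 16 → Sym2 (Fin 8) :=
  ![s(0, 2), s(1, 3), s(4, 6), s(5, 7), s(0, 1), s(1, 2), s(4, 5), s(5, 6),
    s(0, 4), s(0, 5), s(0, 6), s(0, 7), s(1, 4), s(1, 5), s(1, 6), s(1, 7)]

/-- representatives of the six letters -/
def r2 (x : V) : Fin 16 :=
  if x = (0, 0) then 0 else if x = (0, 1) then 2 else if x = (1, 0) then 8 else
    if x = (1, 1) then 10 else if x = (2, 0) then 9 else 11

theorem r2_comm : ∀ b, s1 (r2 b) (g1 (r2 b)) = g1 (r2 b) := by decide +kernel

theorem r2_inj : ∀ b x : V, r2 x = r2 b ∨ r2 x = g1 (r2 b) → x = b := by decide +kernel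

theorem r2_act : ∀ b x : V, r2 (sV b x) = ga s1 g1 r2 b (r2 x) ∨
    r2 (sV b x) = g1 (ga s1 g1 r2 b (r2 x)) := by
  unfold ga
  decide +kernel

theorem r1_comm : ∀ b, s0 (r1 b) (g0 (r1 b)) = g0 (r1 b) := by
  decide +kernel

theorem r1_inj : ∀ b x : Fin 16, r1 x = r1 b ∨ r1 x = g0 (r1 b) → x = b := by
  decide +kernel

theorem r1_act : ∀ b x : Fin 16, r1 (s1 b x) = ga s0 g0 r1 b (r1 x) ∨
    r1 (s1 b x) = g0 (ga s0 g0 r1 b (r1 x)) := by
  unfold ga
  decide +kernel

/-- the folded words, two steps down -/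
def down (u : List V) : List (Sym2 (Fin 8)) :=
  (u.flatMap (blk g1 r2)).flatMap (blk g0 r1)

theorem down_word (u w : List V) :
    Lw s0 eqv (down u) (dl (Sym2 (Fin 8)) (ZMod 2)) (down w) =
      Lw sV eqv u (dl V (ZMod 2)) w := by
  unfold down
  rw [(fold_word s1 quan0 g0_g0 g0_s0 r1_comm r1_inj r1_act (u.flatMap (blk g1 r2))).2.2,
    (fold_word sV quan1 g1_g1 g1_s1 r2_comm r2_inj r2_act u).2.2]

/-- the twelve edges used -/
def cyc : Fin 8 → Fin 8 := ![0, 4, 3, 7, 2, 6, 1, 5]

theorem cyc_inj : Function.Injective cyc := by decide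

/-- inverse of the relabelling -/
def cyc' : Fin 8 → Fin 8 := ![0, 6, 4, 2, 1, 7, 5, 3]

theorem cyc'_cyc : ∀ i, cyc' (cyc i) = i := by decide

/-- edge test for pairs -/
def isE (e : Sym2 (Fin 8)) : Prop := ∃ i : Fin 8, e = s(cyc i, cyc (i + 1)) ∨
  e = s(cyc i, cyc (i + 4))

instance (e : Sym2 (Fin 8)) : Decidable (isE e) := by unfold isE; infer_instance

theorem blk_isE : ∀ x ∈ ([(0, 0), (0, 1), (1, 0), (2, 0)] : List V), ∀ b ∈ blk g1 r2 x,
    ∀ e ∈ blk g0 r1 b, isE e := by
  decide +kernel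

theorem down_isE (u : List V) (hu : ∀ x ∈ u, x ∈ E4) : ∀ e ∈ down u, isE e := by
  intro e he
  unfold down at he
  rw [List.mem_flatMap] at he
  obtain ⟨b, hb, he⟩ := he
  rw [List.mem_flatMap] at hb
  obtain ⟨x, hx, hb⟩ := hb
  refine blk_isE x ?_ b hb e he
  have := hu x hx
  simpa [E4] using this

theorem length_blk {A B : Type*} [DecidableEq A] (g : A → A) (r : B → A) (u : List B) :
    u.length ≤ (u.flatMap (blk g r)).length := by
  induction u with
  | nil => simp
  | cons b u ih =>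
    rw [List.flatMap_cons, List.length_append, List.length_cons]
    have : 1 ≤ (blk g r b).length := by
      unfold blk; split_ifs <;> simp
    omega

/-- choice of an orientation -/
noncomputable def ori (e : Sym2 (Fin 8)) : Fin 8 × Fin 8 := Quot.out e

theorem mk_ori (e : Sym2 (Fin 8)) : Sym2.mk (ori e).1 (ori e).2 = e := Quot.out_eq e

theorem exists_rat (N : ℕ) : ∃ u : List (Fin 8 × Fin 8), N ≤ u.length ∧
    (∀ p ∈ u, isE s(p.1, p.2)) ∧ Lw sX (cX ℚ) u (dl (Fin 8 × Fin 8) ℚ) ≠ 0 := by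
  obtain ⟨u, hu, hl, hne⟩ := exists_long N
  obtain ⟨w, hw⟩ := Function.ne_iff.1 hne
  rw [← down_word] at hw
  have hE := down_isE u hu
  have hlen : u.length ≤ (down u).length :=
    (length_blk g1 r2 u).trans (length_blk g0 r1 _)
  refine ⟨(down u).map ori, ?_, ?_, ?_⟩
  · rw [List.length_map]; omega
  · intro p hp
    rw [List.mem_map] at hp
    obtain ⟨e, he, rfl⟩ := hp
    rw [mk_ori]
    exact hE e he
  · have e1 : ∀ l : List (Sym2 (Fin 8)),
        (l.map ori).map (fun p : Fin 8 × Fin 8 => s(p.1, p.2)) = l := by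
      intro l
      rw [List.map_map]
      have : (fun p : Fin 8 × Fin 8 => s(p.1, p.2)) ∘ ori = id := by
        funext e; exact mk_ori e
      rw [this, List.map_id]
    have hdiag : ∀ a ∈ (down u).map ori, a.1 ≠ a.2 := by
      intro a ha hd
      rw [List.mem_map] at ha
      obtain ⟨e, he, rfl⟩ := ha
      have h1 := hE e he
      have h2 : e.IsDiag := by
        rw [← mk_ori e]
        exact hd
      have h3 : ∀ e : Sym2 (Fin 8), isE e → ¬ e.IsDiag := by
        rintro e ⟨i, h | h⟩
        · rw [h]; clear h; revert i; decide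
        · rw [h]; clear h; revert i; decide
      exact h3 e h1 h2
    have h1 := Lw_pull (k := ZMod 2) sX (cX (ZMod 2)) s0 eqv
      (fun p : Fin 8 × Fin 8 => s(p.1, p.2)) ((down u).map ori)
      (fun a _ x => rfl) (by
        intro a ha x
        have hd := hdiag a ha
        obtain ⟨a1, a2⟩ := a
        obtain ⟨x1, x2⟩ := x
        simp only [eqv, cX, Prod.mk.injEq, Prod.swap, Sym2.eq_iff]
        by_cases h1 : x1 = a1 ∧ x2 = a2
        · obtain ⟨h1, h2⟩ := h1
          subst h1 h2
          simp only at hd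
          simp [hd]
        · by_cases h2 : x1 = a2 ∧ x2 = a1
          · obtain ⟨h3, h4⟩ := h2
            subst h3 h4
            simp only at hd
            simp [hd]
          · simp [h1, h2]) ((down w).map ori)
    rw [e1, e1] at h1
    rw [h1] at hw
    have h2 := Lw_ringHom (Int.castRingHom (ZMod 2)) sX (cX ℤ) (cX (ZMod 2))
      (by intro a x; unfold cX; split_ifs <;> simp) ((down u).map ori) ((down w).map ori)
    have h3 := Lw_ringHom (Int.castRingHom ℚ) sX (cX ℤ) (cX ℚ)
      (by intro a x; unfold cX; split_ifs <;> simp) ((down u).map ori) ((down w).map ori)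
    intro h0
    rw [h0] at h3
    have h4 : Lw sX (cX ℤ) ((down u).map ori) (dl (Fin 8 × Fin 8) ℤ) ((down w).map ori) = 0 := by
      have h5 : ((Lw sX (cX ℤ) ((down u).map ori) (dl (Fin 8 × Fin 8) ℤ)
        ((down w).map ori) : ℤ) : ℚ) = 0 := h3.symm
      exact_mod_cast h5
    rw [h4, map_zero] at h2
    exact hw h2

theorem main (n : ℕ) (G : SimpleGraph (Fin n)) (φ : Fin 8 → Fin n)
    (hφ : Function.Injective φ)
    (h : ∀ i : Fin 8, G.Adj (φ i) (φ (i + 1)) ∧ G.Adj (φ i) (φ (i + 4))) :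
    ¬ FiniteDimensional ℚ (FKSub G) := by
  apply infinite_of_words
  intro N
  obtain ⟨u, hN, hE, hne⟩ := exists_rat N
  set ψ : Fin 8 → Fin n := fun i => φ (cyc' i) with hψ
  have hc : Function.Injective cyc' := by decide
  have hψi : Function.Injective ψ := hφ.comp hc
  refine ⟨u.map (Prod.map ψ ψ), by rw [List.length_map]; exact hN, ?_, ?_⟩
  · intro p hp
    rw [List.mem_map] at hp
    obtain ⟨q, hq, rfl⟩ := hp
    obtain ⟨i, hi⟩ := hE q hq
    simp only [Prod.map_fst, Prod.map_snd]
    rcases hi with hi | hi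
    · rw [Sym2.eq_iff] at hi
      rcases hi with ⟨h1, h2⟩ | ⟨h1, h2⟩
      · rw [h1, h2]; simp only [hψ, cyc'_cyc]; exact (h i).1
      · rw [h1, h2]; simp only [hψ, cyc'_cyc]; exact (h i).1.symm
    · rw [Sym2.eq_iff] at hi
      rcases hi with ⟨h1, h2⟩ | ⟨h1, h2⟩
      · rw [h1, h2]; simp only [hψ, cyc'_cyc]; exact (h i).2
      · rw [h1, h2]; simp only [hψ, cyc'_cyc]; exact (h i).2.symm
  · intro h0
    apply hne
    funext w
    have h1 := Lw_pull (k := ℚ) sX (cX ℚ) sX (cX ℚ) (Prod.map ψ ψ) u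
      (by
        intro a _ x
        unfold sX
        simp only [Prod.map_fst, Prod.map_snd, hψi.swap_apply]
        rfl)
      (by
        intro a _ x
        unfold cX
        have e1 : (Prod.map ψ ψ x = Prod.map ψ ψ a) ↔ x = a :=
          (hψi.prodMap hψi).eq_iff
        have e2 : (Prod.map ψ ψ x = (Prod.map ψ ψ a).swap) ↔ x = a.swap := by
          have : (Prod.map ψ ψ a).swap = Prod.map ψ ψ a.swap := rfl
          rw [this]
          exact (hψi.prodMap hψi).eq_iff
        simp only [e1, e2]) w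
    rw [h0] at h1
    exact h1.symm

theorem main_complete (n : ℕ) (hn : 8 ≤ n) : ¬ FiniteDimensional ℚ (FKAlg n) := by
  intro hfd
  apply main n ⊤ (Fin.castLE hn) (Fin.castLE_injective hn)
  · intro i
    constructor
    · rw [SimpleGraph.top_adj, (Fin.castLE_injective hn).ne_iff]
      revert i; decide
    · rw [SimpleGraph.top_adj, (Fin.castLE_injective hn).ne_iff]
      revert i; decide
  · infer_instance

end Pool.Agent.H85.FK
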