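import Pool.Agent.H85.FK.Step

/-!
The folding step for racks in which two letters commute or satisfy the braid relation. A folded
letter is a fixed letter, a commuting pair, or a noncommuting pair (giving a block of length
three).
-/

namespace Pool.Agent.H85.FK

variable {A B : Type*} [DecidableEq A] [DecidableEq B]

/-- functions killed by the quadratic relations -/
structure RelF (s : A → A → A) (F : List A → ZMod 2) : Prop where
  sq : ∀ u x v, F (u ++ x :: x :: v) = 0
  cm : ∀ u x y v, s x y = y → s y x = x → F (u ++ x :: y :: v) = F (u ++ y :: x :: v)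
  tr : ∀ u x y v, s x y = s y x → x ≠ y →
    F (u ++ x :: y :: v) + F (u ++ y :: s x y :: v) + F (u ++ s x y :: x :: v) = 0

omit [DecidableEq A] in
theorem relF_append {s : A → A → A} {F : List A → ZMod 2} (hF : RelF s F) (l : List A) :
    RelF s (fun v => F (l ++ v)) where
  sq u x v := by
    have := hF.sq (l ++ u) x v
    simpa [List.append_assoc] using this
  cm u x y v h1 h2 := by
    have := hF.cm (l ++ u) x y v h1 h2
    simpa [List.append_assoc] using this
  tr u x y v h1 h2 := by
    have := hF.tr (l ++ u) x y v h1 h2
    simpa [List.append_assoc] using this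

omit [DecidableEq A] in
theorem relF_cons {s : A → A → A} {F : List A → ZMod 2} (hF : RelF s F) (z : A) :
    RelF s (fun v => F (z :: v)) := relF_append hF [z]

omit [DecidableEq A] in
theorem relF_braid {s : A → A → A} {F : List A → ZMod 2} (hF : RelF s F) (u : List A) (x y : A)
    (v : List A) (h : s x y = s y x) (hne : x ≠ y) :
    F (u ++ x :: y :: x :: v) = F (u ++ y :: x :: y :: v) := by
  have h1 := hF.tr u x y (x :: v) h hne
  have h2 := hF.tr (u ++ [y]) x y v h hne
  have h3 := hF.sq (u ++ [s x y]) x v
  have h4 := hF.sq u y (s x y :: v)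
  simp only [List.append_assoc, List.cons_append, List.nil_append] at h1 h2 h3 h4
  rw [h3, add_zero] at h1
  rw [h4, add_zero] at h2
  have h5 : ∀ p q r : ZMod 2, p + q = 0 → r + q = 0 → p = r := by decide
  exact h5 _ _ _ h1 h2

omit [DecidableEq A] in
theorem add3_eq (F G H : List A → ZMod 2) (h : ∀ v, F v + G v + H v = 0) :
    F + G + H = 0 := by
  funext v; exact h v

theorem relF_L {s : A → A → A} (h : Quan s) (a : A) (F : List A → ZMod 2) (hF : RelF s F) :
    RelF s (L s eqv a F) where
  sq := by
    intro u
    induction u generalizing F with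
    | nil =>
      intro x v
      rw [List.nil_append, L_cons, L_cons]
      have e : (fun v => F (s a x :: s a x :: v)) = 0 := by
        funext v; exact hF.sq [] (s a x) v
      rw [e, map_zero]
      unfold eqv
      split_ifs with hx
      · rw [← hx, h.idem]
        have : ∀ p : ZMod 2, 1 * p + (1 * p + 0) = 0 := by decide
        exact this _
      · simp
    | cons z u ih =>
      intro x v
      rw [List.cons_append, L_cons, hF.sq u x v, ih _ (relF_cons hF (s a z)) x v]
      simp
  cm := by
    intro u
    induction u generalizing F with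
    | nil =>
      intro x y v h1 h2
      rw [List.nil_append, List.nil_append, L_cons, L_cons, L_cons, L_cons]
      have e : (fun v => F (s a x :: s a y :: v)) = fun v => F (s a y :: s a x :: v) := by
        funext v
        have h3 : s (s a x) (s a y) = s a y := by rw [← h.dist, h1]
        have h4 : s (s a y) (s a x) = s a x := by rw [← h.dist, h2]
        exact hF.cm [] _ _ v h3 h4
      rw [e]
      have e1 : eqv a x * F (y :: v) = eqv a x * F (s a y :: v) := by
        unfold eqv
        split_ifs with hx
        · rw [← hx, h1]
        · ring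
      have e2 : eqv a y * F (s a x :: v) = eqv a y * F (x :: v) := by
        unfold eqv
        split_ifs with hy
        · rw [← hy, h2]
        · ring
      rw [e1, e2]; ring
    | cons z u ih =>
      intro x y v h1 h2
      rw [List.cons_append, List.cons_append, L_cons, L_cons, hF.cm u x y v h1 h2,
        ih _ (relF_cons hF (s a z)) x y v h1 h2]
  tr := by
    intro u
    induction u generalizing F with
    | nil =>
      intro x y v h1 hne
      rw [List.nil_append, List.nil_append, List.nil_append, L_cons, L_cons, L_cons, L_cons,
        L_cons, L_cons]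
      set z := s x y with hz
      have hxz : s x z = y := h.inv x y
      have hyz : s y z = x := by rw [h1]; exact h.inv y x
      have hzy : s z y = x := by
        have := h.dist y x y
        rw [h.idem, ← h1, ← hz, hyz] at this
        exact this.symm
      have e : (fun v => F (s a x :: s a y :: v)) + (fun v => F (s a y :: s a z :: v)) +
          (fun v => F (s a z :: s a x :: v)) = 0 := by
        apply add3_eq
        intro v
        have h3 : s (s a x) (s a y) = s a z := by rw [← h.dist]
        have h4 : s (s a y) (s a x) = s a z := by rw [← h.dist, ← h1]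
        have h5 : s a x ≠ s a y := by
          intro h'
          apply hne
          rw [← h.inv a x, h', h.inv]
        have := hF.tr [] (s a x) (s a y) v (h3.trans h4.symm) h5
        rw [h3] at this
        exact this
      have e' := congrArg (fun G => L s eqv a G v) e
      simp only [map_add, map_zero, Pi.add_apply, Pi.zero_apply] at e'
      have k1 : eqv a x * F (y :: v) + eqv a x * F (s a z :: v) = 0 := by
        unfold eqv
        split_ifs with hx
        · rw [← hx, hxz, one_mul]
          have : ∀ p : ZMod 2, p + p = 0 := by decide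
          exact this _
        · simp
      have k2 : eqv a y * F (s a x :: v) + eqv a y * F (z :: v) = 0 := by
        unfold eqv
        split_ifs with hy
        · rw [← hy, ← h1, one_mul]
          have : ∀ p : ZMod 2, p + p = 0 := by decide
          exact this _
        · simp
      have k3 : eqv a z * F (s a y :: v) + eqv a z * F (x :: v) = 0 := by
        unfold eqv
        split_ifs with hy
        · rw [← hy, hzy, one_mul]
          have : ∀ p : ZMod 2, p + p = 0 := by decide
          exact this _
        · simp
      linear_combination e' + k1 + k2 + k3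
    | cons z u ih =>
      intro x y v h1 h2
      rw [List.cons_append, List.cons_append, List.cons_append, L_cons, L_cons, L_cons]
      have k1 := hF.tr u x y v h1 h2
      have k2 := ih _ (relF_cons hF (s a z)) x y v h1 h2
      linear_combination eqv a z * k1 + k2

theorem L_sqr {s : A → A → A} (h : Quan s) (a : A) (w : List A) :
    ∀ F : List A → ZMod 2, L s eqv a (L s eqv a F) w = 0 := by
  induction w with
  | nil => intro F; rfl
  | cons x w ih =>
    intro F
    rw [L_L_cons, ih, eqv_s h, h.idem]
    have : ∀ p : ZMod 2, p + p + 0 = 0 := by decide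
    exact this _

theorem L_sqr' {s : A → A → A} (h : Quan s) (a : A) (F : List A → ZMod 2) :
    L s eqv a (L s eqv a F) = 0 := funext fun w => L_sqr h a w F

theorem L_trg {s : A → A → A} (h : Quan s) (a b : A) (hab : s a b = s b a)
    (w : List A) : ∀ F : List A → ZMod 2,
    L s eqv a (L s eqv b F) w + L s eqv b (L s eqv (s a b) F) w +
      L s eqv (s a b) (L s eqv a F) w = 0 := by
  induction w with
  | nil => intro F; simp [L_nil]
  | cons x w ih =>
    intro F
    set c := s a b with hc
    have hac : s a c = b := h.inv a b
    have hbc : s b c = a := by rw [hab]; exact h.inv b a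
    have hca : s c a = b := by
      have := h.dist a b a
      rw [h.idem, ← hab, ← hc, hac] at this
      exact this.symm
    have d1 : ∀ y, s b (s a y) = s c (s b y) := by
      intro y; rw [h.dist b a y, ← hab]
    have d2 : ∀ y, s a (s c y) = s b (s a y) := by
      intro y; rw [h.dist a c y, hac]
    rw [L_L_cons, L_L_cons, L_L_cons, eqv_s h, eqv_s h, eqv_s h, hbc, hca, ← hc, d2, ← d1]
    have k := ih (fun v => F (s b (s a x) :: v))
    have dbl : ∀ p : ZMod 2, p + p = 0 := by decide
    linear_combination k + dbl (eqv a x * L s eqv b F w) + dbl (eqv c x * L s eqv a F w) +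
      dbl (eqv b x * L s eqv c F w)

theorem L_braid {s : A → A → A} (h : Quan s) (a b : A) (hab : s a b = s b a)
    (F : List A → ZMod 2) :
    L s eqv a (L s eqv b (L s eqv a F)) = L s eqv b (L s eqv a (L s eqv b F)) := by
  have h1 : ∀ G, L s eqv a (L s eqv b G) + L s eqv b (L s eqv (s a b) G) +
      L s eqv (s a b) (L s eqv a G) = 0 := fun G => funext fun w => L_trg h a b hab w G
  have h2 := h1 (L s eqv a F)
  have h3 := congrArg (L s eqv b) (h1 F)
  rw [map_add, map_add, map_zero, L_sqr' h b, add_zero] at h3
  rw [L_sqr' h a, map_zero, add_zero] at h2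
  funext w
  have h4 := congrFun h2 w
  have h5 := congrFun h3 w
  rw [Pi.add_apply, Pi.zero_apply] at h4 h5
  have h6 : ∀ p q r : ZMod 2, p + q = 0 → r + q = 0 → p = r := by decide
  exact h6 _ _ _ h4 h5

section Fold2

variable (s : A → A → A) (g : A → A) (r : B → A)

/-- the block of letters of a folded letter -/
def bk (b : B) : List A :=
  if g (r b) = r b then [r b] else
    if s (r b) (g (r b)) = g (r b) then [r b, g (r b)] else [r b, g (r b), r b]

/-- the operator of a folded letter -/
def LK (b : B) (F : List A → ZMod 2) : List A → ZMod 2 :=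
  if g (r b) = r b then L s eqv (r b) F else
    if s (r b) (g (r b)) = g (r b) then L s eqv (r b) (L s eqv (g (r b)) F) else
      L s eqv (r b) (L s eqv (g (r b)) (L s eqv (r b) F))

/-- the action of a folded letter -/
def gk (b : B) (y : A) : A :=
  if g (r b) = r b then s (r b) y else
    if s (r b) (g (r b)) = g (r b) then s (g (r b)) (s (r b) y) else
      s (s (r b) (g (r b))) y

/-- the hypotheses on the rack and the involution -/
structure FoldData : Prop where
  q : Quan s
  br : ∀ x y, s x y = y ∨ s x y = s y x
  gg : ∀ a, g (g a) = a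
  gs : ∀ a b, g (s a b) = s (g a) (g b)

variable {s g r}

omit [DecidableEq A] in
theorem FoldData.cm' (h : FoldData s g) {a : A} (ha : s a (g a) = g a) : s (g a) a = a := by
  have := congrArg g ha
  rw [h.gs, h.gg] at this
  exact this

omit [DecidableEq A] in
theorem FoldData.tr' (h : FoldData s g) {a : A} (ha : ¬ s a (g a) = g a) :
    s a (g a) = s (g a) a := (h.br a (g a)).resolve_left ha

omit [DecidableEq B] in
theorem bk1 {b : B} (h1 : g (r b) = r b) : bk s g r b = [r b] := by
  unfold bk; rw [if_pos h1]

omit [DecidableEq B] in
theorem bk2 {b : B} (h1 : ¬ g (r b) = r b) (h2 : s (r b) (g (r b)) = g (r b)) :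
    bk s g r b = [r b, g (r b)] := by
  unfold bk; rw [if_neg h1, if_pos h2]

omit [DecidableEq B] in
theorem bk3 {b : B} (h1 : ¬ g (r b) = r b) (h2 : ¬ s (r b) (g (r b)) = g (r b)) :
    bk s g r b = [r b, g (r b), r b] := by
  unfold bk; rw [if_neg h1, if_neg h2]

omit [DecidableEq B] in
theorem flat_sw (h : FoldData s g) {K : List A → ZMod 2} (hK : RelF s K)
    (w : List B) : ∀ u, K (u ++ (w.flatMap (bk s g r)).map g) =
      K (u ++ w.flatMap (bk s g r)) := by
  induction w with
  | nil => intro u; rfl
  | cons x w ih =>
    intro u
    rw [List.flatMap_cons, List.map_append]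
    by_cases hx : g (r x) = r x
    · rw [bk1 hx]
      simp only [List.map_cons, List.map_nil, hx]
      have := ih (u ++ [r x])
      simpa [List.append_assoc] using this
    · by_cases hc : s (r x) (g (r x)) = g (r x)
      · rw [bk2 hx hc]
        simp only [List.map_cons, List.map_nil, h.gg]
        have h1 := ih (u ++ [g (r x), r x])
        have h3 := hK.cm u (g (r x)) (r x) (w.flatMap (bk s g r)) (h.cm' hc) hc
        simp only [List.append_assoc, List.cons_append, List.nil_append] at h1 ⊢
        rw [h1, h3]
      · rw [bk3 hx hc]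
        simp only [List.map_cons, List.map_nil, h.gg]
        have h1 := ih (u ++ [g (r x), r x, g (r x)])
        have h3 := relF_braid hK u (g (r x)) (r x) (w.flatMap (bk s g r)) (h.tr' hc).symm hx
        simp only [List.append_assoc, List.cons_append, List.nil_append] at h1 ⊢
        rw [h1, h3]

omit [DecidableEq B] in
theorem ginv_bk (h : FoldData s g) {F : List A → ZMod 2} (hF : RelF s F)
    (hG : GInv g F) (c : B) : GInv g (fun v => F (bk s g r c ++ v)) := by
  intro w
  have h1 := hG (bk s g r c ++ w)
  rw [List.map_append] at h1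
  simp only
  rw [← h1]
  have := flat_sw (r := r) h (K := fun v => F (v ++ w.map g)) (by
    constructor
    · intro u x v
      have := hF.sq u x (v ++ w.map g)
      simpa [List.append_assoc] using this
    · intro u x y v h1 h2
      have := hF.cm u x y (v ++ w.map g) h1 h2
      simpa [List.append_assoc] using this
    · intro u x y v h1 h2
      have := hF.tr u x y (v ++ w.map g) h1 h2
      simpa [List.append_assoc] using this) [c] []
  simp only [List.flatMap_cons, List.flatMap_nil, List.append_nil, List.nil_append] at this
  exact this.symm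

omit [DecidableEq B] in
theorem g_gk (h : FoldData s g) (b : B) (y : A) :
    g (gk s g r b y) = gk s g r b (g y) := by
  unfold gk
  split_ifs with h1 h2
  · rw [h.gs, h1]
  · rw [h.gs, h.gs, h.gg, h.q.dist, h2]
  · rw [h.gs, h.gs, h.gg, ← h.tr' h2]

omit [DecidableEq B] in
theorem gk_inj (h : FoldData s g) (b : B) (y z : A) (hyz : gk s g r b y = gk s g r b z) :
    y = z := by
  have hs : ∀ a y z, s a y = s a z → y = z := by
    intro a y z h'
    rw [← h.q.inv a y, h', h.q.inv]
  unfold gk at hyz
  split_ifs at hyz
  · exact hs _ _ _ hyz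
  · exact hs _ _ _ (hs _ _ _ hyz)
  · exact hs _ _ _ hyz

omit [DecidableEq B] in
theorem s_gk (h : FoldData s g) (b : B) (y z : A) :
    s (gk s g r b y) (gk s g r b z) = gk s g r b (s y z) := by
  unfold gk
  split_ifs
  · rw [← h.q.dist]
  · rw [← h.q.dist, ← h.q.dist]
  · rw [← h.q.dist]

omit [DecidableEq B] in
theorem bk_act (h : FoldData s g) {F : List A → ZMod 2} (hF : RelF s F)
    (b x c : B) (hc : r c = gk s g r b (r x) ∨ r c = g (gk s g r b (r x))) (v : List A) :
    F ((bk s g r x).map (gk s g r b) ++ v) = F (bk s g r c ++ v) := by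
  set p := gk s g r b (r x) with hp
  have hgp : g p = gk s g r b (g (r x)) := g_gk h b (r x)
  have e1 : g p = p ↔ g (r x) = r x := by
    rw [hgp, hp]
    constructor
    · intro h'; exact gk_inj h b _ _ h'
    · intro h'; rw [h']
  have e2 : s p (g p) = g p ↔ s (r x) (g (r x)) = g (r x) := by
    rw [hgp, hp, s_gk h]
    constructor
    · intro h'; exact gk_inj h b _ _ h'
    · intro h'; rw [h']
  have e3 : s (g p) p = p ↔ s (r x) (g (r x)) = g (r x) := by
    rw [← e2]
    constructor
    · intro h'
      have := h.cm' (a := g p) (by rw [h.gg]; exact h')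
      rw [h.gg] at this; exact this
    · intro h'; exact h.cm' h'
  by_cases hx : g (r x) = r x
  · have hpp : g p = p := e1.2 hx
    rw [hpp, or_self] at hc
    rw [bk1 hx, bk1 (by rw [hc, hpp]), hc]; rfl
  · have hpp : ¬ g p = p := fun h' => hx (e1.1 h')
    by_cases hcm : s (r x) (g (r x)) = g (r x)
    · rw [bk2 hx hcm]
      rcases hc with hc | hc
      · rw [bk2 (by rw [hc]; exact hpp) (by rw [hc]; exact e2.2 hcm), hc, hgp]; rfl
      · have hgc : g (r c) = p := by rw [hc, h.gg]
        rw [bk2 (by rw [hgc, hc]; exact fun h' => hpp h'.symm)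
          (by rw [hgc, hc]; exact e3.2 hcm), hgc, hc]
        have h5 := hF.cm [] (g p) p v (e3.2 hcm) (e2.2 hcm)
        simp only [List.nil_append] at h5
        simp only [List.map_cons, List.map_nil, List.cons_append, List.nil_append]
        rw [h5, ← hp, ← hgp]
    · rw [bk3 hx hcm]
      rcases hc with hc | hc
      · rw [bk3 (by rw [hc]; exact hpp) (by rw [hc]; exact fun h' => hcm (e2.1 h')), hc, hgp]; rfl
      · have hgc : g (r c) = p := by rw [hc, h.gg]
        rw [bk3 (by rw [hgc, hc]; exact fun h' => hpp h'.symm)
          (by rw [hgc, hc]; exact fun h' => hcm (e3.1 h')), hgc, hc]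
        have h5 := relF_braid hF [] (g p) p v
          (h.tr' (a := p) (fun h' => hcm (e2.1 h'))).symm hpp
        simp only [List.nil_append] at h5
        simp only [List.map_cons, List.map_nil, List.cons_append, List.nil_append]
        rw [h5, ← hp, ← hgp]

omit [DecidableEq B] in
/-- letters different from those of the block pass through -/
theorem LK_pass (h : FoldData s g) (b : B) (F : List A → ZMod 2) (y : A) (v : List A)
    (h1 : y ≠ r b) (h2 : y ≠ g (r b)) :
    LK s g r b F (y :: v) = LK s g r b (fun v => F (gk s g r b y :: v)) v := by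
  unfold LK gk
  have n1 : eqv (r b) y = 0 := by unfold eqv; rw [if_neg h1]
  split_ifs with k1 k2
  · rw [L_cons, n1]; simp
  · rw [L_L_cons, n1, eqv_s h.q, k2]
    have : eqv (g (r b)) y = 0 := by unfold eqv; rw [if_neg h2]
    rw [this]; simp
  · set a := r b with ha
    have kt := h.tr' k2
    have hac : s a (s a (g a)) = g a := h.q.inv a (g a)
    have hy : s a (s (g a) (s a y)) = s (s a (g a)) y := by
      rw [h.q.dist a (g a) (s a y), h.q.inv]
    rw [L_cons, n1, zero_mul, zero_add]
    have e : (fun v => L s eqv (g a) (L s eqv a F) (s a y :: v)) =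
        eqv (s a (g a)) y • L s eqv a F +
          L s eqv (g a) (L s eqv a (fun v => F (s (s a (g a)) y :: v))) := by
      funext v
      rw [L_L_cons, eqv_s h.q, eqv_s h.q, eqv_s h.q, ← kt, hac, hy]
      have : eqv (g a) y = 0 := by unfold eqv; rw [if_neg h2]
      rw [this]
      simp
    rw [e, map_add, map_smul, L_sqr' h.q]
    simp

omit [DecidableEq B] in
theorem key_swap (h : FoldData s g) {F : List A → ZMod 2} (hF : RelF s F) (hG : GInv g F)
    (a : A) (w : List B) :
    L s eqv (g a) (fun v => F (g a :: v)) (w.flatMap (bk s g r)) =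
      L s eqv a (fun v => F (a :: v)) (w.flatMap (bk s g r)) := by
  have k1 := flat_sw (r := r) h (relF_L h.q a _ (relF_cons hF a)) w []
  simp only [List.nil_append] at k1
  rw [L_g g h.gg h.gs] at k1
  rw [← k1]
  have k2 : (fun v : List A => F (a :: v.map g)) = fun v => F (g a :: v) := by
    funext v
    have := hG (g a :: v)
    rw [List.map_cons, h.gg] at this
    exact this
  rw [k2]

omit [DecidableEq B] in
theorem key_swap2 (h : FoldData s g) {F : List A → ZMod 2} (hF : RelF s F) (hG : GInv g F)
    (a c : A) (hc : g c = c) (w : List B) :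
    L s eqv (g a) (L s eqv a (fun v => F (a :: c :: v))) (w.flatMap (bk s g r)) =
      L s eqv a (L s eqv (g a) (fun v => F (g a :: c :: v))) (w.flatMap (bk s g r)) := by
  have k1 := flat_sw (r := r) h (relF_L h.q (g a) _ (relF_L h.q a _
    (relF_append hF [a, c]))) w []
  simp only [List.nil_append, List.cons_append] at k1
  rw [L_g g h.gg h.gs] at k1
  rw [← k1, h.gg]
  have k2 : (fun v : List A => L s eqv a (fun v => F (a :: c :: v)) (v.map g)) =
      L s eqv (g a) (fun v => F (g a :: c :: v)) := by
    funext v
    rw [L_g g h.gg h.gs]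
    have k3 : (fun v : List A => F (a :: c :: v.map g)) = fun v => F (g a :: c :: v) := by
      funext v
      have := hG (g a :: c :: v)
      rw [List.map_cons, List.map_cons, h.gg, hc] at this
      exact this
    rw [k3]
  rw [k2]

omit [DecidableEq B] in
theorem LK_self (h : FoldData s g) {F : List A → ZMod 2} (hF : RelF s F) (hG : GInv g F)
    (b : B) (w : List B) :
    LK s g r b F (bk s g r b ++ w.flatMap (bk s g r)) = F (w.flatMap (bk s g r)) +
      LK s g r b (fun v => F ((bk s g r b).map (gk s g r b) ++ v)) (w.flatMap (bk s g r)) := by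
  set w' := w.flatMap (bk s g r) with hw'
  set a := r b with ha
  by_cases h1 : g a = a
  · have e1 : bk s g r b = [a] := bk1 h1
    have e2 : ∀ G, LK s g r b G = L s eqv a G := by intro G; unfold LK; rw [if_pos h1]
    have e3 : gk s g r b a = a := by unfold gk; rw [if_pos h1]; exact h.q.idem a
    rw [e1, e2, e2]
    simp only [List.map_cons, List.map_nil, List.cons_append, List.nil_append, e3]
    rw [L_cons, h.q.idem]
    simp [eqv]
  · by_cases h2 : s a (g a) = g a
    · have h2' := h.cm' h2
      have e1 : bk s g r b = [a, g a] := bk2 h1 h2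
      have e2 : ∀ G, LK s g r b G = L s eqv a (L s eqv (g a) G) := by
        intro G; unfold LK; rw [if_neg h1, if_pos h2]
      have e3 : gk s g r b a = a := by
        unfold gk; rw [if_neg h1, if_pos h2, ← ha, h.q.idem, h2']
      have e4 : gk s g r b (g a) = g a := by
        unfold gk; rw [if_neg h1, if_pos h2, ← ha, h2, h.q.idem]
      rw [e1, e2, e2]
      simp only [List.map_cons, List.map_nil, List.cons_append, List.nil_append, e3, e4]
      rw [L_L_cons, L_L_cons]
      have q1 : eqv a a = 1 := by unfold eqv; simp
      have q2 : eqv (g a) (s a a) = 0 := by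
        rw [h.q.idem]; unfold eqv; rw [if_neg (fun h' => h1 h'.symm)]
      have q3 : eqv a (g a) = 0 := by unfold eqv; rw [if_neg h1]
      have q4 : eqv (g a) (s a (g a)) = 1 := by rw [h2]; unfold eqv; simp
      have q5 : s (g a) (s a a) = a := by rw [h.q.idem, h2']
      have q6 : s (g a) (s a (g a)) = g a := by rw [h2, h.q.idem]
      have q7 : eqv (g a) (g a) = 1 := by unfold eqv; simp
      have q8 : s (g a) (g a) = g a := h.q.idem _
      rw [q1, q2, q3, q4, q5, q6, L_cons, q7, q8, key_swap h hF hG a w]
      have : ∀ p q t : ZMod 2, 1 * (1 * p + q) + 0 + (0 + 1 * q + t) = p + t := by decide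
      simp only [zero_mul]
      exact this _ _ _
    · have h3 := h.tr' h2
      set c := s a (g a) with hc
      have hgc : g c = c := by rw [hc, h.gs, h.gg, ← h3]
      have hac : s a c = g a := h.q.inv a (g a)
      have hbc : s (g a) c = a := by rw [h3]; exact h.q.inv (g a) a
      have hca : s c a = g a := by
        have := h.q.dist a (g a) a
        rw [h.q.idem, ← h3, ← hc, hac] at this
        exact this.symm
      have hcb : s c (g a) = a := by
        have := h.q.dist (g a) a (g a)
        rw [h.q.idem, ← h3, ← hc, hbc] at this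
        exact this.symm
      have hca' : c ≠ a := by
        intro h'
        apply h1
        rw [h', h.q.idem] at hac
        exact hac.symm
      have hcb' : c ≠ g a := by
        intro h'
        rw [h', h.q.idem] at hbc
        exact h1 hbc
      have e1 : bk s g r b = [a, g a, a] := bk3 h1 h2
      have e2 : ∀ G, LK s g r b G = L s eqv a (L s eqv (g a) (L s eqv a G)) := by
        intro G; unfold LK; rw [if_neg h1, if_neg h2]
      have e3 : gk s g r b a = g a := by
        unfold gk; rw [if_neg h1, if_neg h2, ← ha, ← hc, hca]
      have e4 : gk s g r b (g a) = a := by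
        unfold gk; rw [if_neg h1, if_neg h2, ← ha, ← hc, hcb]
      rw [e1, e2, e2]
      simp only [List.map_cons, List.map_nil, List.cons_append, List.nil_append, e3, e4]
      have q1 : eqv a a = 1 := by unfold eqv; simp
      have q2 : eqv (g a) (g a) = 1 := by unfold eqv; simp
      have q3 : eqv a (g a) = 0 := by unfold eqv; rw [if_neg h1]
      have q4 : eqv (g a) a = 0 := by unfold eqv; rw [if_neg (fun h' => h1 h'.symm)]
      have q5 : eqv a c = 0 := by unfold eqv; rw [if_neg hca']
      have q6 : eqv (g a) c = 0 := by unfold eqv; rw [if_neg hcb']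
      have ia : s a a = a := h.q.idem a
      have ib : s (g a) (g a) = g a := h.q.idem (g a)
      have hba : s (g a) a = c := h3.symm
      -- first letter `a`
      have pa : ∀ (G : List A → ZMod 2) (u : List A),
          L s eqv a (L s eqv (g a) (L s eqv a G)) (a :: u) =
            L s eqv (g a) (L s eqv a G) u +
              L s eqv a (L s eqv (g a) (L s eqv a (fun v => G (g a :: v)))) u := by
        intro G u
        rw [L_L_cons, q1, ia, q4, hba]
        have : (fun v => L s eqv a G (c :: v)) = L s eqv a (fun v => G (g a :: v)) := by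
          funext v; rw [L_cons, q5, hac]; simp
        rw [this]; ring
      have pb : ∀ (G : List A → ZMod 2) (u : List A),
          L s eqv a (L s eqv (g a) (L s eqv a G)) (g a :: u) =
            L s eqv a (L s eqv (g a) G) u +
              L s eqv a (L s eqv (g a) (L s eqv a (fun v => G (a :: v)))) u := by
        intro G u
        rw [L_L_cons, q3, ← hc, q6, hbc]
        have : (fun v => L s eqv a G (a :: v)) = G + L s eqv a (fun v => G (a :: v)) := by
          funext v; rw [L_cons, q1, ia]; simp
        rw [this, map_add, map_add, Pi.add_apply]; ring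
      have ba : ∀ (G : List A → ZMod 2) (u : List A),
          L s eqv (g a) (L s eqv a G) (a :: u) =
            L s eqv (g a) (L s eqv a (fun v => G (g a :: v))) u := by
        intro G u
        rw [L_L_cons, q4, hba, q5, hac]; ring
      have bb : ∀ (G : List A → ZMod 2) (u : List A),
          L s eqv (g a) (L s eqv a G) (g a :: u) = L s eqv a G u +
            L s eqv (g a) (L s eqv a (fun v => G (c :: v))) u := by
        intro G u
        rw [L_L_cons, q2, ib, q3, ← hc]; ring
      have ab : ∀ (G : List A → ZMod 2) (u : List A),
          L s eqv a (L s eqv (g a) G) (a :: u) = L s eqv (g a) G u +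
            L s eqv a (L s eqv (g a) (fun v => G (c :: v))) u := by
        intro G u
        rw [L_L_cons, q1, ia, q4, hba]; ring
      rw [pa, bb, L_cons, q1, ia, ba, pb, ab, pa]
      have t1 : L s eqv (g a) (L s eqv a (fun v => F (c :: g a :: v))) w' +
          L s eqv (g a) (L s eqv a (fun v => F (g a :: a :: v))) w' =
          L s eqv (g a) (L s eqv a (fun v => F (a :: c :: v))) w' := by
        have t2 : (fun v => F (c :: g a :: v)) + (fun v => F (g a :: a :: v)) =
            (fun v => F (a :: c :: v)) := by
          funext v
          have := hF.tr [] (g a) a v h3.symm h1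
          rw [hba] at this
          simp only [List.nil_append] at this
          rw [Pi.add_apply]
          have t3 : ∀ p q t : ZMod 2, p + q + t = 0 → t + p = q := by decide
          exact t3 _ _ _ this
        rw [← t2, map_add, map_add, Pi.add_apply]
      have t4 := key_swap (r := r) h hF hG a w
      have t5 := key_swap2 (r := r) h hF hG a c hgc w
      rw [← hw'] at t4 t5
      rw [t5] at t1
      have dbl : ∀ p : ZMod 2, p + p = 0 := by decide
      linear_combination t1 + t4 + dbl (L s eqv a (fun v => F (a :: v)) w') +
        dbl (L s eqv a (L s eqv (g a) (fun v => F (g a :: c :: v))) w')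

theorem LK_block (h : FoldData s g)
    (hinj : ∀ b x : B, r x = r b ∨ r x = g (r b) → x = b)
    {F : List A → ZMod 2} (hF : RelF s F) (hG : GInv g F) (b x : B) (w : List B) :
    LK s g r b F (bk s g r x ++ w.flatMap (bk s g r)) = eqv b x * F (w.flatMap (bk s g r)) +
      LK s g r b (fun v => F ((bk s g r x).map (gk s g r b) ++ v)) (w.flatMap (bk s g r)) := by
  by_cases hxb : x = b
  · subst hxb
    rw [LK_self h hF hG]
    simp [eqv]
  · have n0 : eqv b x = 0 := by unfold eqv; rw [if_neg hxb]
    have n1 : r x ≠ r b := fun h' => hxb (hinj b x (Or.inl h'))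
    have n2 : r x ≠ g (r b) := fun h' => hxb (hinj b x (Or.inr h'))
    have n3 : g (r x) ≠ r b := by
      intro h'; apply n2; rw [← h', h.gg]
    have n4 : g (r x) ≠ g (r b) := by
      intro h'; apply n1; rw [← h.gg (r x), h', h.gg]
    rw [n0, zero_mul, zero_add]
    by_cases hx : g (r x) = r x
    · rw [bk1 hx]
      simp only [List.map_cons, List.map_nil, List.cons_append, List.nil_append]
      rw [LK_pass h b F _ _ n1 n2]
    · by_cases hc : s (r x) (g (r x)) = g (r x)
      · rw [bk2 hx hc]
        simp only [List.map_cons, List.map_nil, List.cons_append, List.nil_append]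
        rw [LK_pass h b F _ _ n1 n2, LK_pass h b _ _ _ n3 n4]
      · rw [bk3 hx hc]
        simp only [List.map_cons, List.map_nil, List.cons_append, List.nil_append]
        rw [LK_pass h b F _ _ n1 n2, LK_pass h b _ _ _ n3 n4, LK_pass h b _ _ _ n1 n2]

theorem LK_fold (s' : B → B → B) (h : FoldData s g)
    (hinj : ∀ b x : B, r x = r b ∨ r x = g (r b) → x = b)
    (hact : ∀ b x : B, r (s' b x) = gk s g r b (r x) ∨ r (s' b x) = g (gk s g r b (r x)))
    (b : B) (w : List B) : ∀ (F : List A → ZMod 2) (_ : RelF s F) (_ : GInv g F),
    LK s g r b F (w.flatMap (bk s g r)) =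
      L s' eqv b (fun v => F (v.flatMap (bk s g r))) w := by
  induction w with
  | nil =>
    intro F _ _
    rw [L_nil, List.flatMap_nil]
    unfold LK
    split_ifs <;> rfl
  | cons x w ih =>
    intro F hF hG
    rw [List.flatMap_cons, LK_block h hinj hF hG, L_cons]
    have e1 : (fun v => F ((bk s g r x).map (gk s g r b) ++ v)) =
        fun v => F (bk s g r (s' b x) ++ v) := by
      funext v
      exact bk_act h hF b x (s' b x) (hact b x) v
    rw [e1, ih _ (relF_append hF _) (ginv_bk h hF hG _)]
    simp only [List.flatMap_cons]

omit [DecidableEq B] in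
theorem relF_LK (h : FoldData s g) {F : List A → ZMod 2} (hF : RelF s F) (b : B) :
    RelF s (LK s g r b F) := by
  unfold LK
  split_ifs
  · exact relF_L h.q _ _ hF
  · exact relF_L h.q _ _ (relF_L h.q _ _ hF)
  · exact relF_L h.q _ _ (relF_L h.q _ _ (relF_L h.q _ _ hF))

omit [DecidableEq B] in
theorem ginv_LK (h : FoldData s g) {F : List A → ZMod 2} (hG : GInv g F) (b : B) :
    GInv g (LK s g r b F) := by
  have h1 : (fun v : List A => F (v.map g)) = F := funext hG
  have h2 : ∀ a, (fun v : List A => L s eqv a F (v.map g)) = L s eqv (g a) F := by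
    intro a
    funext v
    rw [L_g g h.gg h.gs, h1]
  have h3 : ∀ a b, (fun v : List A => L s eqv a (L s eqv b F) (v.map g)) =
      L s eqv (g a) (L s eqv (g b) F) := by
    intro a b
    funext v
    rw [L_g g h.gg h.gs, h2]
  intro w
  unfold LK
  split_ifs with k1 k2
  · rw [L_g g h.gg h.gs, h1, k1]
  · rw [L_g g h.gg h.gs, h2, h.gg]
    exact L_comm h.q _ _ (h.cm' k2) k2 w F
  · rw [L_g g h.gg h.gs, h3, h.gg]
    rw [L_braid h.q _ _ (h.tr' k2).symm]

omit [DecidableEq A] in
theorem relF_dl : RelF s (dl A (ZMod 2)) where
  sq u x v := by cases u <;> rfl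
  cm u x y v _ _ := by cases u <;> rfl
  tr u x y v _ _ := by cases u <;> rfl

theorem fold_word2 (s' : B → B → B) (h : FoldData s g)
    (hinj : ∀ b x : B, r x = r b ∨ r x = g (r b) → x = b)
    (hact : ∀ b x : B, r (s' b x) = gk s g r b (r x) ∨ r (s' b x) = g (gk s g r b (r x)))
    (u : List B) :
    RelF s (Lw s eqv (u.flatMap (bk s g r)) (dl A (ZMod 2))) ∧
    GInv g (Lw s eqv (u.flatMap (bk s g r)) (dl A (ZMod 2))) ∧
    ∀ w : List B, Lw s eqv (u.flatMap (bk s g r)) (dl A (ZMod 2)) (w.flatMap (bk s g r)) =
      Lw s' eqv u (dl B (ZMod 2)) w := by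
  induction u with
  | nil =>
    refine ⟨relF_dl, ?_, ?_⟩
    · intro w; cases w <;> rfl
    · intro w
      cases w with
      | nil => rfl
      | cons x w =>
        rw [List.flatMap_cons]
        unfold bk
        split_ifs <;> rfl
  | cons b u ih =>
    obtain ⟨h1, h2, h3⟩ := ih
    have e : Lw s eqv ((b :: u).flatMap (bk s g r)) (dl A (ZMod 2)) =
        LK s g r b (Lw s eqv (u.flatMap (bk s g r)) (dl A (ZMod 2))) := by
      rw [List.flatMap_cons, Lw_append]
      unfold LK bk
      split_ifs <;> rfl
    rw [e]
    refine ⟨relF_LK h h1 b, ginv_LK h h2 b, ?_⟩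
    intro w
    rw [LK_fold s' h hinj hact b w _ h1 h2, Lw_cons]
    have : (fun v => Lw s eqv (u.flatMap (bk s g r)) (dl A (ZMod 2)) (v.flatMap (bk s g r))) =
        Lw s' eqv u (dl B (ZMod 2)) := funext h3
    rw [this]

end Fold2

end Pool.Agent.H85.FK
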