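import Pool.Agent.H85.FK.NineOps

/-!
From five nodes with an auxiliary letter to the star with four legs, and unboundedly long
nonvanishing iterated deletions for the rack with nine letters.
-/

namespace Pool.Agent.H85.FK

/-- evaluation at words in which the letter `4` stands for a commutator -/
def ev5 : List (Fin 5) → (List (Fin 5) → ZMod 2) → ZMod 2
  | [], v => v []
  | x :: u, v => ev5 u (fun w => if x = 4 then v (2 :: 4 :: w) + v (4 :: 2 :: w) else v (x :: w))

/-- removing a letter -/
def f5 (x : Fin 5) (v : List (Fin 5) → ZMod 2) : List (Fin 5) → ZMod 2 :=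
  fun w => if x = 4 then v (2 :: 4 :: w) + v (4 :: 2 :: w) else v (x :: w)

theorem ev5_cons (x : Fin 5) (u : List (Fin 5)) (v : List (Fin 5) → ZMod 2) :
    ev5 (x :: u) v = ev5 u (f5 x v) := rfl

theorem ev5_add (u : List (Fin 5)) : ∀ v w : List (Fin 5) → ZMod 2,
    ev5 u (fun x => v x + w x) = ev5 u v + ev5 u w := by
  induction u with
  | nil => intro v w; rfl
  | cons x u ih =>
    intro v w
    rw [ev5_cons, ev5_cons, ev5_cons, ← ih]
    congr 1
    funext y
    unfold f5
    split_ifs <;> ring

theorem ev5_smul (u : List (Fin 5)) : ∀ (c : ZMod 2) (v : List (Fin 5) → ZMod 2),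
    ev5 u (fun x => c * v x) = c * ev5 u v := by
  induction u with
  | nil => intro c v; rfl
  | cons x u ih =>
    intro c v
    rw [ev5_cons, ev5_cons, ← ih]
    congr 1
    funext y
    unfold f5
    split_ifs <;> ring

theorem mc5 (i x : Fin 5) (hi : i ≠ 4) :
    (if x = 4 then Mn i 2 + Mn i 4 else Mn i x) = M5 i x := by
  revert i x; decide

theorem ev5_mc (i : Fin 5) (hi : i ≠ 4) (u : List (Fin 5)) :
    ∀ (a : ZMod 2) (v : List (Fin 5) → ZMod 2),
    ev5 u (fun w => (a + mc Mn i w) * v w) = (a + mc M5 i u) * ev5 u v := by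
  induction u with
  | nil => intro a v; rfl
  | cons x u ih =>
    intro a v
    rw [ev5_cons, ev5_cons]
    have e : f5 x (fun w => (a + mc Mn i w) * v w) =
        fun w => ((a + M5 i x) + mc Mn i w) * f5 x v w := by
      funext w
      rw [← mc5 i x hi]
      unfold f5
      split_ifs with h
      · simp only [mc]; ring
      · simp only [mc]; ring
    rw [e, ih]
    simp only [mc]
    ring

theorem ev5_D (i : Fin 5) (hi : i ≠ 4) (u : List (Fin 5)) : ∀ v : List (Fin 5) → ZMod 2,
    ev5 u (fun w => Dg Mn i w v) = Dg M5 i u (fun w => ev5 w v) := by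
  induction u with
  | nil => intro v; rfl
  | cons x u ih =>
    intro v
    rw [ev5_cons]
    have e : f5 x (fun w => Dg Mn i w v) =
        fun w => (if x = i then 1 else 0) * ((0 + mc Mn i w) * v w) + Dg Mn i w (f5 x v) := by
      funext w
      unfold f5
      by_cases hx : x = 4
      · subst hx
        have h4 : ¬ (4 : Fin 5) = i := fun h => hi h.symm
        simp only [if_true, h4, if_false, zero_mul, zero_add]
        rw [Dg_add]
        simp only [Dg, h4, if_false, mc]
        by_cases h2 : (2 : Fin 5) = i
        · subst h2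
          have h3 : Mn 2 4 = 0 := by decide
          simp only [h3, if_true]
          have dbl : ∀ p : ZMod 2, p + p = 0 := by decide
          linear_combination dbl (mc Mn 2 w * v (4 :: w))
        · simp only [h2, if_false]; ring
      · simp only [hx, if_false, Dg]
        split_ifs <;> ring
    rw [e, ev5_add, ev5_smul, ev5_mc i hi, ih]
    simp only [Dg, ev5_cons]
    split_ifs <;> ring

theorem dg_add (i : Fin 5) (w : List (Fin 5)) : ∀ v v' : List (Fin 5) → ZMod 2,
    dg i w (fun u => v u + v' u) = dg i w v + dg i w v' := by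
  induction w with
  | nil => intro v v'; simp [dg]
  | cons j w ih => intro v v'; simp only [dg]; rw [ih]; ring

theorem DY_add (w : List (Fin 5)) : ∀ v v' : List (Fin 5) → ZMod 2,
    DY w (fun u => v u + v' u) = DY w v + DY w v' := by
  induction w with
  | nil => intro v v'; simp [DY]
  | cons j w ih => intro v v'; simp only [DY]; rw [ih, dg_add]; ring

theorem ev5_zero (u : List (Fin 5)) : ev5 u (fun _ => 0) = 0 := by
  have := ev5_smul u 0 (fun _ => 0)
  simpa using this

theorem ev5_dg (u : List (Fin 5)) : ∀ v : List (Fin 5) → ZMod 2,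
    ev5 u (fun w => dg 4 w v) = 0 := by
  induction u with
  | nil => intro v; rfl
  | cons x u ih =>
    intro v
    rw [ev5_cons]
    have e : f5 x (fun w => dg 4 w v) = fun w => dg 4 w (f5 x v) := by
      funext w
      unfold f5
      by_cases hx : x = 4
      · subst hx
        simp only [if_true]
        rw [dg_add]
        have h2 : ¬ (2 : Fin 5) = 4 := by decide
        simp only [dg, h2, if_false, if_true]
        have dbl : ∀ p : ZMod 2, p + p = 0 := by decide
        linear_combination dbl (v (2 :: w))
      · simp only [hx, if_false, dg]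
        ring
    rw [e, ih]

theorem ev5_DY (u : List (Fin 5)) : ∀ v : List (Fin 5) → ZMod 2,
    ev5 u (fun w => DY w v) = Dg M5 4 u (fun w => ev5 w v) := by
  induction u with
  | nil => intro v; rfl
  | cons x u ih =>
    intro v
    have hm : ∀ u, mc M5 4 u = mc M5 2 u := by
      intro u
      induction u with
      | nil => rfl
      | cons y u ih =>
        simp only [mc, ih]
        have : M5 4 y = M5 2 y := by revert y; decide
        rw [this]
    rw [ev5_cons]
    have e : f5 x (fun w => DY w v) =
        fun w => ((if x = 4 then 1 else 0) * ((0 + mc Mn 2 w) * v w) + DY w (f5 x v)) +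
          (if x = 2 then 1 else 0) * ((0 + mc Mn 2 w) * dg 4 w v) := by
      funext w
      unfold f5
      by_cases hx : x = 4
      · subst hx
        have h2 : ¬ (2 : Fin 5) = 4 := by decide
        have h4 : ¬ (4 : Fin 5) = 2 := by decide
        have h3 : Mn 2 4 = 0 := by decide
        simp only [if_true, h4, if_false]
        rw [DY_add]
        simp only [DY, dg, h2, h4, if_true, if_false, mc, h3]
        have dbl : ∀ p : ZMod 2, p + p = 0 := by decide
        linear_combination dbl (mc Mn 2 w * dg 4 w (fun u => v (4 :: u)))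
      · simp only [hx, if_false, DY]
        split_ifs <;> ring
    rw [e, ev5_add, ev5_add, ev5_smul, ev5_smul, ev5_mc 2 (by decide), ev5_mc 2 (by decide), ih,
      ev5_dg]
    simp only [Dg, ev5_cons, hm]
    split_ifs <;> ring

/-- node operators as functions -/
def DN (i : Fin 5) (v : List (Fin 5) → ZMod 2) : List (Fin 5) → ZMod 2 := fun u => Dg Mn i u v

/-- composite node operator as a function -/
def DNY (v : List (Fin 5) → ZMod 2) : List (Fin 5) → ZMod 2 := fun u => DY u v

/-- the sequence of node functions -/
def vn : ℕ → List (Fin 5) → ZMod 2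
  | 0 => fun u => if u = [1] then 1 else 0
  | m + 1 => DN 1 (DN 0 (DN 2 (DN 3 (DNY (DN 0 (vn m))))))

theorem ev5_len (u : List (Fin 5)) : ∀ v : List (Fin 5) → ZMod 2,
    (∀ w, u.length ≤ w.length → v w = 0) → ev5 u v = 0 := by
  induction u with
  | nil => intro v h; exact h [] le_rfl
  | cons x u ih =>
    intro v h
    rw [ev5_cons]
    apply ih
    intro w hw
    unfold f5
    split_ifs
    · rw [h _ (by simp only [List.length_cons]; omega), h _ (by simp only [List.length_cons]; omega),
        add_zero]
    · exact h _ (by simp only [List.length_cons]; omega)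

theorem ev5_vn0 (u : List (Fin 5)) : ev5 u (vn 0) = ws 0 u := by
  match u with
  | [] => rfl
  | [x] =>
    show ev5 [] (f5 x (vn 0)) = ws 0 [x]
    show f5 x (vn 0) [] = ws 0 [x]
    unfold f5
    revert x; decide
  | x :: y :: u =>
    rw [ev5_len]
    · simp [ws]
    · intro w hw
      simp only [List.length_cons] at hw
      have : w ≠ [1] := by rintro rfl; simp at hw
      simp [vn, this]

theorem ev5_DN (i : Fin 5) (hi : i ≠ 4) (v : List (Fin 5) → ZMod 2) :
    (fun u => ev5 u (DN i v)) = DD i (fun u => ev5 u v) := funext fun u => ev5_D i hi u v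

theorem ev5_DNY (v : List (Fin 5) → ZMod 2) :
    (fun u => ev5 u (DNY v)) = DD 4 (fun u => ev5 u v) := funext fun u => ev5_DY u v

theorem ev5_vn (m : ℕ) : (fun u => ev5 u (vn m)) = ws m := by
  induction m with
  | zero => exact funext ev5_vn0
  | succ m ih =>
    show (fun u => ev5 u (DN 1 (DN 0 (DN 2 (DN 3 (DNY (DN 0 (vn m)))))))) =
      DD 1 (DD 0 (DD 2 (DD 3 (DD 4 (DD 0 (ws m))))))
    rw [ev5_DN 1 (by decide), ev5_DN 0 (by decide), ev5_DN 2 (by decide), ev5_DN 3 (by decide),
      ev5_DNY, ev5_DN 0 (by decide), ih]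

theorem vn_ne_zero (m : ℕ) : vn m ≠ 0 := by
  intro h
  apply ws_ne_zero m
  rw [← ev5_vn, h]
  funext u
  exact ev5_zero u

/-- support in words with exactly `k` letters `3` -/
def Cb (k : ℕ) (v : List (Fin 5) → ZMod 2) : Prop := ∀ u, v u ≠ 0 → u.count 3 = k

theorem cb_D (i : Fin 5) (u : List (Fin 5)) : ∀ (k : ℕ) (v : List (Fin 5) → ZMod 2), Cb k v →
    Dg Mn i u v ≠ 0 → u.count 3 = k + if i = 3 then 1 else 0 := by
  induction u with
  | nil => intro k v _ h; exact absurd rfl h
  | cons x u ih =>
    intro k v hv h
    simp only [Dg] at h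
    by_cases h1 : (if x = i then mc Mn i u else 0) * v u = 0
    · rw [h1, zero_add] at h
      by_cases hx : x = 3
      · subst hx
        rcases k with _ | k
        · exfalso
          apply h
          have : (fun w => v (3 :: w)) = 0 := by
            funext w
            by_contra h2
            have := hv _ h2
            simp at this
          rw [this]
          clear h h1 ih this
          induction u with
          | nil => rfl
          | cons y u ih =>
            have e : (fun w => (0 : List (Fin 5) → ZMod 2) (y :: w)) = 0 := rfl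
            simp only [Dg]
            rw [e, ih]
            simp
        · have := ih k (fun w => v (3 :: w)) (by
            intro w hw
            have := hv _ hw
            simpa using this) h
          rw [List.count_cons_self, this]
          omega
      · have := ih k (fun w => v (x :: w)) (by
          intro w hw
          have := hv _ hw
          rwa [List.count_cons_of_ne hx] at this) h
        rw [List.count_cons_of_ne hx, this]
    · have h2 : x = i := by
        by_contra h3
        rw [if_neg h3, zero_mul] at h1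
        exact h1 rfl
      have h3 : v u ≠ 0 := by
        intro h4
        rw [h4, mul_zero] at h1
        exact h1 rfl
      have h4 := hv u h3
      rw [List.count_cons, h4, h2]
      simp

theorem cb_DN (i : Fin 5) (k : ℕ) (v : List (Fin 5) → ZMod 2) (hv : Cb k v) :
    Cb (k + if i = 3 then 1 else 0) (DN i v) := fun u h => cb_D i u k v hv h

theorem cb_dg (u : List (Fin 5)) : ∀ (k : ℕ) (v : List (Fin 5) → ZMod 2), Cb k v →
    dg 4 u v ≠ 0 → u.count 3 = k := by
  induction u with
  | nil => intro k v _ h; exact absurd rfl h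
  | cons x u ih =>
    intro k v hv h
    simp only [dg] at h
    by_cases h1 : (if x = 4 then 1 else 0) * v u = 0
    · rw [h1, zero_add] at h
      by_cases hx : x = 3
      · subst hx
        rcases k with _ | k
        · exfalso
          apply h
          have : (fun w => v (3 :: w)) = 0 := by
            funext w
            by_contra h2
            have := hv _ h2
            simp at this
          rw [this]
          clear h h1 ih this
          induction u with
          | nil => rfl
          | cons y u ih =>
            have e : (fun w => (0 : List (Fin 5) → ZMod 2) (y :: w)) = 0 := rfl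
            simp only [dg]
            rw [e, ih]
            simp
        · have := ih k (fun w => v (3 :: w)) (by
            intro w hw
            have := hv _ hw
            simpa using this) h
          rw [List.count_cons_self, this]
      · have := ih k (fun w => v (x :: w)) (by
          intro w hw
          have := hv _ hw
          rwa [List.count_cons_of_ne hx] at this) h
        rw [List.count_cons_of_ne hx, this]
    · have h2 : x = 4 := by
        by_contra h3
        rw [if_neg h3, zero_mul] at h1
        exact h1 rfl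
      have h3 : v u ≠ 0 := by
        intro h4
        rw [h4, mul_zero] at h1
        exact h1 rfl
      have h4 := hv u h3
      rw [h2, List.count_cons_of_ne (by decide), h4]

theorem cb_DY (u : List (Fin 5)) : ∀ (k : ℕ) (v : List (Fin 5) → ZMod 2), Cb k v →
    DY u v ≠ 0 → u.count 3 = k := by
  induction u with
  | nil => intro k v _ h; exact absurd rfl h
  | cons x u ih =>
    intro k v hv h
    simp only [DY] at h
    by_cases h1 : (if x = 2 then mc Mn 2 u else 0) * dg 4 u v = 0
    · rw [h1, zero_add] at h
      by_cases hx : x = 3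
      · subst hx
        rcases k with _ | k
        · exfalso
          apply h
          have : (fun w => v (3 :: w)) = 0 := by
            funext w
            by_contra h2
            have := hv _ h2
            simp at this
          rw [this]
          clear h h1 ih this
          induction u with
          | nil => rfl
          | cons y u ih =>
            have e : (fun w => (0 : List (Fin 5) → ZMod 2) (y :: w)) = 0 := rfl
            simp only [DY]
            rw [e, ih]
            have h0 : dg 4 u (0 : List (Fin 5) → ZMod 2) = 0 := by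
              clear ih e
              induction u with
              | nil => rfl
              | cons y u ih =>
                have e : (fun w => (0 : List (Fin 5) → ZMod 2) (y :: w)) = 0 := rfl
                simp only [dg]
                rw [e, ih]
                simp
            rw [h0]
            simp
        · have := ih k (fun w => v (3 :: w)) (by
            intro w hw
            have := hv _ hw
            simpa using this) h
          rw [List.count_cons_self, this]
      · have := ih k (fun w => v (x :: w)) (by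
          intro w hw
          have := hv _ hw
          rwa [List.count_cons_of_ne hx] at this) h
        rw [List.count_cons_of_ne hx, this]
    · have h2 : x = 2 := by
        by_contra h3
        rw [if_neg h3, zero_mul] at h1
        exact h1 rfl
      have h3 : dg 4 u v ≠ 0 := by
        intro h4
        rw [h4, mul_zero] at h1
        exact h1 rfl
      have h4 := cb_dg u k v hv h3
      rw [h2, List.count_cons_of_ne (by decide), h4]

theorem cb_vn (m : ℕ) : Cb m (vn m) := by
  induction m with
  | zero =>
    intro u h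
    have : u = [1] := by
      by_contra h2
      apply h
      simp [vn, h2]
    rw [this]; rfl
  | succ m ih =>
    have h1 := cb_DN 0 m _ ih
    have h2 : Cb m (DNY (DN 0 (vn m))) := fun u h => cb_DY u m _ h1 h
    have h3 := cb_DN 3 m _ h2
    have h4 := cb_DN 2 (m + 1) _ h3
    have h5 := cb_DN 0 (m + 1) _ h4
    have h6 := cb_DN 1 (m + 1) _ h5
    exact h6

/-- the letters used -/
def E6 : Set A9 := {A9.l 0, A9.l 1, A9.s 0, A9.z 0 0, A9.z 1 0, A9.q}

/-- the sequence of functions on words -/
def Fn : ℕ → List A9 → ZMod 2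
  | 0 => L9 (A9.l 0) (dl A9 (ZMod 2)) + L9 (A9.l 1) (dl A9 (ZMod 2))
  | m + 1 =>
    let F1 := L9 (A9.s 0) (Fn m) + R9 (A9.s 0) (Fn m)
    let F2 := LY F1 + RY F1
    let F3 := L9 (A9.z 1 0) F2 + R9 (A9.z 1 0) F2
    let F4 := (L9 (A9.z 0 0) F3 + L9 (A9.z 1 0) F3) + (R9 (A9.z 0 0) F3 + R9 (A9.z 1 0) F3)
    let F5 := L9 (A9.s 0) F4 + R9 (A9.s 0) F4
    L9 (A9.l 0) F5 + R9 (A9.l 0) F5

theorem ev_len (u : List A9) : ∀ F : List A9 → ZMod 2,
    (∀ w, u.length ≤ w.length → F w = 0) → ev u F = 0 := by
  induction u with
  | nil => intro F h; exact h [] le_rfl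
  | cons x u ih =>
    intro F h
    show ev u (fx x F) = 0
    apply ih
    intro w hw
    unfold fx
    rw [h _ (by simp only [List.length_cons]; omega), h _ (by simp only [List.length_cons]; omega),
      mul_zero, add_zero]

theorem Fn0_apply (w : List A9) (hw : w.length ≠ 1) : Fn 0 w = 0 := by
  have h1 := L_supp (sC t9 k9) eqv (A9.l 0) w 0 (dl A9 (ZMod 2)) supp_dl (by simpa using hw)
  have h2 := L_supp (sC t9 k9) eqv (A9.l 1) w 0 (dl A9 (ZMod 2)) supp_dl (by simpa using hw)
  show L9 (A9.l 0) (dl A9 (ZMod 2)) w + L9 (A9.l 1) (dl A9 (ZMod 2)) w = 0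
  have h3 : L9 (A9.l 0) (dl A9 (ZMod 2)) w = 0 := h1
  have h4 : L9 (A9.l 1) (dl A9 (ZMod 2)) w = 0 := h2
  rw [h3, h4, add_zero]

theorem Fn0_single (x : A9) : Fn 0 [x] = if nd x = 1 then 1 else 0 := by
  show L9 (A9.l 0) (dl A9 (ZMod 2)) [x] + L9 (A9.l 1) (dl A9 (ZMod 2)) [x] = _
  rw [LC_cons, LC_cons, LC_nil, LC_nil]
  show eqv (A9.l 0) x * 1 + 0 + (eqv (A9.l 1) x * 1 + 0) = _
  revert x; decide

theorem lead_Fn0 : Lead 0 (vn 0) (Fn 0) := by
  intro u _
  match u with
  | [] =>
    show Fn 0 [] = _
    rw [Fn0_apply [] (by simp)]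
    simp [vn]
  | [x] =>
    show fx x (Fn 0) [] = _
    unfold fx
    rw [Fn0_single, Fn0_single, Np_cons]
    have h0 : Np [] = 0 := rfl
    rw [h0]
    show _ = if (0 : ℤ) + (if nd x = 3 then 1 else 0) = 0 then
      (if [nd x] = [1] then (1 : ZMod 2) else 0) else 0
    revert x; decide
  | x :: y :: u =>
    rw [ev_len]
    · have : (x :: y :: u).map nd ≠ [1] := by simp
      simp [vn]
    · intro w hw
      apply Fn0_apply
      simp only [List.length_cons] at hw
      omega

theorem lead_Fn (m : ℕ) : Lead m (vn m) (Fn m) := by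
  induction m with
  | zero => exact lead_Fn0
  | succ m ih =>
    have h1 := lead_s _ _ _ ih
    have h2 := lead_Y _ _ _ h1
    have h3 := lead_b _ _ _ h2
    have h4 := lead_a _ _ _ h3
    have h5 := lead_s _ _ _ h4
    have h6 := lead_l _ _ _ h5
    have : ((m + 1 : ℕ) : ℤ) = (m : ℤ) + 1 := by push_cast; ring
    rw [this]
    exact h6

theorem Fn_mem (m : ℕ) : Fn m ∈ SpC t9 k9 E6 (7 * m + 1) := by
  have el0 : A9.l 0 ∈ E6 := by simp [E6]
  have el1 : A9.l 1 ∈ E6 := by simp [E6]
  have es0 : A9.s 0 ∈ E6 := by simp [E6]
  have ez0 : A9.z 0 0 ∈ E6 := by simp [E6]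
  have ez1 : A9.z 1 0 ∈ E6 := by simp [E6]
  have eq0 : A9.q ∈ E6 := by simp [E6]
  induction m with
  | zero =>
    have h0 : dl A9 (ZMod 2) ∈ SpC t9 k9 E6 0 := by
      apply Submodule.subset_span
      exact ⟨[], by simp, rfl, rfl⟩
    exact Submodule.add_mem _ (SpC_L E6 0 _ el0 _ h0) (SpC_L E6 0 _ el1 _ h0)
  | succ m ih =>
    have LR : ∀ (a : A9) (_ : a ∈ E6) (d : ℕ) (F : List A9 → ZMod 2), F ∈ SpC t9 k9 E6 d →
        L9 a F + R9 a F ∈ SpC t9 k9 E6 (d + 1) := fun a ha d F hF =>
      Submodule.add_mem _ (SpC_L E6 d a ha F hF) (SpC_R ab9 E6 d a ha F hF)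
    have h1 := LR _ es0 _ _ ih
    set F1 := L9 (A9.s 0) (Fn m) + R9 (A9.s 0) (Fn m)
    have h2 : LY F1 + RY F1 ∈ SpC t9 k9 E6 (7 * m + 1 + 1 + 1 + 1) := by
      apply Submodule.add_mem
      · exact Submodule.add_mem _ (SpC_L E6 _ _ ez0 _ (SpC_L E6 _ _ eq0 _ h1))
          (SpC_L E6 _ _ eq0 _ (SpC_L E6 _ _ ez0 _ h1))
      · exact Submodule.add_mem _ (SpC_R ab9 E6 _ _ eq0 _ (SpC_R ab9 E6 _ _ ez0 _ h1))
          (SpC_R ab9 E6 _ _ ez0 _ (SpC_R ab9 E6 _ _ eq0 _ h1))
    set F2 := LY F1 + RY F1
    have h3 := LR _ ez1 _ _ h2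
    set F3 := L9 (A9.z 1 0) F2 + R9 (A9.z 1 0) F2
    have h4 : (L9 (A9.z 0 0) F3 + L9 (A9.z 1 0) F3) + (R9 (A9.z 0 0) F3 + R9 (A9.z 1 0) F3) ∈
        SpC t9 k9 E6 (7 * m + 1 + 1 + 1 + 1 + 1 + 1) := by
      apply Submodule.add_mem
      · exact Submodule.add_mem _ (SpC_L E6 _ _ ez0 _ h3) (SpC_L E6 _ _ ez1 _ h3)
      · exact Submodule.add_mem _ (SpC_R ab9 E6 _ _ ez0 _ h3) (SpC_R ab9 E6 _ _ ez1 _ h3)
    have h5 := LR _ es0 _ _ h4
    have h6 := LR _ el0 _ _ h5
    exact h6

/-- a lift of nodes to letters -/
def ln : Fin 5 → A9 := ![A9.s 0, A9.l 0, A9.z 0 0, A9.z 1 0, A9.q]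

theorem nd_ln : ∀ i, nd (ln i) = i := by decide

theorem Fn_ne_zero (m : ℕ) : Fn m ≠ 0 := by
  intro h
  obtain ⟨u, hu⟩ := Function.ne_iff.1 (vn_ne_zero m)
  have h1 := cb_vn m u hu
  have h2 : (u.map ln).map nd = u := by
    rw [List.map_map]
    have : nd ∘ ln = id := funext nd_ln
    rw [this, List.map_id]
  have h3 : Np (u.map ln) = m := by
    unfold Np
    rw [h2, h1]
  have h4 := lead_Fn m (u.map ln) (by rw [h3])
  rw [if_pos h3, h2, h] at h4
  have h5 : ev (u.map ln) 0 = 0 := by
    have := ev_smul (u.map ln) 0 (0 : List A9 → ZMod 2)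
    simpa using this
  rw [h5] at h4
  exact hu h4.symm

theorem exists_long9 (m : ℕ) : ∃ u : List A9, (∀ x ∈ u, x ∈ E6) ∧ u.length = 7 * m + 1 ∧
    Lw (sC t9 k9) eqv u (dl A9 (ZMod 2)) ≠ 0 :=
  exists_of_SpC E6 _ _ (Fn_mem m) (Fn_ne_zero m)

end Pool.Agent.H85.FK
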