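import Pool.Agent.H85.FK.Link
import Pool.Agent.H85.FK.NodeY
import Pool.Agent.H85.FK.Fold

/-!
The folding on six points and infinite-dimensionality for a graph with six vertices and nine
edges.
-/

namespace Pool.Agent.H85.FK

/-- the involution exchanging `0, 1` and `2, 3` -/
def tau6 : Equiv.Perm (Fin 6) :=
  ⟨![1, 0, 3, 2, 4, 5], ![1, 0, 3, 2, 4, 5], by decide, by decide⟩

/-- an edge -/
def mkE {n : ℕ} (i j : Fin n) (h : i ≠ j) : Ed n := ⟨s(i, j), h⟩

/-- representatives of the nine letters -/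
def r6 : A9 → Ed 6
  | A9.q => mkE 4 5 (by decide)
  | A9.l t => if t = 0 then mkE 0 1 (by decide) else mkE 2 3 (by decide)
  | A9.s t => if t = 0 then mkE 0 2 (by decide) else mkE 0 3 (by decide)
  | A9.z j t => if t = 0 then (if j = 0 then mkE 0 4 (by decide) else mkE 0 5 (by decide))
      else (if j = 0 then mkE 2 4 (by decide) else mkE 2 5 (by decide))

theorem fd6 : FoldData (sE (n := 6)) (mapE tau6) where
  q := quanE
  br := by decide +kernel
  gg := by decide +kernel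
  gs a b := mapE_sE tau6 a b

theorem r6_inj : ∀ b x : A9, r6 x = r6 b ∨ r6 x = mapE tau6 (r6 b) → x = b := by
  decide +kernel

theorem r6_act : ∀ b x : A9, r6 (sC t9 k9 b x) = gk sE (mapE tau6) r6 b (r6 x) ∨
    r6 (sC t9 k9 b x) = mapE tau6 (gk sE (mapE tau6) r6 b (r6 x)) := by
  unfold gk
  decide +kernel

/-- the nine edges -/
def edges6 : List (Fin 6 × Fin 6) :=
  [(0, 1), (2, 3), (0, 2), (1, 3), (0, 4), (1, 4), (0, 5), (1, 5), (4, 5)]

/-- the set of the nine edges -/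
def S6 : Set (Ed 6) := {e | ∃ p ∈ edges6, e.1 = s(p.1, p.2)}

theorem bk_S6 : ∀ x ∈ ([A9.l 0, A9.l 1, A9.s 0, A9.z 0 0, A9.z 1 0, A9.q] : List A9),
    ∀ e ∈ bk sE (mapE tau6) r6 x, ∃ p ∈ edges6, e.1 = s(p.1, p.2) := by
  decide +kernel

theorem length_bk {A B : Type*} [DecidableEq A] (s : A → A → A) (g : A → A) (r : B → A)
    (u : List B) : u.length ≤ (u.flatMap (bk s g r)).length := by
  induction u with
  | nil => simp
  | cons b u ih =>
    rw [List.flatMap_cons, List.length_append, List.length_cons]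
    have : 1 ≤ (bk s g r b).length := by
      unfold bk; split_ifs <;> simp
    omega

theorem long6 (m : ℕ) : ∃ u : List (Ed 6), m ≤ u.length ∧ (∀ e ∈ u, e ∈ S6) ∧
    Lw sE eqv u (dl (Ed 6) (ZMod 2)) ≠ 0 := by
  obtain ⟨u, hu, hl, hne⟩ := exists_long9 m
  obtain ⟨w, hw⟩ := Function.ne_iff.1 hne
  refine ⟨u.flatMap (bk sE (mapE tau6) r6), ?_, ?_, ?_⟩
  · have := length_bk sE (mapE tau6) r6 u
    omega
  · intro e he
    rw [List.mem_flatMap] at he
    obtain ⟨x, hx, he⟩ := he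
    refine bk_S6 x ?_ e he
    have := hu x hx
    simpa [E6] using this
  · rw [← (fold_word2 (sC t9 k9) fd6 r6_inj r6_act u).2.2] at hw
    intro h0
    rw [h0] at hw
    exact hw rfl

theorem main6 (n : ℕ) (G : SimpleGraph (Fin n)) (φ : Fin 6 → Fin n)
    (hφ : Function.Injective φ) (h : ∀ p ∈ edges6, G.Adj (φ p.1) (φ p.2)) :
    ¬ FiniteDimensional ℚ (FKSub G) := by
  apply infinite_of_Ed 6 n G φ hφ S6 _ long6
  rintro e ⟨p, hp, hep⟩ a b hab
  rw [hep, Sym2.eq_iff] at hab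
  rcases hab with ⟨h1, h2⟩ | ⟨h1, h2⟩
  · rw [← h1, ← h2]; exact h p hp
  · rw [← h1, ← h2]; exact (h p hp).symm

theorem main6_complete (n : ℕ) (hn : 6 ≤ n) : ¬ FiniteDimensional ℚ (FKAlg n) := by
  intro hfd
  apply main6 n ⊤ (Fin.castLE hn) (Fin.castLE_injective hn)
  · intro p hp
    rw [SimpleGraph.top_adj, (Fin.castLE_injective hn).ne_iff]
    revert p; decide
  · infer_instance

end Pool.Agent.H85.FK
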