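import Pool.Agent.H85.FK.Prod
import Pool.Agent.H85.FK.Chain6

/-!
Edges inside a module of a graph do not matter, and infinite-dimensionality for graphs containing
a complete bipartite graph on six vertices.
-/

namespace Pool.Agent.H85.FK

variable {n : ℕ}

/-- complete graph on a set -/
def Kg (s : Finset (Fin n)) : SimpleGraph (Fin n) where
  Adj a b := a ≠ b ∧ a ∈ s ∧ b ∈ s
  symm := ⟨fun _ _ ⟨h1, h2, h3⟩ => ⟨h1.symm, h3, h2⟩⟩
  loopless := ⟨fun _ h => h.1 rfl⟩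

/-- star -/
def Sg (v : Fin n) (s : Finset (Fin n)) : SimpleGraph (Fin n) where
  Adj a b := a ≠ b ∧ ((a = v ∧ b ∈ s) ∨ (b = v ∧ a ∈ s))
  symm := ⟨fun _ _ ⟨h1, h2⟩ => ⟨h1.symm, h2.symm⟩⟩
  loopless := ⟨fun _ h => h.1 rfl⟩

/-- complete bipartite graph -/
def Bg (s t : Finset (Fin n)) : SimpleGraph (Fin n) where
  Adj a b := a ≠ b ∧ ((a ∈ s ∧ b ∈ t) ∨ (b ∈ s ∧ a ∈ t))
  symm := ⟨fun _ _ ⟨h1, h2⟩ => ⟨h1.symm, h2.symm⟩⟩
  loopless := ⟨fun _ h => h.1 rfl⟩

theorem fd_empty (H : SimpleGraph (Fin n)) (h : ∀ i j, ¬ H.Adj i j) :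
    FiniteDimensional ℚ (FKSub H) := by
  have : FKSub H = ⊥ := by
    unfold FKSub
    rw [← Algebra.adjoin_empty]
    congr 1
    apply Set.eq_empty_of_forall_notMem
    rintro y ⟨a, b, hab, _⟩
    exact h _ _ hab
  rw [this]
  infer_instance

/-- stars with fewer leaves are finite-dimensional -/
theorem fd_star (G : SimpleGraph (Fin n)) (hG : FiniteDimensional ℚ (FKSub G)) (v : Fin n)
    (N : Finset (Fin n)) (hN : ∀ b ∈ N, G.Adj v b) (a : Fin n) (s : Finset (Fin n))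
    (ha : a ∉ s) (hs : s.card ≤ N.card) : FiniteDimensional ℚ (FKSub (Sg a s)) := by
  obtain ⟨N', hN', hc⟩ := Finset.exists_subset_card_eq hs
  have e : N' ≃ s := Finset.equivOfCardEq hc
  have hv : v ∉ N' := fun h => (hN v (hN' h)).ne rfl
  set f : Fin n → Fin n := fun x => if x = v then a else if h : x ∈ N' then (e ⟨x, h⟩ : Fin n)
    else x with hf
  have hfv : f v = a := by simp [hf]
  have hfN : ∀ x (h : x ∈ N'), f x = (e ⟨x, h⟩ : Fin n) := by
    intro x h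
    have : x ≠ v := fun h' => hv (h' ▸ h)
    simp [hf, this, h]
  have hinj : Set.InjOn f (insert v N' : Finset (Fin n)) := by
    intro x hx y hy hxy
    simp only [Finset.coe_insert, Set.mem_insert_iff, Finset.mem_coe] at hx hy
    rcases hx with rfl | hx <;> rcases hy with rfl | hy
    · rfl
    · rw [hfv, hfN y hy] at hxy
      exact absurd (hxy ▸ (e ⟨y, hy⟩).2) ha
    · rw [hfv, hfN x hx] at hxy
      exact absurd (hxy ▸ (e ⟨x, hx⟩).2) ha
    · rw [hfN x hx, hfN y hy] at hxy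
      have := e.injective (Subtype.ext hxy)
      exact congrArg Subtype.val this
  obtain ⟨g, hg⟩ := Finset.exists_equiv_extend_of_card_eq (α := Fin n) (β := Fin n)
    (t := Finset.univ) (by simp) (s := insert v N') (f := f) (by simp) hinj
  have hgi : Function.Injective (fun x => ((g x : (Finset.univ : Finset (Fin n))) : Fin n)) :=
    fun x y h => g.injective (Subtype.ext h)
  apply fd_map (fun x => ((g x : (Finset.univ : Finset (Fin n))) : Fin n)) hgi _ hG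
  have hgv : ((g v : (Finset.univ : Finset (Fin n))) : Fin n) = a := by
    rw [hg v (by simp), hfv]
  have key : ∀ b ∈ s, ∃ j, G.Adj v j ∧ ((g j : (Finset.univ : Finset (Fin n))) : Fin n) = b := by
    intro b hb
    refine ⟨(e.symm ⟨b, hb⟩ : Fin n), hN _ (hN' (e.symm ⟨b, hb⟩).2), ?_⟩
    rw [hg _ (Finset.mem_insert_of_mem (e.symm ⟨b, hb⟩).2), hfN _ (e.symm ⟨b, hb⟩).2]
    simp
  rintro x y ⟨_, ⟨rfl, hy⟩ | ⟨rfl, hx⟩⟩
  · obtain ⟨j, hj, hgj⟩ := key y hy
    exact ⟨v, j, hj, hgv, hgj⟩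
  · obtain ⟨j, hj, hgj⟩ := key x hx
    exact ⟨j, v, hj.symm, hgj, hgv⟩

/-- cliques are finite-dimensional up to one more than the degree -/
theorem fd_K (G : SimpleGraph (Fin n)) (hG : FiniteDimensional ℚ (FKSub G)) (v : Fin n)
    (N : Finset (Fin n)) (hN : ∀ b ∈ N, G.Adj v b) (s : Finset (Fin n))
    (hs : s.card ≤ N.card + 1) : FiniteDimensional ℚ (FKSub (Kg s)) := by
  induction s using Finset.induction_on with
  | empty => exact fd_empty _ (by rintro i j ⟨_, h, _⟩; simp at h)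
  | insert a s ha ih =>
    rw [Finset.card_insert_of_notMem ha] at hs
    have h1 := fd_star G hG v N hN a s ha (by omega)
    have h2 := ih (by omega)
    refine fd_mono (H := Sg a s ⊔ Kg s) ?_ (fd_sup ?_ h1 h2)
    · rintro i j ⟨hij, hi, hj⟩
      rw [Finset.mem_insert] at hi hj
      rcases hi with rfl | hi
      · left
        exact ⟨hij, Or.inl ⟨rfl, hj.resolve_left hij.symm⟩⟩
      · rcases hj with rfl | hj
        · left; exact ⟨hij, Or.inr ⟨rfl, hi⟩⟩
        · right; exact ⟨hij, hi, hj⟩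
    · rintro i j k ⟨hij, hi, hj⟩ ⟨_, ⟨rfl, _⟩ | ⟨rfl, _⟩⟩ hik
      · exact absurd hj ha
      · exact ⟨hik, Or.inr ⟨rfl, hi⟩⟩

/-- Edges inside a module with a nonempty outside neighbourhood do not matter. -/
theorem fd_module (G H : SimpleGraph (Fin n)) (M : Finset (Fin n)) (v : Fin n)
    (hvM : ∀ a ∈ M, G.Adj v a)
    (hM : ∀ a ∈ M, ∀ b ∈ M, ∀ c, c ∉ M → G.Adj a c → G.Adj b c)
    (hGH : ∀ a b, (a ∉ M ∨ b ∉ M) → H.Adj a b → G.Adj a b)
    (hG : FiniteDimensional ℚ (FKSub G)) : FiniteDimensional ℚ (FKSub H) := by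
  classical
  -- edges of `G` not inside `M`
  set O : SimpleGraph (Fin n) :=
    { Adj := fun a b => G.Adj a b ∧ (a ∉ M ∨ b ∉ M)
      symm := ⟨fun _ _ h => ⟨h.1.symm, h.2.symm⟩⟩
      loopless := ⟨fun _ h => h.1.ne rfl⟩ } with hO
  have h1 : FiniteDimensional ℚ (FKSub O) := fd_mono (fun _ _ h => h.1) hG
  have h2 : FiniteDimensional ℚ (FKSub (Kg M)) :=
    fd_K G hG v M hvM M (by omega)
  refine fd_mono (H := O ⊔ Kg M) ?_ (fd_sup ?_ h1 h2)
  · intro a b hab
    by_cases h : a ∉ M ∨ b ∉ M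
    · left; exact ⟨hGH a b h hab, h⟩
    · push Not at h
      right; exact ⟨hab.ne, h.1, h.2⟩
  · rintro i j k ⟨hij, hi, hj⟩ ⟨hjk, hor⟩ hik
    have hk : k ∉ M := by
      rcases hor with h | h
      · exact absurd hj h
      · exact h
    exact ⟨hM j hj i hi k hk hjk, Or.inr hk⟩

/-- complete bipartite graphs with at least six vertices -/
theorem bip_infinite (G : SimpleGraph (Fin n)) (s t : Finset (Fin n)) (hst : Disjoint s t)
    (hs : s.Nonempty) (ht : t.Nonempty) (hc : 6 ≤ s.card + t.card)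
    (h : ∀ a ∈ s, ∀ b ∈ t, G.Adj a b) : ¬ FiniteDimensional ℚ (FKSub G) := by
  intro hG
  obtain ⟨a, ha⟩ := hs
  obtain ⟨b, hb⟩ := ht
  have d := Finset.disjoint_left.1 hst
  have f1 : FiniteDimensional ℚ (FKSub (Kg s)) :=
    fd_K G hG b s (fun x hx => (h x hx b hb).symm) s (by omega)
  have f2 : FiniteDimensional ℚ (FKSub (Kg t)) :=
    fd_K G hG a t (fun x hx => h a ha x hx) t (by omega)
  have f3 : FiniteDimensional ℚ (FKSub (Bg s t)) := by
    refine fd_mono ?_ hG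
    rintro i j ⟨_, ⟨hi, hj⟩ | ⟨hj, hi⟩⟩
    · exact h i hi j hj
    · exact (h j hj i hi).symm
  have f4 : FiniteDimensional ℚ (FKSub (Kg s ⊔ Kg t)) := by
    refine fd_sup ?_ f1 f2
    rintro i j k ⟨_, _, hj⟩ ⟨_, hj', _⟩ _
    exact absurd hj (d hj')
  have f5 : FiniteDimensional ℚ (FKSub (Bg s t ⊔ (Kg s ⊔ Kg t))) := by
    refine fd_sup ?_ f3 f4
    rintro i j k (⟨_, hi, hj⟩ | ⟨_, hi, hj⟩) ⟨_, ⟨hj', hk⟩ | ⟨hk, hj'⟩⟩ hik
    · exact ⟨hik, Or.inl ⟨hi, hk⟩⟩
    · exact absurd hj' (d hj)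
    · exact absurd hj (d hj')
    · exact ⟨hik, Or.inr ⟨hk, hi⟩⟩
  have hcard : 6 ≤ (s ∪ t).card := by
    rw [Finset.card_union_of_disjoint hst]; exact hc
  obtain ⟨u, hu, hu6⟩ := Finset.exists_subset_card_eq hcard
  set φ := u.orderEmbOfFin hu6
  refine main6 n _ φ φ.injective ?_ f5
  intro p hp
  have hne : φ p.1 ≠ φ p.2 := by
    rw [φ.injective.ne_iff]
    revert p; decide
  have m1 : φ p.1 ∈ s ∪ t := hu (u.orderEmbOfFin_mem hu6 p.1)
  have m2 : φ p.2 ∈ s ∪ t := hu (u.orderEmbOfFin_mem hu6 p.2)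
  rw [Finset.mem_union] at m1 m2
  rcases m1 with m1 | m1 <;> rcases m2 with m2 | m2
  · exact Or.inr (Or.inl ⟨hne, m1, m2⟩)
  · exact Or.inl ⟨hne, Or.inl ⟨m1, m2⟩⟩
  · exact Or.inl ⟨hne, Or.inr ⟨m2, m1⟩⟩
  · exact Or.inr (Or.inr ⟨hne, m1, m2⟩)

/-- the eight edges of the theta graph -/
def edges8 : List (Fin 6 × Fin 6) :=
  [(0, 1), (2, 3), (0, 2), (1, 3), (0, 4), (1, 4), (0, 5), (1, 5)]

/-- A graph with six vertices and eight edges. -/
theorem theta_infinite (G : SimpleGraph (Fin n)) (φ : Fin 6 → Fin n)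
    (hφ : Function.Injective φ) (h : ∀ p ∈ edges8, G.Adj (φ p.1) (φ p.2)) :
    ¬ FiniteDimensional ℚ (FKSub G) := by
  classical
  intro hG
  -- the exact image
  set T : SimpleGraph (Fin n) :=
    { Adj := fun a b => ∃ p ∈ edges8, (a = φ p.1 ∧ b = φ p.2) ∨ (b = φ p.1 ∧ a = φ p.2)
      symm := ⟨fun _ _ ⟨p, hp, h⟩ => ⟨p, hp, h.symm⟩⟩
      loopless := ⟨by
        rintro a ⟨p, hp, ⟨h1, h2⟩ | ⟨h1, h2⟩⟩
        · exact (h p hp).ne (h1.symm.trans h2)
        · exact (h p hp).ne (h1.symm.trans h2)⟩ } with hT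
  have hTG : FiniteDimensional ℚ (FKSub T) := by
    refine fd_mono ?_ hG
    rintro a b ⟨p, hp, ⟨rfl, rfl⟩ | ⟨rfl, rfl⟩⟩
    · exact h p hp
    · exact (h p hp).symm
  have hadj : ∀ i j : Fin 6, T.Adj (φ i) (φ j) ↔ ((i, j) ∈ edges8 ∨ (j, i) ∈ edges8) := by
    intro i j
    constructor
    · rintro ⟨p, hp, ⟨h1, h2⟩ | ⟨h1, h2⟩⟩
      · left; rw [hφ h1, hφ h2]; exact hp
      · right; rw [hφ h1, hφ h2]; exact hp
    · rintro (hp | hp)
      · exact ⟨_, hp, Or.inl ⟨rfl, rfl⟩⟩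
      · exact ⟨_, hp, Or.inr ⟨rfl, rfl⟩⟩
  have hdom : ∀ a b, T.Adj a b → ∃ i, φ i = b := by
    rintro a b ⟨p, _, ⟨_, hb⟩ | ⟨hb, _⟩⟩
    · exact ⟨_, hb.symm⟩
    · exact ⟨_, hb.symm⟩
  set H : SimpleGraph (Fin n) :=
    { Adj := fun a b => T.Adj a b ∨ ((a = φ 4 ∧ b = φ 5) ∨ (b = φ 4 ∧ a = φ 5))
      symm := ⟨fun _ _ h => h.imp (fun h => h.symm) (fun h => h.symm)⟩
      loopless := ⟨by
        rintro a (h | ⟨h1, h2⟩ | ⟨h1, h2⟩)
        · exact h.ne rfl
        · exact absurd (hφ (h1.symm.trans h2)) (by decide)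
        · exact absurd (hφ (h1.symm.trans h2)) (by decide)⟩ } with hH
  have hHf : FiniteDimensional ℚ (FKSub H) := by
    refine fd_module T H {φ 4, φ 5} (φ 0) ?_ ?_ ?_ hTG
    · intro a ha
      rw [Finset.mem_insert, Finset.mem_singleton] at ha
      rcases ha with rfl | rfl
      · rw [hadj]; decide
      · rw [hadj]; decide
    · intro a ha b hb c hc hac
      rw [Finset.mem_insert, Finset.mem_singleton] at ha hb
      obtain ⟨k, rfl⟩ := hdom _ _ hac
      have key : ∀ i j k : Fin 6, (i = 4 ∨ i = 5) → (j = 4 ∨ j = 5) →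
          ((i, k) ∈ edges8 ∨ (k, i) ∈ edges8) → ((j, k) ∈ edges8 ∨ (k, j) ∈ edges8) := by
        decide
      rcases ha with rfl | rfl <;> rcases hb with rfl | rfl <;> rw [hadj] at hac ⊢
      · exact hac
      · exact key 4 5 k (by decide) (by decide) hac
      · exact key 5 4 k (by decide) (by decide) hac
      · exact hac
    · rintro a b hab (h | h | h)
      · exact h
      · exfalso
        simp only [Finset.mem_insert, Finset.mem_singleton] at hab
        rcases hab with hab | hab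
        · exact hab (Or.inl h.1)
        · exact hab (Or.inr h.2)
      · exfalso
        simp only [Finset.mem_insert, Finset.mem_singleton] at hab
        rcases hab with hab | hab
        · exact hab (Or.inr h.2)
        · exact hab (Or.inl h.1)
  refine main6 n H φ hφ ?_ hHf
  intro p hp
  have : p ∈ edges8 ∨ p = (4, 5) := by revert p; decide
  rcases this with h' | rfl
  · left; exact ⟨p, h', Or.inl ⟨rfl, rfl⟩⟩
  · right; left; exact ⟨rfl, rfl⟩

end Pool.Agent.H85.FK
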