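import Mathlib

/-!
The dual operators `D i` on functions on words in three nodes, and nonvanishing of their
iterates, by pairing with right-normed commutators and a three-dimensional representation.
-/

namespace Pool.Agent.H85.FK

/-- number (mod 2) of letters different from `i` -/
def ncnt (i : Fin 3) : List (Fin 3) → ZMod 2
  | [] => 0
  | j :: w => (if j = i then 0 else 1) + ncnt i w

/-- the operator `D i` -/
def D (i : Fin 3) : List (Fin 3) → (List (Fin 3) → ZMod 2) → ZMod 2
  | [], _ => 0
  | j :: w, v => (if j = i then ncnt i w else 0) * v w + D i w (fun u => v (j :: u))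

/-- deletion of a letter `i` -/
def dd (i : Fin 3) : List (Fin 3) → (List (Fin 3) → ZMod 2) → ZMod 2
  | [], _ => 0
  | j :: w, v => (if j = i then 1 else 0) * v w + dd i w (fun u => v (j :: u))

/-- pairing with the right-normed commutator of a word -/
def hat : List (Fin 3) → (List (Fin 3) → ZMod 2) → ZMod 2
  | [], _ => 0
  | [b], v => v [b]
  | b :: c :: t, v => hat (c :: t) (fun u => v (b :: u)) + hat (c :: t) (fun u => v (u ++ [b]))

theorem hat_add (c : List (Fin 3)) : ∀ v w : List (Fin 3) → ZMod 2,
    hat c (fun u => v u + w u) = hat c v + hat c w := by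
  induction c with
  | nil => intro v w; simp [hat]
  | cons b c ih =>
    intro v w
    cases c with
    | nil => simp [hat]
    | cons c t =>
      simp only [hat]
      rw [ih, ih]; ring

theorem hat_smul (c : List (Fin 3)) : ∀ (a : ZMod 2) (v : List (Fin 3) → ZMod 2),
    hat c (fun u => a * v u) = a * hat c v := by
  induction c with
  | nil => intro v w; simp [hat]
  | cons b c ih =>
    intro a v
    cases c with
    | nil => simp [hat]
    | cons c t =>
      simp only [hat]
      rw [ih, ih]; ring

theorem hat_cons (b : Fin 3) (c : List (Fin 3)) (hc : c ≠ []) (v : List (Fin 3) → ZMod 2) :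
    hat (b :: c) v = hat c (fun u => v (b :: u)) + hat c (fun u => v (u ++ [b])) := by
  cases c with
  | nil => exact absurd rfl hc
  | cons c t => rfl

theorem hat_zero (c : List (Fin 3)) : hat c (fun _ => 0) = 0 := by
  have := hat_smul c 0 (fun _ => 0)
  simpa using this

theorem D_add (i : Fin 3) (w : List (Fin 3)) : ∀ v v' : List (Fin 3) → ZMod 2,
    D i w (fun u => v u + v' u) = D i w v + D i w v' := by
  induction w with
  | nil => intro v v'; simp [D]
  | cons j w ih => intro v v'; simp only [D]; rw [ih]; ring

theorem ncnt_append (i b : Fin 3) (w : List (Fin 3)) :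
    ncnt i (w ++ [b]) = ncnt i w + (if b = i then 0 else 1) := by
  induction w with
  | nil => simp [ncnt]
  | cons j w ih => simp only [List.cons_append, ncnt, ih]; ring

theorem dd_append (i b : Fin 3) (w : List (Fin 3)) : ∀ v : List (Fin 3) → ZMod 2,
    dd i (w ++ [b]) v = dd i w (fun u => v (u ++ [b])) + (if b = i then 1 else 0) * v w := by
  induction w with
  | nil => intro v; simp [dd]
  | cons j w ih =>
    intro v
    simp only [List.cons_append, dd]
    rw [ih]; ring

theorem D_append (i b : Fin 3) (w : List (Fin 3)) : ∀ v : List (Fin 3) → ZMod 2,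
    D i (w ++ [b]) v = D i w (fun u => v (u ++ [b])) +
      (if b = i then 0 else 1) * dd i w (fun u => v (u ++ [b])) := by
  induction w with
  | nil => intro v; simp [D, dd, ncnt]
  | cons j w ih =>
    intro v
    simp only [List.cons_append, D, dd]
    rw [ih, ncnt_append]
    split_ifs <;> ring

theorem hat_dd (i : Fin 3) (c : List (Fin 3)) : ∀ (_ : 2 ≤ c.length)
    (v : List (Fin 3) → ZMod 2), hat c (fun u => dd i u v) = 0 := by
  induction c with
  | nil => intro h; simp at h
  | cons b c ih =>
    intro h v
    have hc : c ≠ [] := by rintro rfl; simp at h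
    rw [hat_cons b c hc]
    have e1 : (fun u => dd i (b :: u) v) =
        fun u => (if b = i then 1 else 0) * v u + dd i u (fun u => v (b :: u)) := rfl
    have e2 : (fun u => dd i (u ++ [b]) v) =
        fun u => dd i u (fun u => v (u ++ [b])) + (if b = i then 1 else 0) * v u := by
      funext u; exact dd_append i b u v
    rw [e1, e2, hat_add, hat_add]
    have h2 : ∀ x y z : ZMod 2, x + y + (z + x) = y + z := by decide
    rw [h2]
    by_cases hl : 2 ≤ c.length
    · rw [ih hl, ih hl]; simp
    · match c, hc with
      | [c], _ =>
        simp only [hat, dd, List.nil_append]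
        have h3 : ∀ x y z : ZMod 2, x * y + 0 + (x * y + 0) = 0 := by decide
        exact h3 _ _ 0
      | c :: c' :: t, _ => simp at hl

theorem hat_ncnt (i : Fin 3) (c : List (Fin 3)) : ∀ (a : ZMod 2)
    (v : List (Fin 3) → ZMod 2), hat c (fun u => (a + ncnt i u) * v u) =
      (a + ncnt i c) * hat c v := by
  induction c with
  | nil => intro a v; simp [hat]
  | cons b c ih =>
    intro a v
    cases c with
    | nil => simp [hat]
    | cons c t =>
      rw [hat_cons b (c :: t) (by simp), hat_cons b (c :: t) (by simp) v]
      have e1 : (fun u => (a + ncnt i (b :: u)) * v (b :: u)) =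
          fun u => ((a + (if b = i then 0 else 1)) + ncnt i u) * v (b :: u) := by
        funext u; simp only [ncnt]; ring
      have e2 : (fun u => (a + ncnt i (u ++ [b])) * v (u ++ [b])) =
          fun u => ((a + (if b = i then 0 else 1)) + ncnt i u) * v (u ++ [b]) := by
        funext u; rw [ncnt_append]; ring
      rw [e1, e2, ih, ih]
      simp only [ncnt]
      ring

abbrev M3 := Matrix (Fin 3) (Fin 3) (ZMod 2)

/-- image of the generator -/
def gX (b : Fin 3) : M3 := fun i j => if i = b ∧ j = b + 1 then 1 else 0

/-- the transposed matrix -/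
def gF (b : Fin 3) : M3 := fun i j => if i = b + 1 ∧ j = b then 1 else 0

/-- the weight matrix -/
def gH (b : Fin 3) : M3 := fun i j => if i = j ∧ (i = b ∨ i = b + 1) then 1 else 0

/-- image of right-normed commutators -/
def rho : List (Fin 3) → M3
  | [] => 0
  | [b] => gX b
  | b :: c :: t => gX b * rho (c :: t) + rho (c :: t) * gX b

theorem rho_cons (b : Fin 3) (c : List (Fin 3)) (hc : c ≠ []) :
    rho (b :: c) = gX b * rho c + rho c * gX b := by
  cases c with
  | nil => exact absurd rfl hc
  | cons c t => rfl

theorem gF_gX : ∀ i b : Fin 3, gF i * gX b + gX b * gF i = if b = i then gH i else 0 := by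
  decide

theorem gH_gX : ∀ i b : Fin 3, gH i * gX b + gX b * gH i = if b = i then 0 else gX b := by
  decide

theorem M3_add_self (m : M3) : m + m = 0 := by
  ext i j
  have : ∀ x : ZMod 2, x + x = 0 := by decide
  exact this _

theorem gH_rho (i : Fin 3) (c : List (Fin 3)) :
    gH i * rho c + rho c * gH i = ncnt i c • rho c := by
  induction c with
  | nil => simp [rho]
  | cons b c ih =>
    by_cases hc : c = []
    · subst hc
      simp only [rho, ncnt]
      rw [gH_gX]
      split_ifs <;> simp
    · rw [rho_cons b c hc]
      have key : gH i * (gX b * rho c + rho c * gX b) + (gX b * rho c + rho c * gX b) * gH i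
          = ((gH i * gX b + gX b * gH i) * rho c + rho c * (gH i * gX b + gX b * gH i))
            + (gX b * (gH i * rho c + rho c * gH i) + (gH i * rho c + rho c * gH i) * gX b)
            := by
        have h : ∀ p q r s t u v w p' : M3, True := fun _ _ _ _ _ _ _ _ _ => trivial
        have h2 := M3_add_self (gX b * gH i * rho c)
        have h3 := M3_add_self (rho c * gH i * gX b)
        have : ((gH i * gX b + gX b * gH i) * rho c + rho c * (gH i * gX b + gX b * gH i))
            + (gX b * (gH i * rho c + rho c * gH i) + (gH i * rho c + rho c * gH i) * gX b)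
            = gH i * (gX b * rho c + rho c * gX b) + (gX b * rho c + rho c * gX b) * gH i
              + (gX b * gH i * rho c + gX b * gH i * rho c)
              + (rho c * gH i * gX b + rho c * gH i * gX b) := by noncomm_ring
        rw [this, h2, h3]; simp
      rw [key, gH_gX, ih]
      simp only [ncnt]
      split_ifs
      · simp [smul_add]
      · simp [smul_add, add_smul]
        abel

theorem jac (f x r : M3) : f * (x * r + r * x) + (x * r + r * x) * f =
    ((f * x + x * f) * r + r * (f * x + x * f)) +
      (x * (f * r + r * f) + (f * r + r * f) * x) := by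
  have h2 := M3_add_self (x * f * r)
  have h3 := M3_add_self (r * f * x)
  have : ((f * x + x * f) * r + r * (f * x + x * f)) +
      (x * (f * r + r * f) + (f * r + r * f) * x) =
      f * (x * r + r * x) + (x * r + r * x) * f + (x * f * r + x * f * r) +
        (r * f * x + r * f * x) := by noncomm_ring
  rw [this, h2, h3]; simp

theorem hat_D (i : Fin 3) (c : List (Fin 3)) : ∀ (_ : 2 ≤ c.length)
    (v : List (Fin 3) → ZMod 2) (θ : M3 →+ ZMod 2)
    (_ : ∀ c' : List (Fin 3), c'.length + 1 = c.length → hat c' v = θ (rho c')),
    hat c (fun u => D i u v) = θ (gF i * rho c + rho c * gF i) := by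
  induction c with
  | nil => intro h; simp at h
  | cons b c ih =>
    intro h v θ hv
    have hc : c ≠ [] := by rintro rfl; simp at h
    rw [hat_cons b c hc, rho_cons b c hc, jac, gF_gX]
    have e1 : (fun u => D i (b :: u) v) =
        fun u => (if b = i then 1 else 0) * ((0 + ncnt i u) * v u) +
          D i u (fun u => v (b :: u)) := by
      funext u; simp only [D]; split_ifs <;> ring
    have e2 : (fun u => D i (u ++ [b]) v) =
        fun u => D i u (fun u => v (u ++ [b])) +
          (if b = i then 0 else 1) * dd i u (fun u => v (u ++ [b])) := by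
      funext u; exact D_append i b u v
    rw [e1, e2, hat_add, hat_smul, hat_ncnt, hat_add, hat_smul]
    have hcv : hat c v = θ (rho c) := hv c (by simp)
    by_cases hl : 2 ≤ c.length
    · rw [hat_dd i c hl]
      have e3 := hat_add c (fun u => D i u (fun u => v (b :: u)))
        (fun u => D i u (fun u => v (u ++ [b])))
      have e4 : (fun u => D i u (fun u => v (b :: u)) + D i u (fun u => v (u ++ [b]))) =
          fun u => D i u (fun u => v (b :: u) + v (u ++ [b])) := by
        funext u; rw [D_add]
      let θ' : M3 →+ ZMod 2 := θ.comp (AddMonoidHom.mulLeft (gX b) + AddMonoidHom.mulRight (gX b))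
      have hθ' : ∀ r, θ' r = θ (gX b * r + r * gX b) := fun r => rfl
      have e5 := ih hl (fun u => v (b :: u) + v (u ++ [b])) θ' (by
        intro c' hc'
        have hc0 : c' ≠ [] := by rintro rfl; simp at hc'; omega
        rw [hat_add, ← hat_cons b c' hc0, hv (b :: c') (by simpa using hc'), hθ',
          rho_cons b c' hc0])
      rw [e4, e5, hθ'] at e3
      have e6 : ∀ x y z : ZMod 2, x + y + (z + 0) = x + (y + z) := by decide
      rw [mul_zero, e6, ← e3, hcv, map_add]
      split_ifs
      · rw [gH_rho]
        simp only [zero_add, one_mul]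
        generalize ncnt i c = n
        revert n
        have : ∀ n : ZMod 2, n = 0 ∨ n = 1 := by decide
        intro n
        rcases this n with h | h <;> simp [h]
      · simp
    · match c, hc with
      | [c], _ =>
        have hb : v [b] = θ (gX b) := hv [b] (by simp)
        have hc' : v [c] = θ (gX c) := hcv
        simp only [hat, D, dd, ncnt, rho, List.nil_append]
        rw [gF_gX, hb, hc']
        have e7 : (if b = i then gH i else 0) * gX c + gX c * (if b = i then gH i else 0) =
          if b = i then (if c = i then 0 else gX c) else 0 := by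
          split_ifs with h1 h2
          · rw [gH_gX]; simp [h2]
          · rw [gH_gX]; simp [h2]
          · simp
        have e8 : gX b * (if c = i then gH i else 0) + (if c = i then gH i else 0) * gX b =
          if c = i then (if b = i then 0 else gX b) else 0 := by
          rw [add_comm]
          split_ifs with h1 h2
          · rw [gH_gX]; simp [h2]
          · rw [gH_gX]; simp [h2]
          · simp
        rw [e7, e8, map_add]
        split_ifs <;> simp
      | c :: c' :: t, _ => simp at hl

/-- the sequence of functions -/
def vs : ℕ → List (Fin 3) → ZMod 2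
  | 0 => fun u => if u = [0] then 1 else 0
  | m + 1 => fun u => D 0 u (fun u => D 2 u (fun u => D 1 u (vs m)))

/-- the sequence of commutators -/
def cs : ℕ → List (Fin 3)
  | 0 => [0]
  | m + 1 => 0 :: 2 :: 1 :: cs m

theorem cs_length (m : ℕ) : (cs m).length = 3 * m + 1 := by
  induction m with
  | zero => rfl
  | succ m ih => simp only [cs, List.length_cons, ih]; ring

/-- matrix entry as an additive map -/
def ent (i j : Fin 3) : M3 →+ ZMod 2 where
  toFun m := m i j
  map_zero' := rfl
  map_add' _ _ := rfl

theorem ent_apply (i j : Fin 3) (m : M3) : ent i j m = m i j := rfl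

theorem ent1 (r : M3) : ent 0 1 (gF 1 * r + r * gF 1) = ent 0 2 r := by
  rw [ent_apply, ent_apply, Matrix.add_apply, Matrix.mul_apply, Matrix.mul_apply]
  simp [Fin.sum_univ_three, gF]

theorem ent2 (r : M3) : ent 0 2 (gF 2 * r + r * gF 2) = (ent 0 0 + ent 2 2) r := by
  rw [AddMonoidHom.add_apply, ent_apply, ent_apply, ent_apply, Matrix.add_apply,
    Matrix.mul_apply, Matrix.mul_apply]
  simp [Fin.sum_univ_three, gF]
  ring

theorem ent3 (r : M3) : (ent 0 0 + ent 2 2) (gF 0 * r + r * gF 0) = ent 0 1 r := by
  rw [AddMonoidHom.add_apply, ent_apply, ent_apply, ent_apply, Matrix.add_apply,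
    Matrix.mul_apply, Matrix.mul_apply, Matrix.add_apply, Matrix.mul_apply, Matrix.mul_apply]
  simp [Fin.sum_univ_three, gF]

theorem hat_vs (m : ℕ) : ∀ c : List (Fin 3), c.length = 3 * m + 1 →
    hat c (vs m) = ent 0 1 (rho c) := by
  induction m with
  | zero =>
    intro c hc
    match c with
    | [] => simp at hc
    | [b] =>
      simp only [hat, vs, rho, ent]
      revert b; decide
    | b :: c :: t => simp at hc
  | succ m ih =>
    intro c hc
    have h1 : ∀ c : List (Fin 3), c.length = 3 * m + 2 →
        hat c (fun u => D 1 u (vs m)) = ent 0 2 (rho c) := by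
      intro c hc
      rw [hat_D 1 c (by omega) (vs m) (ent 0 1) (fun c' hc' => ih c' (by omega))]
      exact ent1 _
    have h2 : ∀ c : List (Fin 3), c.length = 3 * m + 3 →
        hat c (fun u => D 2 u (fun u => D 1 u (vs m))) =
          (ent 0 0 + ent 2 2) (rho c) := by
      intro c hc
      rw [hat_D 2 c (by omega) _ (ent 0 2) (fun c' hc' => h1 c' (by omega))]
      exact ent2 _
    rw [show vs (m + 1) = fun u => D 0 u (fun u => D 2 u (fun u => D 1 u (vs m))) from rfl]
    rw [hat_D 0 c (by omega) _ (ent 0 0 + ent 2 2) (fun c' hc' => h2 c' (by omega))]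
    exact ent3 _

theorem rho_cs (m : ℕ) : rho (cs m) = gX 0 := by
  induction m with
  | zero => rfl
  | succ m ih =>
    have h : cs m ≠ [] := by cases m <;> simp [cs]
    simp only [cs]
    rw [rho_cons _ _ (by simp), rho_cons _ _ (by simp), rho_cons _ _ h, ih]
    decide

theorem vs_ne_zero (m : ℕ) : vs m ≠ 0 := by
  intro h
  have h1 := hat_vs m (cs m) (cs_length m)
  rw [h, rho_cs] at h1
  have h2 := hat_zero (cs m)
  have h3 : hat (cs m) 0 = 0 := h2
  rw [h3] at h1
  revert h1
  decide

end Pool.Agent.H85.FK
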