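import Mathlib

/-!
The node operators `D i` for a matrix modulo two, and their values on right-normed commutators,
computed through matrices satisfying Chevalley-type relations modulo two.
-/

namespace Pool.Agent.H85.FK

section HatG

variable {I : Type*} [DecidableEq I] (M : I → I → ZMod 2)

/-- total weight of a word for the row `i` -/
def mc (i : I) : List I → ZMod 2
  | [] => 0
  | j :: w => M i j + mc i w

/-- the operator `D i` -/
def Dg (i : I) : List I → (List I → ZMod 2) → ZMod 2
  | [], _ => 0
  | j :: w, v => (if j = i then mc M i w else 0) * v w + Dg i w (fun u => v (j :: u))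

/-- deletion of a letter `i` -/
def dg (i : I) : List I → (List I → ZMod 2) → ZMod 2
  | [], _ => 0
  | j :: w, v => (if j = i then 1 else 0) * v w + dg i w (fun u => v (j :: u))

/-- pairing with the right-normed commutator of a word -/
def hg : List I → (List I → ZMod 2) → ZMod 2
  | [], _ => 0
  | [b], v => v [b]
  | b :: c :: t, v => hg (c :: t) (fun u => v (b :: u)) + hg (c :: t) (fun u => v (u ++ [b]))

omit [DecidableEq I] in
theorem hg_add (c : List I) : ∀ v w : List I → ZMod 2,
    hg c (fun u => v u + w u) = hg c v + hg c w := by
  induction c with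
  | nil => intro v w; simp [hg]
  | cons b c ih =>
    intro v w
    cases c with
    | nil => simp [hg]
    | cons c t =>
      simp only [hg]
      rw [ih, ih]; ring

omit [DecidableEq I] in
theorem hg_smul (c : List I) : ∀ (a : ZMod 2) (v : List I → ZMod 2),
    hg c (fun u => a * v u) = a * hg c v := by
  induction c with
  | nil => intro v w; simp [hg]
  | cons b c ih =>
    intro a v
    cases c with
    | nil => simp [hg]
    | cons c t =>
      simp only [hg]
      rw [ih, ih]; ring

omit [DecidableEq I] in
theorem hg_cons (b : I) (c : List I) (hc : c ≠ []) (v : List I → ZMod 2) :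
    hg (b :: c) v = hg c (fun u => v (b :: u)) + hg c (fun u => v (u ++ [b])) := by
  cases c with
  | nil => exact absurd rfl hc
  | cons c t => rfl

omit [DecidableEq I] in
theorem hg_zero (c : List I) : hg c (fun _ => 0) = 0 := by
  have := hg_smul c 0 (fun _ => 0)
  simpa using this

theorem Dg_add (i : I) (w : List I) : ∀ v v' : List I → ZMod 2,
    Dg M i w (fun u => v u + v' u) = Dg M i w v + Dg M i w v' := by
  induction w with
  | nil => intro v v'; simp [Dg]
  | cons j w ih => intro v v'; simp only [Dg]; rw [ih]; ring

omit [DecidableEq I] in
theorem mc_append (i b : I) (w : List I) :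
    mc M i (w ++ [b]) = mc M i w + M i b := by
  induction w with
  | nil => simp [mc]
  | cons j w ih => simp only [List.cons_append, mc, ih]; ring

theorem dg_append (i b : I) (w : List I) : ∀ v : List I → ZMod 2,
    dg i (w ++ [b]) v = dg i w (fun u => v (u ++ [b])) + (if b = i then 1 else 0) * v w := by
  induction w with
  | nil => intro v; simp [dg]
  | cons j w ih =>
    intro v
    simp only [List.cons_append, dg]
    rw [ih]; ring

theorem Dg_append (i b : I) (w : List I) : ∀ v : List I → ZMod 2,
    Dg M i (w ++ [b]) v = Dg M i w (fun u => v (u ++ [b])) +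
      M i b * dg i w (fun u => v (u ++ [b])) := by
  induction w with
  | nil => intro v; simp [Dg, dg, mc]
  | cons j w ih =>
    intro v
    simp only [List.cons_append, Dg, dg]
    rw [ih, mc_append]
    split_ifs <;> ring

theorem hg_dg (i : I) (c : List I) : ∀ (_ : 2 ≤ c.length)
    (v : List I → ZMod 2), hg c (fun u => dg i u v) = 0 := by
  induction c with
  | nil => intro h; simp at h
  | cons b c ih =>
    intro h v
    have hc : c ≠ [] := by rintro rfl; simp at h
    rw [hg_cons b c hc]
    have e1 : (fun u => dg i (b :: u) v) =
        fun u => (if b = i then 1 else 0) * v u + dg i u (fun u => v (b :: u)) := rfl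
    have e2 : (fun u => dg i (u ++ [b]) v) =
        fun u => dg i u (fun u => v (u ++ [b])) + (if b = i then 1 else 0) * v u := by
      funext u; exact dg_append i b u v
    rw [e1, e2, hg_add, hg_add]
    have h2 : ∀ x y z : ZMod 2, x + y + (z + x) = y + z := by decide
    rw [h2]
    by_cases hl : 2 ≤ c.length
    · rw [ih hl, ih hl]; simp
    · match c, hc with
      | [c], _ =>
        simp only [hg, dg, List.nil_append]
        have h3 : ∀ x y z : ZMod 2, x * y + 0 + (x * y + 0) = 0 := by decide
        exact h3 _ _ 0
      | c :: c' :: t, _ => simp at hl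

omit [DecidableEq I] in
theorem hg_mc (i : I) (c : List I) : ∀ (a : ZMod 2)
    (v : List I → ZMod 2), hg c (fun u => (a + mc M i u) * v u) =
      (a + mc M i c) * hg c v := by
  induction c with
  | nil => intro a v; simp [hg]
  | cons b c ih =>
    intro a v
    cases c with
    | nil => simp [hg]
    | cons c t =>
      rw [hg_cons b (c :: t) (by simp), hg_cons b (c :: t) (by simp) v]
      have e1 : (fun u => (a + mc M i (b :: u)) * v (b :: u)) =
          fun u => ((a + M i b) + mc M i u) * v (b :: u) := by
        funext u; simp only [mc]; ring
      have e2 : (fun u => (a + mc M i (u ++ [b])) * v (u ++ [b])) =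
          fun u => ((a + M i b) + mc M i u) * v (u ++ [b]) := by
        funext u; rw [mc_append]; ring
      rw [e1, e2, ih, ih]
      simp only [mc]
      ring

variable {R : Type*} [Ring R] [Algebra (ZMod 2) R] (X F H : I → R)

/-- image of right-normed commutators -/
def rg : List I → R
  | [] => 0
  | [b] => X b
  | b :: c :: t => X b * rg (c :: t) + rg (c :: t) * X b

omit [DecidableEq I] [Algebra (ZMod 2) R] in
theorem rg_cons (b : I) (c : List I) (hc : c ≠ []) :
    rg X (b :: c) = X b * rg X c + rg X c * X b := by
  cases c with
  | nil => exact absurd rfl hc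
  | cons c t => rfl

theorem add_self_R (m : R) : m + m = 0 := by
  have h : ((1 : ZMod 2) + 1) • m = 0 := by
    have : (1 : ZMod 2) + 1 = 0 := by decide
    rw [this, zero_smul]
  rw [add_smul, one_smul] at h
  exact h

theorem jac_R (f x r : R) : f * (x * r + r * x) + (x * r + r * x) * f =
    ((f * x + x * f) * r + r * (f * x + x * f)) +
      (x * (f * r + r * f) + (f * r + r * f) * x) := by
  have h2 := add_self_R (x * f * r)
  have h3 := add_self_R (r * f * x)
  have : ((f * x + x * f) * r + r * (f * x + x * f)) +
      (x * (f * r + r * f) + (f * r + r * f) * x) =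
      f * (x * r + r * x) + (x * r + r * x) * f + (x * f * r + x * f * r) +
        (r * f * x + r * f * x) := by noncomm_ring
  rw [this, h2, h3]; simp

omit [DecidableEq I] in
theorem H_rg (hHX : ∀ i b, H i * X b + X b * H i = M i b • X b) (i : I) (c : List I) :
    H i * rg X c + rg X c * H i = mc M i c • rg X c := by
  induction c with
  | nil => simp [rg]
  | cons b c ih =>
    by_cases hc : c = []
    · subst hc
      simp only [rg, mc]
      rw [hHX, add_zero]
    · rw [rg_cons X b c hc, jac_R, hHX, ih]
      simp only [mc, smul_mul_assoc, mul_smul_comm, ← smul_add, add_smul]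

theorem hg_D (hFX : ∀ i b, F i * X b + X b * F i = if b = i then H i else 0)
    (hHX : ∀ i b, H i * X b + X b * H i = M i b • X b) (i : I) (c : List I) :
    ∀ (_ : 2 ≤ c.length) (v : List I → ZMod 2) (θ : R →+ ZMod 2)
    (_ : ∀ c' : List I, c'.length + 1 = c.length → hg c' v = θ (rg X c')),
    hg c (fun u => Dg M i u v) = θ (F i * rg X c + rg X c * F i) := by
  induction c with
  | nil => intro h; simp at h
  | cons b c ih =>
    intro h v θ hv
    have hc : c ≠ [] := by rintro rfl; simp at h
    have hsm : ∀ (a : ZMod 2) (r : R), θ (a • r) = a * θ r := by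
      intro a r
      have : a = 0 ∨ a = 1 := by revert a; decide
      rcases this with h | h <;> simp [h]
    rw [hg_cons b c hc, rg_cons X b c hc, jac_R, hFX]
    have e1 : (fun u => Dg M i (b :: u) v) =
        fun u => (if b = i then 1 else 0) * ((0 + mc M i u) * v u) +
          Dg M i u (fun u => v (b :: u)) := by
      funext u; simp only [Dg]; split_ifs <;> ring
    have e2 : (fun u => Dg M i (u ++ [b]) v) =
        fun u => Dg M i u (fun u => v (u ++ [b])) +
          M i b * dg i u (fun u => v (u ++ [b])) := by
      funext u; exact Dg_append M i b u v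
    rw [e1, e2, hg_add, hg_smul, hg_mc, hg_add, hg_smul]
    have hcv : hg c v = θ (rg X c) := hv c (by simp)
    by_cases hl : 2 ≤ c.length
    · rw [hg_dg i c hl]
      have e3 := hg_add c (fun u => Dg M i u (fun u => v (b :: u)))
        (fun u => Dg M i u (fun u => v (u ++ [b])))
      have e4 : (fun u => Dg M i u (fun u => v (b :: u)) + Dg M i u (fun u => v (u ++ [b]))) =
          fun u => Dg M i u (fun u => v (b :: u) + v (u ++ [b])) := by
        funext u; rw [Dg_add]
      let θ' : R →+ ZMod 2 := θ.comp (AddMonoidHom.mulLeft (X b) + AddMonoidHom.mulRight (X b))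
      have hθ' : ∀ r, θ' r = θ (X b * r + r * X b) := fun r => rfl
      have e5 := ih hl (fun u => v (b :: u) + v (u ++ [b])) θ' (by
        intro c' hc'
        have hc0 : c' ≠ [] := by rintro rfl; simp at hc'; omega
        rw [hg_add, ← hg_cons b c' hc0, hv (b :: c') (by simpa using hc'), hθ',
          rg_cons X b c' hc0])
      rw [e4, e5, hθ'] at e3
      have e6 : ∀ x y z : ZMod 2, x + y + (z + 0) = x + (y + z) := by decide
      rw [mul_zero, e6, ← e3, hcv]
      split_ifs
      · rw [H_rg M X H hHX, map_add θ (mc M i c • rg X c), hsm, map_add]
        simp only [zero_add, one_mul]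
      · simp
    · match c, hc with
      | [c], _ =>
        have hb : v [b] = θ (X b) := hv [b] (by simp)
        have hc' : v [c] = θ (X c) := hcv
        simp only [hg, Dg, dg, mc, rg, List.nil_append]
        rw [hFX, hb, hc']
        have e7 : (if b = i then H i else 0) * X c + X c * (if b = i then H i else 0) =
          if b = i then M i c • X c else 0 := by
          split_ifs with h1
          · rw [hHX]
          · simp
        have e8 : X b * (if c = i then H i else 0) + (if c = i then H i else 0) * X b =
          if c = i then M i b • X b else 0 := by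
          rw [add_comm]
          split_ifs with h1
          · rw [hHX]
          · simp
        rw [e7, e8, map_add]
        split_ifs <;> simp [hsm]
      | c :: c' :: t, _ => simp at hl

end HatG

end Pool.Agent.H85.FK
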