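import Pool.Agent.H85.FK.Op
import Pool.Agent.H85.FK.Hat

/-!
The rack with three nodes, each doubled, and unboundedly long nonvanishing iterated deletions.
-/

namespace Pool.Agent.H85.FK

abbrev V := Fin 3 × ZMod 2

/-- the rack operation -/
def sV (a x : V) : V := (x.1, x.2 + if x.1 = a.1 then 0 else 1)

/-- indicator pairing -/
def eqv {A : Type*} [DecidableEq A] (a x : A) : ZMod 2 := if x = a then 1 else 0

/-- counting letters with node different from `i` -/
def cV (i : Fin 3) : List V → ZMod 2
  | [] => 0
  | x :: w => (if x.1 = i then 0 else 1) + cV i w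

/-- action of a word on a letter -/
def gact (w : List V) (a : V) : V := (a.1, a.2 + cV a.1 w)

/-- right deletion -/
def rdel (a : V) : List V → (List V → ZMod 2) → ZMod 2
  | [], _ => 0
  | x :: w, F => eqv (gact w a) x * F w + rdel a w (fun v => F (x :: v))

theorem rdel_add (a : V) (w : List V) : ∀ F G : List V → ZMod 2,
    rdel a w (F + G) = rdel a w F + rdel a w G := by
  induction w with
  | nil => intro F G; simp [rdel]
  | cons x w ih =>
    intro F G
    have h := ih (fun v => F (x :: v)) (fun v => G (x :: v))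
    have e : (fun v => (F + G) (x :: v)) =
      (fun v => F (x :: v)) + (fun v => G (x :: v)) := rfl
    simp only [rdel]
    rw [e, h, Pi.add_apply]; ring

theorem rdel_smul (a : V) (w : List V) : ∀ (c : ZMod 2) (F : List V → ZMod 2),
    rdel a w (c • F) = c * rdel a w F := by
  induction w with
  | nil => intro c F; simp [rdel]
  | cons x w ih =>
    intro c F
    have h := ih c (fun v => F (x :: v))
    have e : (fun v => (c • F) (x :: v)) = c • (fun v => F (x :: v)) := rfl
    simp only [rdel]
    rw [e, h, Pi.smul_apply, smul_eq_mul]; ring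

/-- right deletion as a linear map -/
def R (a : V) : (List V → ZMod 2) →ₗ[ZMod 2] (List V → ZMod 2) where
  toFun F := fun w => rdel a w F
  map_add' F G := by funext w; exact rdel_add a w F G
  map_smul' c F := by funext w; exact rdel_smul a w c F

theorem R_nil (a : V) (F : List V → ZMod 2) : R a F [] = 0 := rfl

theorem R_cons (a : V) (F : List V → ZMod 2) (x : V) (w : List V) :
    R a F (x :: w) = eqv (gact w a) x * F w + R a (fun v => F (x :: v)) w := rfl

abbrev LV (a : V) : (List V → ZMod 2) →ₗ[ZMod 2] (List V → ZMod 2) := L sV eqv a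

theorem eqv_aux : ∀ (a1 b1 x1 : Fin 3) (a2 x2 n : ZMod 2),
    eqv ((a1, a2 + n) : V) (x1, x2 + if x1 = b1 then 0 else 1) =
      eqv ((a1, a2 + (n + if b1 = a1 then 0 else 1)) : V) (x1, x2) := by
  decide

theorem eqv_sV (a b x : V) (w : List V) :
    eqv (gact w a) (sV b x) = eqv (a.1, a.2 + (cV a.1 w + if b.1 = a.1 then 0 else 1)) x :=
  eqv_aux a.1 b.1 x.1 a.2 x.2 (cV a.1 w)

/-- Deletion changes the counting function in a controlled way. -/
theorem L_count (i : Fin 3) (b : V) (w : List V) : ∀ (P : ZMod 2 → ZMod 2)
    (F : List V → ZMod 2),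
    LV b (fun v => P (cV i v) * F v) w = P (cV i w + if b.1 = i then 0 else 1) * LV b F w := by
  induction w with
  | nil => intro P F; simp [L_nil]
  | cons x w ih =>
    intro P F
    rw [L_cons, L_cons]
    have e : (fun v => P (cV i (sV b x :: v)) * F (sV b x :: v)) =
        fun v => (fun n => P ((if x.1 = i then 0 else 1) + n)) (cV i v) *
          F (sV b x :: v) := by
      funext v; rfl
    rw [e]
    have e' := ih (fun n => P ((if x.1 = i then 0 else 1) + n)) (fun v => F (sV b x :: v))
    unfold LV at e'
    rw [e']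
    simp only [cV]
    rw [add_assoc, mul_add]
    congr 1
    by_cases h : x = b
    · subst h
      have h4 : ∀ n : ZMod 2, (if x.1 = i then (0 : ZMod 2) else 1) +
          (n + if x.1 = i then 0 else 1) = n := by
        intro n; split_ifs <;> revert n <;> decide
      rw [h4]; ring
    · simp [eqv, h]

theorem R_L (a b : V) (w : List V) : ∀ F : List V → ZMod 2,
    R a (LV b F) w = LV b (R a F) w := by
  induction w with
  | nil => intro F; rfl
  | cons x w ih =>
    intro F
    rw [R_cons, L_cons]
    have e1 : (fun v => LV b F (x :: v)) =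
        eqv b x • F + LV b (fun v => F (sV b x :: v)) := by
      funext v; rw [L_cons]; rfl
    have e2 : (fun v => R a F (sV b x :: v)) =
        (fun v => (fun n => eqv (a.1, a.2 + (n + if b.1 = a.1 then 0 else 1)) x) (cV a.1 v)
          * F v) + R a (fun v => F (sV b x :: v)) := by
      funext v
      rw [R_cons, Pi.add_apply, eqv_sV]
    rw [e1, e2, map_add, map_add, map_smul]
    simp only [Pi.add_apply, Pi.smul_apply, smul_eq_mul]
    have e3 := L_count a.1 b w (fun n => eqv (a.1, a.2 + (n + if b.1 = a.1 then 0 else 1)) x) F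
    unfold LV at e3 ih ⊢
    rw [e3, ih]
    have h4 : cV a.1 w + (if b.1 = a.1 then (0 : ZMod 2) else 1) +
        (if b.1 = a.1 then 0 else 1) = cV a.1 w := by
      generalize cV a.1 w = n
      split_ifs <;> revert n <;> decide
    simp only [h4]
    rw [show gact w a = (a.1, a.2 + cV a.1 w) from rfl]
    ring

theorem R_L' (a b : V) (F : List V → ZMod 2) : R a (LV b F) = LV b (R a F) :=
  funext fun w => R_L a b w F

theorem R_dl (a : V) : R a (dl V (ZMod 2)) = LV a (dl V (ZMod 2)) := by
  funext w
  cases w with
  | nil => rfl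
  | cons x w =>
    rw [R_cons, L_cons]
    have e1 : (fun v => dl V (ZMod 2) (x :: v)) = 0 := rfl
    have e2 : (fun v => dl V (ZMod 2) (sV a x :: v)) = 0 := rfl
    rw [e1, e2, map_zero, map_zero]
    cases w with
    | nil => simp [gact, cV]
    | cons y w => simp [dl]

theorem R_Lw (a : V) (u : List V) :
    R a (Lw sV eqv u (dl V (ZMod 2))) = Lw sV eqv (u ++ [a]) (dl V (ZMod 2)) := by
  induction u with
  | nil => exact R_dl a
  | cons b u ih => rw [Lw_cons, R_L', ih]; rfl

theorem socle (a : V) (w : List V) : ∀ v : List (Fin 3) → ZMod 2,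
    (LV a (fun w => v (w.map Prod.fst)) + R a (fun w => v (w.map Prod.fst))) w =
      D a.1 (w.map Prod.fst) v := by
  induction w with
  | nil => intro v; simp [L_nil, R_nil, D]
  | cons x w ih =>
    intro v
    have h := ih (fun u => v (x.1 :: u))
    rw [Pi.add_apply] at h
    rw [Pi.add_apply, L_cons, R_cons, List.map_cons]
    simp only [D]
    rw [← h]
    have e1 : (fun v' : List V => v (List.map Prod.fst (sV a x :: v'))) =
        fun v' => v (x.1 :: List.map Prod.fst v') := rfl
    have e2 : (fun v' : List V => v (List.map Prod.fst (x :: v'))) =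
        fun v' => v (x.1 :: List.map Prod.fst v') := rfl
    rw [e1, e2]
    have e3 : eqv a x + eqv (gact w a) x =
        if x.1 = a.1 then ncnt a.1 (w.map Prod.fst) else 0 := by
      have e4 : cV a.1 w = ncnt a.1 (w.map Prod.fst) := by
        clear h e1 e2 ih
        induction w with
        | nil => rfl
        | cons y w ih => simp only [cV, List.map_cons, ncnt, ih]
      rw [← e4]
      simp only [gact]
      generalize cV a.1 w = n
      clear h e1 e2 e4 ih
      obtain ⟨a1, a2⟩ := a
      obtain ⟨x1, x2⟩ := x
      simp only [eqv, Prod.mk.injEq]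
      by_cases hx : x1 = a1
      · simp only [hx, true_and, if_true]
        revert a2 x2 n; decide
      · simp [hx]
    rw [← e3]
    ring

theorem socle' (a : V) (v : List (Fin 3) → ZMod 2) :
    LV a (fun w => v (w.map Prod.fst)) + R a (fun w => v (w.map Prod.fst)) =
      fun w => D a.1 (w.map Prod.fst) v :=
  funext fun w => socle a w v

/-- the span of iterated deletions with letters in `E`, of length `d` -/
def Sp (E : Set V) (d : ℕ) : Submodule (ZMod 2) (List V → ZMod 2) :=
  Submodule.span (ZMod 2) {F | ∃ u : List V, (∀ x ∈ u, x ∈ E) ∧ u.length = d ∧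
    F = Lw sV eqv u (dl V (ZMod 2))}

theorem Sp_step (E : Set V) (d : ℕ) (a : V) (ha : a ∈ E) (F : List V → ZMod 2)
    (hF : F ∈ Sp E d) : LV a F + R a F ∈ Sp E (d + 1) := by
  refine Submodule.span_induction (p := fun F _ => LV a F + R a F ∈ Sp E (d + 1))
    ?_ ?_ ?_ ?_ hF
  · rintro _ ⟨u, hu, hd, rfl⟩
    apply Submodule.add_mem
    · apply Submodule.subset_span
      refine ⟨a :: u, ?_, by simp [hd], rfl⟩
      intro x hx
      rcases List.mem_cons.1 hx with h | h
      · rw [h]; exact ha
      · exact hu x h
    · apply Submodule.subset_span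
      refine ⟨u ++ [a], ?_, by simp [hd], R_Lw a u⟩
      intro x hx
      rcases List.mem_append.1 hx with h | h
      · exact hu x h
      · rw [List.mem_singleton.1 h]; exact ha
  · simp
  · intro x y _ _ hx hy
    rw [map_add, map_add]
    have : LV a x + LV a y + (R a x + R a y) = (LV a x + R a x) + (LV a y + R a y) := by abel
    rw [this]
    exact Submodule.add_mem _ hx hy
  · intro c x _ hx
    rw [map_smul, map_smul, ← smul_add]
    exact Submodule.smul_mem _ _ hx

/-- the four letters used -/
def E4 : Set V := {(0, 0), (0, 1), (1, 0), (2, 0)}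

theorem start : (fun w : List V => vs 0 (w.map Prod.fst)) =
    LV (0, 0) (dl V (ZMod 2)) + LV (0, 1) (dl V (ZMod 2)) := by
  funext w
  rw [Pi.add_apply]
  cases w with
  | nil => rfl
  | cons x w =>
    rw [L_cons, L_cons]
    have e1 : (fun v => dl V (ZMod 2) (sV (0, 0) x :: v)) = 0 := rfl
    have e2 : (fun v => dl V (ZMod 2) (sV (0, 1) x :: v)) = 0 := rfl
    rw [e1, e2, map_zero, map_zero]
    cases w with
    | nil =>
      simp only [vs, dl, List.map_cons, List.map_nil, Pi.zero_apply]
      clear e1 e2
      revert x; decide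
    | cons y w => simp [dl, vs]

theorem vs_mem (m : ℕ) : (fun w : List V => vs m (w.map Prod.fst)) ∈ Sp E4 (3 * m + 1) := by
  induction m with
  | zero =>
    rw [start]
    apply Submodule.add_mem
    · apply Submodule.subset_span
      exact ⟨[(0, 0)], by simp [E4], rfl, rfl⟩
    · apply Submodule.subset_span
      exact ⟨[(0, 1)], by simp [E4], rfl, rfl⟩
  | succ m ih =>
    have h1 := Sp_step E4 _ (1, 0) (by simp [E4]) _ ih
    rw [socle'] at h1
    have h2 := Sp_step E4 _ (2, 0) (by simp [E4]) _ h1
    rw [socle' (2, 0) (fun u => D 1 u (vs m))] at h2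
    have h3 := Sp_step E4 _ (0, 0) (by simp [E4]) _ h2
    rw [socle' (0, 0) (fun u => D 2 u (fun u => D 1 u (vs m)))] at h3
    exact h3

theorem exists_long (m : ℕ) : ∃ u : List V, (∀ x ∈ u, x ∈ E4) ∧ u.length = 3 * m + 1 ∧
    Lw sV eqv u (dl V (ZMod 2)) ≠ 0 := by
  by_contra hcon
  push Not at hcon
  have h0 : Sp E4 (3 * m + 1) = ⊥ := by
    rw [Sp, Submodule.span_eq_bot]
    rintro _ ⟨u, hu, hd, rfl⟩
    exact hcon u hu hd
  have h1 := vs_mem m
  rw [h0, Submodule.mem_bot] at h1
  apply vs_ne_zero m
  funext u
  have h2 := congrFun h1 (u.map (fun i => ((i, 0) : V)))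
  have h3 : (u.map (fun i => ((i, 0) : V))).map Prod.fst = u := by
    rw [List.map_map]
    exact List.map_id u
  simp only [h3] at h2
  exact h2

end Pool.Agent.H85.FK
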