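import Pool.Agent.H85.FK.Chain

/-!
From words of edges modulo two to the Fomin-Kirillov algebras over the rationals.
-/

namespace Pool.Agent.H85.FK

/-- edges of the complete graph -/
abbrev Ed (n : ℕ) := {e : Sym2 (Fin n) // ¬ e.IsDiag}

theorem isDiag_map_perm {n : ℕ} (σ : Equiv.Perm (Fin n)) (e : Sym2 (Fin n)) :
    (e.map σ).IsDiag ↔ e.IsDiag := by
  induction e using Sym2.ind with
  | _ i j => simp

/-- image of an edge under a permutation -/
def mapE {n : ℕ} (σ : Equiv.Perm (Fin n)) (x : Ed n) : Ed n :=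
  ⟨x.1.map σ, fun h => x.2 ((isDiag_map_perm σ x.1).1 h)⟩

/-- the rack of edges -/
def sE {n : ℕ} (a x : Ed n) : Ed n := mapE (sw a.1) x

theorem quanE {n : ℕ} : Quan (sE (n := n)) where
  inv a x := Subtype.ext (quan0.inv a.1 x.1)
  dist a b x := Subtype.ext (quan0.dist a.1 b.1 x.1)
  idem a := Subtype.ext (quan0.idem a.1)

theorem mapE_sE {n : ℕ} (σ : Equiv.Perm (Fin n)) (a b : Ed n) :
    mapE σ (sE a b) = sE (mapE σ a) (mapE σ b) := Subtype.ext (map_s0 σ a.1 b.1)

/-- ordered pairs of distinct points -/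
abbrev Op (n : ℕ) := {p : Fin n × Fin n // p.1 ≠ p.2}

/-- action on ordered pairs -/
def sO {n : ℕ} (a x : Op n) : Op n :=
  ⟨sX a.1 x.1, fun h => x.2 ((Equiv.swap a.1.1 a.1.2).injective h)⟩

/-- forgetting the order -/
def piO {n : ℕ} (p : Op n) : Ed n := ⟨s(p.1.1, p.1.2), fun h => p.2 h⟩

/-- a choice of order -/
noncomputable def orO {n : ℕ} (e : Ed n) : Op n :=
  ⟨Quot.out e.1, by
    intro h
    apply e.2
    have h1 : Sym2.mk (Quot.out e.1).1 (Quot.out e.1).2 = e.1 := Quot.out_eq e.1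
    rw [← h1]
    exact h⟩

theorem piO_orO {n : ℕ} (e : Ed n) : piO (orO e) = e := by
  apply Subtype.ext
  show Sym2.mk (Quot.out e.1).1 (Quot.out e.1).2 = e.1
  exact Quot.out_eq e.1

theorem eqv_piO {n : ℕ} (a x : Op n) : eqv (piO a) (piO x) = cX (ZMod 2) a.1 x.1 := by
  obtain ⟨⟨a1, a2⟩, ha⟩ := a
  obtain ⟨⟨x1, x2⟩, hx⟩ := x
  simp only at ha hx
  simp only [eqv, cX, piO, Prod.mk.injEq, Prod.swap, Subtype.mk.injEq, Sym2.eq_iff]
  by_cases h1 : x1 = a1 ∧ x2 = a2
  · obtain ⟨h1, h2⟩ := h1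
    subst h1 h2
    simp [ha]
  · by_cases h2 : x1 = a2 ∧ x2 = a1
    · obtain ⟨h3, h4⟩ := h2
      subst h3 h4
      simp [hx]
    · simp [h1, h2]

theorem lift_words {n : ℕ} (u w : List (Ed n))
    (h : Lw sE eqv u (dl (Ed n) (ZMod 2)) w ≠ 0) :
    Lw sX (cX ℚ) (u.map (fun e => (orO e).1)) (dl (Fin n × Fin n) ℚ) ≠ 0 := by
  have e1 : ∀ l : List (Ed n), (l.map orO).map piO = l := by
    intro l
    rw [List.map_map]
    have : (piO ∘ orO : Ed n → Ed n) = id := by
      funext e; exact piO_orO e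
    rw [this, List.map_id]
  have h1 := Lw_pull (k := ZMod 2) (sO (n := n)) (fun a x => cX (ZMod 2) a.1 x.1) sE eqv
    piO (u.map orO) (fun a _ x => rfl) (fun a _ x => eqv_piO a x) (w.map orO)
  have h2 := Lw_pull (k := ZMod 2) (sO (n := n)) (fun a x => cX (ZMod 2) a.1 x.1) sX
    (cX (ZMod 2)) Subtype.val (u.map orO) (fun a _ x => rfl) (fun a _ x => rfl) (w.map orO)
  rw [e1, e1] at h1
  rw [h1, ← h2] at h
  have h3 := Lw_ringHom (Int.castRingHom (ZMod 2)) sX (cX ℤ) (cX (ZMod 2))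
    (by intro a x; unfold cX; split_ifs <;> simp) ((u.map orO).map Subtype.val)
    ((w.map orO).map Subtype.val)
  have h4 := Lw_ringHom (Int.castRingHom ℚ) sX (cX ℤ) (cX ℚ)
    (by intro a x; unfold cX; split_ifs <;> simp) ((u.map orO).map Subtype.val)
    ((w.map orO).map Subtype.val)
  intro h0
  have e2 : u.map (fun e => (orO e).1) = (u.map orO).map Subtype.val := by
    rw [List.map_map]; rfl
  rw [e2] at h0
  rw [h0] at h4
  have h5 : Lw sX (cX ℤ) ((u.map orO).map Subtype.val) (dl (Fin n × Fin n) ℤ)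
      ((w.map orO).map Subtype.val) = 0 := by
    have h6 : ((Lw sX (cX ℤ) ((u.map orO).map Subtype.val) (dl (Fin n × Fin n) ℤ)
      ((w.map orO).map Subtype.val) : ℤ) : ℚ) = 0 := h4.symm
    exact_mod_cast h6
  rw [h5, map_zero] at h3
  exact h h3

theorem infinite_of_Ed (n N : ℕ) (G : SimpleGraph (Fin N)) (φ : Fin n → Fin N)
    (hφ : Function.Injective φ) (S : Set (Ed n))
    (hS : ∀ e ∈ S, ∀ a b, e.1 = s(a, b) → G.Adj (φ a) (φ b))
    (h : ∀ m : ℕ, ∃ u : List (Ed n), m ≤ u.length ∧ (∀ e ∈ u, e ∈ S) ∧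
      Lw sE eqv u (dl (Ed n) (ZMod 2)) ≠ 0) : ¬ FiniteDimensional ℚ (FKSub G) := by
  apply infinite_of_words
  intro m
  obtain ⟨u, hm, hu, hne⟩ := h m
  obtain ⟨w, hw⟩ := Function.ne_iff.1 hne
  have h1 := lift_words u w hw
  refine ⟨(u.map (fun e => (orO e).1)).map (Prod.map φ φ), by simpa using hm, ?_, ?_⟩
  · intro p hp
    rw [List.mem_map] at hp
    obtain ⟨q, hq, rfl⟩ := hp
    rw [List.mem_map] at hq
    obtain ⟨e, he, rfl⟩ := hq
    simp only [Prod.map_fst, Prod.map_snd]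
    apply hS e (hu e he)
    have := congrArg Subtype.val (piO_orO e)
    exact this.symm
  · intro h0
    apply h1
    funext w
    have h2 := Lw_pull (k := ℚ) sX (cX ℚ) sX (cX ℚ) (Prod.map φ φ)
      (u.map (fun e => (orO e).1))
      (by
        intro a _ x
        unfold sX
        simp only [Prod.map_fst, Prod.map_snd, hφ.swap_apply]
        rfl)
      (by
        intro a _ x
        unfold cX
        have e1 : (Prod.map φ φ x = Prod.map φ φ a) ↔ x = a :=
          (hφ.prodMap hφ).eq_iff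
        have e2 : (Prod.map φ φ x = (Prod.map φ φ a).swap) ↔ x = a.swap := by
          have : (Prod.map φ φ a).swap = Prod.map φ φ a.swap := rfl
          rw [this]
          exact (hφ.prodMap hφ).eq_iff
        simp only [e1, e2]) w
    rw [h0] at h2
    exact h2.symm

end Pool.Agent.H85.FK
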