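import Pool.Agent.H85.FK.HatG

/-!
The affine star with four legs: nonvanishing of iterated node operators, using the
eight-dimensional representation modulo two.
-/

namespace Pool.Agent.H85.FK

/-- weights of the star: node `0` is the centre, nodes `1, 2, 3, 4` are the legs -/
def M5 (i j : Fin 5) : ZMod 2 := if (i = 0) = (j = 0) then 0 else 1

abbrev M8 := Matrix (Fin 8) (Fin 8) (ZMod 2)

/-- sum of two matrix units -/
def mu2 (p q r s : Fin 8) : M8 := fun i j => if (i = p ∧ j = q) ∨ (i = r ∧ j = s) then 1 else 0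

/-- raising matrices -/
def X5 : Fin 5 → M8 := ![mu2 1 2 6 5, mu2 0 1 5 4, mu2 2 3 7 6, mu2 2 7 3 6, mu2 4 1 5 0]

/-- lowering matrices -/
def F5 : Fin 5 → M8 := ![mu2 2 1 5 6, mu2 1 0 4 5, mu2 3 2 6 7, mu2 6 3 7 2, mu2 0 5 1 4]

/-- weight matrices -/
def H5 (i : Fin 5) : M8 := F5 i * X5 i + X5 i * F5 i

theorem FX5 : ∀ i b : Fin 5, F5 i * X5 b + X5 b * F5 i = if b = i then H5 i else 0 := by
  unfold H5
  decide +kernel

theorem HX5 : ∀ i b : Fin 5, H5 i * X5 b + X5 b * H5 i = M5 i b • X5 b := by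
  unfold H5
  decide +kernel

/-- the commutator with a lowering matrix, as an additive map -/
def adF (i : Fin 5) : M8 →+ M8 :=
  AddMonoidHom.mulLeft (F5 i) + AddMonoidHom.mulRight (F5 i)

theorem adF_apply (i : Fin 5) (r : M8) : adF i r = F5 i * r + r * F5 i := rfl

/-- one period -/
def T8 : M8 →+ M8 :=
  (adF 0).comp ((adF 4).comp ((adF 3).comp ((adF 2).comp ((adF 0).comp (adF 1)))))

theorem T8_X : T8 (X5 1) = X5 1 := by
  show adF 0 (adF 4 (adF 3 (adF 2 (adF 0 (adF 1 (X5 1)))))) = X5 1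
  simp only [adF_apply]
  decide +kernel

/-- the functionals -/
def th : ℕ → (M8 →+ ZMod 2)
  | 0 => { toFun := fun m => m 0 1, map_zero' := rfl, map_add' := fun _ _ => rfl }
  | m + 1 => (th m).comp T8

theorem th_X (m : ℕ) : th m (X5 1) = 1 := by
  induction m with
  | zero => show X5 1 0 1 = 1; decide
  | succ m ih =>
    show th m (T8 (X5 1)) = 1
    rw [T8_X, ih]

/-- the node operator as a function -/
def DD (i : Fin 5) (v : List (Fin 5) → ZMod 2) : List (Fin 5) → ZMod 2 := fun u => Dg M5 i u v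

/-- the sequence of functions on node words -/
def ws : ℕ → List (Fin 5) → ZMod 2
  | 0 => fun u => if u = [1] then 1 else 0
  | m + 1 => DD 1 (DD 0 (DD 2 (DD 3 (DD 4 (DD 0 (ws m))))))

theorem hg_DD (i : Fin 5) (d : ℕ) (v : List (Fin 5) → ZMod 2) (θ : M8 →+ ZMod 2)
    (hd : 1 ≤ d) (hv : ∀ c : List (Fin 5), c.length = d → hg c v = θ (rg X5 c)) :
    ∀ c : List (Fin 5), c.length = d + 1 → hg c (DD i v) = (θ.comp (adF i)) (rg X5 c) := by
  intro c hc
  exact hg_D M5 X5 F5 H5 FX5 HX5 i c (by omega) v θ (fun c' hc' => hv c' (by omega))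

/-- the sequence of commutators -/
def cs5 : ℕ → List (Fin 5)
  | 0 => [1]
  | m + 1 => 1 :: 0 :: 2 :: 3 :: 4 :: 0 :: cs5 m

theorem cs5_length (m : ℕ) : (cs5 m).length = 6 * m + 1 := by
  induction m with
  | zero => rfl
  | succ m ih => simp only [cs5, List.length_cons, ih]; ring

theorem hg_ws (m : ℕ) : ∀ c : List (Fin 5), c.length = 6 * m + 1 →
    hg c (ws m) = th m (rg X5 c) := by
  induction m with
  | zero =>
    intro c hc
    match c with
    | [] => simp at hc
    | [b] =>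
      show ws 0 [b] = X5 b 0 1
      revert b; decide
    | b :: c :: t => simp at hc
  | succ m ih =>
    have h1 := hg_DD 0 (6 * m + 1) (ws m) (th m) (by omega) ih
    have h2 := hg_DD 4 (6 * m + 1 + 1) _ _ (by omega) h1
    have h3 := hg_DD 3 (6 * m + 1 + 1 + 1) _ _ (by omega) h2
    have h4 := hg_DD 2 (6 * m + 1 + 1 + 1 + 1) _ _ (by omega) h3
    have h5 := hg_DD 0 (6 * m + 1 + 1 + 1 + 1 + 1) _ _ (by omega) h4
    have h6 := hg_DD 1 (6 * m + 1 + 1 + 1 + 1 + 1 + 1) _ _ (by omega) h5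
    intro c hc
    exact h6 c (by omega)

theorem rg_cs5 (m : ℕ) : rg X5 (cs5 m) = X5 1 := by
  induction m with
  | zero => rfl
  | succ m ih =>
    have h : cs5 m ≠ [] := by cases m <;> simp [cs5]
    simp only [cs5]
    rw [rg_cons _ _ _ (by simp), rg_cons _ _ _ (by simp), rg_cons _ _ _ (by simp),
      rg_cons _ _ _ (by simp), rg_cons _ _ _ (by simp), rg_cons _ _ _ h, ih]
    decide +kernel

theorem ws_ne_zero (m : ℕ) : ws m ≠ 0 := by
  intro h
  have h1 := hg_ws m (cs5 m) (cs5_length m)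
  rw [h, rg_cs5, th_X] at h1
  have h3 : hg (cs5 m) 0 = 0 := hg_zero (cs5 m)
  rw [h3] at h1
  revert h1
  decide

end Pool.Agent.H85.FK
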