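import Pool.Agent.H85.FK.AbRack
import Pool.Agent.H85.FK.StarRep

/-!
The rack with nine letters and the leading terms of its iterated deletions.
-/

namespace Pool.Agent.H85.FK

/-- the nine letters -/
inductive A9
  | q : A9
  | l : ZMod 2 → A9
  | s : ZMod 2 → A9
  | z : ZMod 2 → ZMod 2 → A9
deriving DecidableEq, Fintype

abbrev C3 := ZMod 2 × ZMod 2 × ZMod 2

/-- class of a letter -/
def k9 : A9 → C3
  | A9.q => (1, 0, 0)
  | A9.l _ => (0, 0, 1)
  | A9.s _ => (0, 1, 0)
  | A9.z _ _ => (0, 0, 1)

/-- action of the classes -/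
def t9 (c : C3) : A9 → A9
  | A9.q => A9.q
  | A9.l t => A9.l (t + c.2.1)
  | A9.s t => A9.s (t + c.2.2)
  | A9.z j t => A9.z (j + c.1) (t + c.2.1)

theorem ab9 : AbR t9 k9 where
  tr0 := by decide
  trA := by
    rintro ⟨c1, c2, c3⟩ ⟨d1, d2, d3⟩ a
    cases a with
    | q => rfl
    | l t => simp only [t9, Prod.mk_add_mk]; congr 1; ring
    | s t => simp only [t9, Prod.mk_add_mk]; congr 1; ring
    | z j t => simp only [t9, Prod.mk_add_mk]; congr 1 <;> ring
  two := by decide
  ktr := by
    intro c a
    cases a <;> rfl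

abbrev L9 (a : A9) := LC t9 k9 a
abbrev R9 (a : A9) := RC t9 k9 a
abbrev c9 (w : List A9) : C3 := cnt k9 w

/-- is it the second test letter -/
def ib : A9 → ZMod 2
  | A9.z j _ => j
  | _ => 0

/-- the base letter -/
def bs : A9 → A9
  | A9.z _ t => A9.z 0 t
  | x => x

/-- removing a test letter -/
def fx (x : A9) (F : List A9 → ZMod 2) : List A9 → ZMod 2 :=
  fun v => F (x :: v) + ib x * F (bs x :: v)

/-- evaluation at a test word -/
def ev : List A9 → (List A9 → ZMod 2) → ZMod 2
  | [], F => F []
  | x :: u, F => ev u (fx x F)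

theorem fx_add (x : A9) (F G : List A9 → ZMod 2) : fx x (F + G) = fx x F + fx x G := by
  funext v; simp only [fx, Pi.add_apply]; ring

theorem fx_smul (x : A9) (c : ZMod 2) (F : List A9 → ZMod 2) : fx x (c • F) = c • fx x F := by
  funext v; simp only [fx, Pi.smul_apply, smul_eq_mul]; ring

theorem ev_add (u : List A9) : ∀ F G : List A9 → ZMod 2, ev u (F + G) = ev u F + ev u G := by
  induction u with
  | nil => intro F G; rfl
  | cons x u ih => intro F G; simp only [ev]; rw [fx_add, ih]

theorem ev_smul (u : List A9) : ∀ (c : ZMod 2) (F : List A9 → ZMod 2),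
    ev u (c • F) = c * ev u F := by
  induction u with
  | nil => intro c F; rfl
  | cons x u ih => intro c F; simp only [ev]; rw [fx_smul, ih]

theorem ev_cnt (u : List A9) : ∀ (P : C3 → ZMod 2) (F : List A9 → ZMod 2),
    ev u (fun v => P (c9 v) * F v) = P (c9 u) * ev u F := by
  induction u with
  | nil => intro P F; rfl
  | cons x u ih =>
    intro P F
    simp only [ev]
    have e : fx x (fun v => P (c9 v) * F v) =
        fun v => (fun n => P (k9 x + n)) (c9 v) * fx x F v := by
      funext v
      have h : k9 (bs x) = k9 x := by cases x <;> rfl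
      simp only [fx, c9, cnt, h]
      ring
    rw [e, ih (fun n => P (k9 x + n)) (fx x F)]
    rfl

/-- node of a letter: `0` centre, `1, 2, 3` legs, `4` the auxiliary letter -/
def nd : A9 → Fin 5
  | A9.q => 4
  | A9.l _ => 1
  | A9.s _ => 0
  | A9.z j _ => if j = 0 then 2 else 3

/-- number of second test letters -/
def Np (u : List A9) : ℤ := ((u.map nd).count 3 : ℕ)

theorem Np_cons (x : A9) (u : List A9) : Np (x :: u) = Np u + if nd x = 3 then 1 else 0 := by
  unfold Np
  rw [List.map_cons, List.count_cons]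
  by_cases h : nd x = 3
  · simp [h]
  · have : (nd x == 3) = false := by simpa using h
    simp [h]

theorem Np_nonneg (u : List A9) : 0 ≤ Np u := by unfold Np; positivity

/-- leading behaviour of a function -/
def Lead (k : ℤ) (v : List (Fin 5) → ZMod 2) (F : List A9 → ZMod 2) : Prop :=
  ∀ u, k ≤ Np u → ev u F = if Np u = k then v (u.map nd) else 0

theorem lead_cons {k : ℤ} {v : List (Fin 5) → ZMod 2} {F : List A9 → ZMod 2}
    (h : Lead k v F) (x : A9) :
    Lead (k - if nd x = 3 then 1 else 0) (fun u => v (nd x :: u)) (fx x F) := by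
  intro u hu
  have h1 := h (x :: u) (by rw [Np_cons]; linarith)
  rw [Np_cons] at h1
  have h2 : ev (x :: u) F = ev u (fx x F) := rfl
  rw [← h2, h1]
  by_cases h3 : Np u = k - if nd x = 3 then 1 else 0
  · rw [if_pos h3, if_pos (by linarith)]; rfl
  · rw [if_neg h3, if_neg (by intro h4; apply h3; linarith)]

theorem lead_add {k : ℤ} {v v' : List (Fin 5) → ZMod 2} {F F' : List A9 → ZMod 2}
    (h : Lead k v F) (h' : Lead k v' F') : Lead k (fun u => v u + v' u) (F + F') := by
  intro u hu
  rw [ev_add, h u hu, h' u hu]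
  split_ifs <;> simp

/-- the leading function of a generalised deletion -/
def PP (δ : ℤ) (p : List A9 → A9 → ZMod 2)
    (qh : (List (Fin 5) → ZMod 2) → List (Fin 5) → ZMod 2) :
    List A9 → (List (Fin 5) → ZMod 2) → ZMod 2
  | [], _ => 0
  | x :: u, v => (if δ = 1 ∧ nd x ≠ 3 then 0 else p u x) * qh v (u.map nd) +
      PP δ p qh u (fun w => v (nd x :: w))

theorem lead_gen (δ : ℤ) (O Q : (List A9 → ZMod 2) → (List A9 → ZMod 2))
    (qh : (List (Fin 5) → ZMod 2) → List (Fin 5) → ZMod 2) (p : List A9 → A9 → ZMod 2)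
    (σ ρ : A9 → A9) (e : A9 → ZMod 2) (hδ : δ = 0 ∨ δ = 1)
    (h0 : ∀ F, O F [] = 0)
    (hO : ∀ F x u, ev (x :: u) (O F) = p u x * ev u (Q F) + ev u (O (fx (σ x) F)) +
      e x * ev u (O (fx (ρ x) F)))
    (hσ : ∀ x, nd (σ x) = nd x)
    (he : ∀ x, e x ≠ 0 → nd x ≠ 3 ∧ nd (ρ x) = 3)
    (hQ : ∀ k v F, Lead k v F → Lead k (qh v) (Q F))
    (hp : δ = 0 → ∀ u x, nd x = 3 → p u x = 0) (u : List A9) :
    ∀ (k : ℤ) (v : List (Fin 5) → ZMod 2) (F : List A9 → ZMod 2), Lead k v F →
      k + δ ≤ Np u → ev u (O F) = if Np u = k + δ then PP δ p qh u v else 0 := by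
  induction u with
  | nil =>
    intro k v F _ _
    show O F [] = _
    rw [h0]
    split_ifs <;> rfl
  | cons x u ih =>
    intro k v F hF hu
    rw [hO]
    rw [Np_cons] at hu ⊢
    -- second term
    have hF2 := lead_cons hF (σ x)
    rw [hσ] at hF2
    have t2 := ih _ _ _ hF2 (by linarith)
    -- third term
    have t3 : e x * ev u (O (fx (ρ x) F)) = 0 := by
      by_cases hex : e x = 0
      · rw [hex, zero_mul]
      · obtain ⟨h1, h2⟩ := he x hex
        have hF3 := lead_cons hF (ρ x)
        rw [h2, if_pos rfl] at hF3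
        rw [if_neg h1] at hu
        have := ih _ _ _ hF3 (by linarith)
        rw [this, if_neg (by intro h'; linarith), mul_zero]
    -- first term
    have t1 : p u x * ev u (Q F) = if Np u + (if nd x = 3 then 1 else 0) = k + δ then
        (if δ = 1 ∧ nd x ≠ 3 then 0 else p u x) * qh v (u.map nd) else 0 := by
      have hQF := hQ k v F hF
      by_cases hx : nd x = 3
      · simp only [hx, if_true] at hu ⊢
        rcases hδ with hd | hd
        · rw [hp hd u x hx]; simp
        · subst hd
          rw [hQF u (by linarith)]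
          by_cases h1 : Np u = k
          · rw [if_pos h1, if_pos (by linarith)]; simp
          · rw [if_neg h1, if_neg (by intro h'; apply h1; linarith)]; simp
      · simp only [hx, if_false] at hu ⊢
        rcases hδ with hd | hd
        · subst hd
          rw [hQF u (by linarith)]
          by_cases h1 : Np u = k
          · rw [if_pos h1, if_pos (by linarith)]; simp
          · rw [if_neg h1, if_neg (by intro h'; apply h1; linarith)]; simp
        · subst hd
          rw [hQF u (by linarith), if_neg (by intro h'; linarith)]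
          simp [hx]
    rw [t1, t2, t3, add_zero]
    by_cases h1 : Np u + (if nd x = 3 then 1 else 0) = k + δ
    · have h1' : Np u = (k - if nd x = 3 then 1 else 0) + δ := by linarith
      rw [if_pos h1, if_pos h1', if_pos h1]
      rfl
    · have h1' : ¬ Np u = (k - if nd x = 3 then 1 else 0) + δ := by
        intro h'; apply h1; linarith
      rw [if_neg h1, if_neg h1', if_neg h1, add_zero]

end Pool.Agent.H85.FK
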