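import Pool.Agent.H85.FK.Nine

/-!
Leading terms of commutators with letters for the rack with nine letters.
-/

namespace Pool.Agent.H85.FK

open A9

/-- weights on nodes -/
def Mn (i j : Fin 5) : ZMod 2 :=
  if i = 0 then (if j = 1 ∨ j = 2 ∨ j = 3 then 1 else 0) else (if j = 0 then 1 else 0)

/-- pairing of a letter with a test letter -/
def pz (c x : A9) : ZMod 2 := eqv c x + ib x * eqv c (bs x)

theorem fx_R (c x : A9) (F : List A9 → ZMod 2) :
    fx x (R9 c F) = (fun v => pz (t9 (c9 v) c) x * F v) + R9 c (fx x F) := by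
  have e : fx x F = (fun v => F (x :: v)) + ib x • (fun v => F (bs x :: v)) := rfl
  rw [e, map_add, map_smul]
  funext v
  simp only [fx, Pi.add_apply, Pi.smul_apply, smul_eq_mul, pz]
  rw [RC_cons, RC_cons]
  ring

theorem fx_L (c x : A9) (hc : (k9 c).1 = 0) (F : List A9 → ZMod 2) :
    fx x (L9 c F) = pz c x • F + L9 c (fx (t9 (k9 c) x) F) := by
  have h1 : bs (t9 (k9 c) x) = t9 (k9 c) (bs x) := by
    cases x <;> simp [bs, t9, hc]
  have h2 : ib (t9 (k9 c) x) = ib x := by
    cases x <;> simp [ib, t9, hc]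
  have e : fx (t9 (k9 c) x) F = (fun v => F (t9 (k9 c) x :: v)) +
      ib x • (fun v => F (t9 (k9 c) (bs x) :: v)) := by
    funext v; simp only [fx, h1, h2]; rfl
  rw [e, map_add, map_smul]
  funext v
  simp only [fx, Pi.add_apply, Pi.smul_apply, smul_eq_mul, pz]
  rw [LC_cons, LC_cons]
  simp only [sC]
  ring

/-- correction coefficient -/
def e9 : A9 → ZMod 2
  | z j _ => 1 + j
  | _ => 0

/-- correction letter -/
def rh : A9 → A9
  | z _ t => z 1 t
  | x => x

theorem fx_Lq (x : A9) (F : List A9 → ZMod 2) :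
    fx x (L9 q F) = (if x = q then (1 : ZMod 2) else 0) • F + L9 q (fx x F) +
      e9 x • L9 q (fx (rh x) F) := by
  have e : ∀ y, fx y F = (fun v => F (y :: v)) + ib y • (fun v => F (bs y :: v)) := fun y => rfl
  rw [e, e, map_add, map_smul, map_add, map_smul]
  funext v
  simp only [fx, Pi.add_apply, Pi.smul_apply, smul_eq_mul]
  rw [LC_cons, LC_cons]
  simp only [sC]
  cases x with
  | q => simp [eqv, ib, e9, rh, bs, k9, t9]
  | l t => simp [eqv, ib, e9, rh, bs, k9, t9]
  | s t => simp [eqv, ib, e9, rh, bs, k9, t9]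
  | z j t =>
    have : ∀ j : ZMod 2, j = 0 ∨ j = 1 := by decide
    rcases this j with h | h
    · subst h
      simp only [eqv, ib, e9, rh, bs, k9, t9]
      have h2 : ∀ a b : ZMod 2, b = a + (b + a) := by decide
      simp
      exact h2 _ _
    · subst h
      simp only [eqv, ib, e9, rh, bs, k9, t9]
      have h2 : (1 : ZMod 2) + 1 = 0 := by decide
      simp [h2]
      ring

theorem PP_add (δ : ℤ) (p p' : List A9 → A9 → ZMod 2)
    (qh : (List (Fin 5) → ZMod 2) → List (Fin 5) → ZMod 2) (u : List A9) :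
    ∀ v : List (Fin 5) → ZMod 2, PP δ p qh u v + PP δ p' qh u v =
      PP δ (fun u x => p u x + p' u x) qh u v := by
  induction u with
  | nil => intro v; simp [PP]
  | cons x u ih =>
    intro v
    simp only [PP]
    rw [← ih]
    split_ifs <;> ring

theorem PP_D (δ : ℤ) (p : List A9 → A9 → ZMod 2) (i : Fin 5)
    (hp : ∀ u x, (if δ = 1 ∧ nd x ≠ 3 then 0 else p u x) =
      if nd x = i then mc Mn i (u.map nd) else 0) (u : List A9) :
    ∀ v : List (Fin 5) → ZMod 2, PP δ p id u v = Dg Mn i (u.map nd) v := by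
  induction u with
  | nil => intro v; rfl
  | cons x u ih =>
    intro v
    simp only [PP, List.map_cons, Dg]
    rw [hp, ih]; rfl

/-- the operator `D` for the composite letter -/
def DY : List (Fin 5) → (List (Fin 5) → ZMod 2) → ZMod 2
  | [], _ => 0
  | j :: w, v => (if j = 2 then mc Mn 2 w else 0) * dg 4 w v + DY w (fun u => v (j :: u))

theorem PP_Y (p : List A9 → A9 → ZMod 2)
    (hp : ∀ u x, p u x = if nd x = 2 then mc Mn 2 (u.map nd) else 0) (u : List A9) :
    ∀ v : List (Fin 5) → ZMod 2, PP 0 p (fun v u => dg 4 u v) u v = DY (u.map nd) v := by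
  induction u with
  | nil => intro v; rfl
  | cons x u ih =>
    intro v
    simp only [PP, List.map_cons, DY]
    rw [hp, ih]
    simp

theorem mc_leg (i : Fin 5) (hi : i ≠ 0) (u : List A9) : mc Mn i (u.map nd) = (c9 u).2.1 := by
  induction u with
  | nil => rfl
  | cons x u ih =>
    simp only [List.map_cons, mc, ih, c9, cnt, Mn, hi, if_false]
    rw [Prod.snd_add, Prod.fst_add]
    congr 1
    cases x with
    | q => rfl
    | l t => rfl
    | s t => rfl
    | z j t => simp only [nd, k9]; split_ifs <;> simp_all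

theorem mc_ctr (u : List A9) : mc Mn 0 (u.map nd) = (c9 u).2.2 := by
  induction u with
  | nil => rfl
  | cons x u ih =>
    simp only [List.map_cons, mc, ih, c9, cnt, Mn, if_true]
    rw [Prod.snd_add, Prod.snd_add]
    congr 1
    cases x with
    | q => rfl
    | l t => rfl
    | s t => rfl
    | z j t => simp only [nd, k9]; split_ifs <;> simp_all

theorem ev_R (c x : A9) (F : List A9 → ZMod 2) (u : List A9) :
    ev (x :: u) (R9 c F) = pz (t9 (c9 u) c) x * ev u F + ev u (R9 c (fx x F)) := by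
  show ev u (fx x (R9 c F)) = _
  rw [fx_R, ev_add, ev_cnt u (fun n => pz (t9 n c) x) F]

theorem ev_L (c x : A9) (hc : (k9 c).1 = 0) (F : List A9 → ZMod 2) (u : List A9) :
    ev (x :: u) (L9 c F) = pz c x * ev u F + ev u (L9 c (fx (t9 (k9 c) x) F)) := by
  show ev u (fx x (L9 c F)) = _
  rw [fx_L c x hc, ev_add, ev_smul]

theorem ev_Lq (x : A9) (F : List A9 → ZMod 2) (u : List A9) :
    ev (x :: u) (L9 q F) = (if x = q then 1 else 0) * ev u F + ev u (L9 q (fx x F)) +
      e9 x * ev u (L9 q (fx (rh x) F)) := by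
  show ev u (fx x (L9 q F)) = _
  rw [fx_Lq, ev_add, ev_add, ev_smul, ev_smul]

theorem nd_t9 (c : C3) (hc : c.1 = 0) (x : A9) : nd (t9 c x) = nd x := by
  cases x <;> simp [nd, t9, hc]

theorem lead_id (k : ℤ) (v : List (Fin 5) → ZMod 2) (F : List A9 → ZMod 2)
    (h : Lead k v F) : Lead k (id v) (id F) := h

theorem he9 (x : A9) (hx : e9 x ≠ 0) : nd x ≠ 3 ∧ nd (rh x) = 3 := by
  revert x; decide

theorem dg_node (p : List A9 → A9 → ZMod 2)
    (hp : ∀ u x, p u x = if nd x = 4 then 1 else 0) (u : List A9) :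
    ∀ v : List (Fin 5) → ZMod 2, PP 0 p id u v = dg 4 (u.map nd) v := by
  induction u with
  | nil => intro v; rfl
  | cons x u ih =>
    intro v
    simp only [PP, List.map_cons, dg]
    rw [hp, ih]
    simp

theorem lead_Lq (k : ℤ) (v : List (Fin 5) → ZMod 2) (F : List A9 → ZMod 2)
    (h : Lead k v F) : Lead k (fun u => dg 4 u v) (L9 q F) := by
  intro u hu
  have := lead_gen 0 (fun F => L9 q F) id id (fun _ x => if x = q then 1 else 0) id rh e9
    (Or.inl rfl) (fun F => rfl) (fun F x u => ev_Lq x F u) (fun x => rfl) he9 lead_id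
    (fun _ u x hx => by revert x; decide) u k v F h (by linarith)
  rw [add_zero] at this
  rw [this, dg_node _ (fun u x => by revert x; decide)]

theorem lead_Rq (k : ℤ) (v : List (Fin 5) → ZMod 2) (F : List A9 → ZMod 2)
    (h : Lead k v F) : Lead k (fun u => dg 4 u v) (R9 q F) := by
  intro u hu
  have := lead_gen 0 (fun F => R9 q F) id id (fun u x => pz (t9 (c9 u) q) x) id id (fun _ => 0)
    (Or.inl rfl) (fun F => rfl) (fun F x u => by rw [ev_R]; simp) (fun x => rfl)
    (fun x hx => absurd rfl hx) lead_id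
    (fun _ u x hx => by show pz q x = 0; revert x; decide) u k v F h (by linarith)
  rw [add_zero] at this
  rw [this, dg_node _ (fun u x => by show pz q x = _; revert x; decide)]

/-- combining left and right parts -/
theorem lead_LR (δ : ℤ) (O1 O2 : (List A9 → ZMod 2) → (List A9 → ZMod 2))
    (qh : (List (Fin 5) → ZMod 2) → List (Fin 5) → ZMod 2) (p1 p2 : List A9 → A9 → ZMod 2)
    (D : List (Fin 5) → (List (Fin 5) → ZMod 2) → ZMod 2)
    (h1 : ∀ (u : List A9) (k : ℤ) (v : List (Fin 5) → ZMod 2) (F : List A9 → ZMod 2),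
      Lead k v F → k + δ ≤ Np u → ev u (O1 F) = if Np u = k + δ then PP δ p1 qh u v else 0)
    (h2 : ∀ (u : List A9) (k : ℤ) (v : List (Fin 5) → ZMod 2) (F : List A9 → ZMod 2),
      Lead k v F → k + δ ≤ Np u → ev u (O2 F) = if Np u = k + δ then PP δ p2 qh u v else 0)
    (hD : ∀ u v, PP δ (fun u x => p1 u x + p2 u x) qh u v = D (u.map nd) v)
    (k : ℤ) (v : List (Fin 5) → ZMod 2) (F : List A9 → ZMod 2) (hF : Lead k v F) :
    Lead (k + δ) (fun u => D u v) (O1 F + O2 F) := by
  intro u hu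
  show _ = if Np u = k + δ then D (u.map nd) v else 0
  rw [ev_add, h1 u k v F hF hu, h2 u k v F hF hu, ← hD, ← PP_add]
  split_ifs <;> simp

theorem lead_l (k : ℤ) (v : List (Fin 5) → ZMod 2) (F : List A9 → ZMod 2)
    (h : Lead k v F) : Lead k (fun u => Dg Mn 1 u v) (L9 (l 0) F + R9 (l 0) F) := by
  have := lead_LR 0 (fun F => L9 (l 0) F) (fun F => R9 (l 0) F) id (fun _ x => pz (l 0) x)
    (fun u x => pz (t9 (c9 u) (l 0)) x) (fun u v => Dg Mn 1 u v)
    (lead_gen 0 _ id id _ (t9 (k9 (l 0))) id (fun _ => 0) (Or.inl rfl) (fun F => rfl)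
      (fun F x u => by rw [ev_L _ _ rfl]; simp) (fun x => nd_t9 _ rfl x)
      (fun x hx => absurd rfl hx) lead_id (fun _ u x hx => by revert x; decide))
    (lead_gen 0 _ id id _ id id (fun _ => 0) (Or.inl rfl) (fun F => rfl)
      (fun F x u => by rw [ev_R]; simp) (fun x => rfl)
      (fun x hx => absurd rfl hx) lead_id
      (fun _ u x hx => by generalize c9 u = n; revert n x; decide))
    (fun u v => PP_D 0 _ 1 (fun u x => by
      rw [mc_leg 1 (by decide)]
      generalize c9 u = n
      revert n x; decide) u v) k v F h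
  rw [add_zero] at this
  exact this

theorem lead_s (k : ℤ) (v : List (Fin 5) → ZMod 2) (F : List A9 → ZMod 2)
    (h : Lead k v F) : Lead k (fun u => Dg Mn 0 u v) (L9 (s 0) F + R9 (s 0) F) := by
  have := lead_LR 0 (fun F => L9 (s 0) F) (fun F => R9 (s 0) F) id (fun _ x => pz (s 0) x)
    (fun u x => pz (t9 (c9 u) (s 0)) x) (fun u v => Dg Mn 0 u v)
    (lead_gen 0 _ id id _ (t9 (k9 (s 0))) id (fun _ => 0) (Or.inl rfl) (fun F => rfl)
      (fun F x u => by rw [ev_L _ _ rfl]; simp) (fun x => nd_t9 _ rfl x)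
      (fun x hx => absurd rfl hx) lead_id (fun _ u x hx => by revert x; decide))
    (lead_gen 0 _ id id _ id id (fun _ => 0) (Or.inl rfl) (fun F => rfl)
      (fun F x u => by rw [ev_R]; simp) (fun x => rfl)
      (fun x hx => absurd rfl hx) lead_id
      (fun _ u x hx => by generalize c9 u = n; revert n x; decide))
    (fun u v => PP_D 0 _ 0 (fun u x => by
      rw [mc_ctr]
      generalize c9 u = n
      revert n x; decide) u v) k v F h
  rw [add_zero] at this
  exact this

theorem lead_a (k : ℤ) (v : List (Fin 5) → ZMod 2) (F : List A9 → ZMod 2)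
    (h : Lead k v F) : Lead k (fun u => Dg Mn 2 u v)
      ((L9 (z 0 0) F + L9 (z 1 0) F) + (R9 (z 0 0) F + R9 (z 1 0) F)) := by
  have := lead_LR 0 (fun F => L9 (z 0 0) F + L9 (z 1 0) F)
    (fun F => R9 (z 0 0) F + R9 (z 1 0) F) id (fun _ x => pz (z 0 0) x + pz (z 1 0) x)
    (fun u x => pz (t9 (c9 u) (z 0 0)) x + pz (t9 (c9 u) (z 1 0)) x)
    (fun u v => Dg Mn 2 u v)
    (lead_gen 0 _ id id _ (t9 (k9 (z 0 0))) id (fun _ => 0) (Or.inl rfl) (fun F => rfl)
      (fun F x u => by
        rw [ev_add, ev_add, ev_L _ _ rfl, ev_L _ _ rfl]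
        show _ = (pz (z 0 0) x + pz (z 1 0) x) * ev u F +
          (ev u (L9 (z 0 0) (fx (t9 (k9 (z 0 0)) x) F)) +
            ev u (L9 (z 1 0) (fx (t9 (k9 (z 1 0)) x) F))) + 0 * _
        ring) (fun x => nd_t9 _ rfl x)
      (fun x hx => absurd rfl hx) lead_id (fun _ u x hx => by revert x; decide))
    (lead_gen 0 _ id id _ id id (fun _ => 0) (Or.inl rfl) (fun F => rfl)
      (fun F x u => by
        rw [ev_add, ev_add, ev_R, ev_R]
        simp only [id]
        ring) (fun x => rfl)
      (fun x hx => absurd rfl hx) lead_id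
      (fun _ u x hx => by generalize c9 u = n; revert n x; decide))
    (fun u v => PP_D 0 _ 2 (fun u x => by
      rw [mc_leg 2 (by decide)]
      generalize c9 u = n
      revert n x; decide) u v) k v F h
  rw [add_zero] at this
  exact this

theorem lead_b (k : ℤ) (v : List (Fin 5) → ZMod 2) (F : List A9 → ZMod 2)
    (h : Lead k v F) : Lead (k + 1) (fun u => Dg Mn 3 u v) (L9 (z 1 0) F + R9 (z 1 0) F) := by
  exact lead_LR 1 (fun F => L9 (z 1 0) F) (fun F => R9 (z 1 0) F) id (fun _ x => pz (z 1 0) x)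
    (fun u x => pz (t9 (c9 u) (z 1 0)) x) (fun u v => Dg Mn 3 u v)
    (lead_gen 1 _ id id _ (t9 (k9 (z 1 0))) id (fun _ => 0) (Or.inr rfl) (fun F => rfl)
      (fun F x u => by rw [ev_L _ _ rfl]; simp) (fun x => nd_t9 _ rfl x)
      (fun x hx => absurd rfl hx) lead_id (fun hd => absurd hd (by decide)))
    (lead_gen 1 _ id id _ id id (fun _ => 0) (Or.inr rfl) (fun F => rfl)
      (fun F x u => by rw [ev_R]; simp) (fun x => rfl)
      (fun x hx => absurd rfl hx) lead_id
      (fun hd => absurd hd (by decide)))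
    (fun u v => PP_D 1 _ 3 (fun u x => by
      rw [mc_leg 3 (by decide)]
      generalize c9 u = n
      revert n x; decide) u v) k v F h

/-- left operator of the composite letter -/
def LY (F : List A9 → ZMod 2) : List A9 → ZMod 2 :=
  L9 (z 0 0) (L9 q F) + L9 q (L9 (z 0 0) F)

/-- right operator of the composite letter -/
def RY (F : List A9 → ZMod 2) : List A9 → ZMod 2 :=
  R9 q (R9 (z 0 0) F) + R9 (z 0 0) (R9 q F)

theorem fx_LY (x : A9) (F : List A9 → ZMod 2) :
    fx x (LY F) = (e9 x * pz (z 0 0) (rh x)) • L9 q F + LY (fx (t9 (k9 (z 0 0)) x) F) +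
      e9 x • LY (fx (rh (t9 (k9 (z 0 0)) x)) F) := by
  unfold LY
  have e1 : e9 (t9 (k9 (z 0 0)) x) = e9 x := by revert x; decide
  have e2 : t9 (k9 (z 0 0)) (rh x) = rh (t9 (k9 (z 0 0)) x) := by revert x; decide
  have e3 : (if t9 (k9 (z 0 0)) x = q then (1 : ZMod 2) else 0) = if x = q then 1 else 0 := by
    revert x; decide
  rw [fx_add, fx_L _ _ rfl, fx_Lq, fx_Lq, fx_L _ _ rfl, fx_L _ _ rfl, e1, e2, e3]
  simp only [map_add, map_smul]
  funext v
  simp only [Pi.add_apply, Pi.smul_apply, smul_eq_mul]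
  have dbl : ∀ p : ZMod 2, p + p = 0 := by decide
  linear_combination dbl (pz (z 0 0) x * L9 q F v) +
    dbl ((if x = q then 1 else 0) * L9 (z 0 0) F v)

theorem fx_RY (x : A9) (F : List A9 → ZMod 2) :
    fx x (RY F) = (fun v => (pz (t9 (c9 v + (1, 0, 0)) (z 0 0)) x + pz (t9 (c9 v) (z 0 0)) x) *
      R9 q F v) + RY (fx x F) := by
  unfold RY
  rw [fx_add, fx_R, fx_R, fx_R, fx_R]
  simp only [map_add]
  have e1 : R9 q (fun v => pz (t9 (c9 v) (z 0 0)) x * F v) =
      fun v => pz (t9 (c9 v + (1, 0, 0)) (z 0 0)) x * R9 q F v := by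
    funext v
    exact RC_cnt ab9 q v (fun n => pz (t9 n (z 0 0)) x) F
  have e2 : R9 (z 0 0) (fun v => pz (t9 (c9 v) q) x * F v) =
      fun v => pz (t9 (c9 v) q) x * R9 (z 0 0) F v := by
    funext v
    exact RC_cnt ab9 (z 0 0) v (fun n => pz (t9 n q) x) F
  rw [e1, e2]
  funext v
  simp only [Pi.add_apply]
  have dbl : ∀ p : ZMod 2, p + p = 0 := by decide
  linear_combination dbl (pz (t9 (c9 v) q) x * R9 (z 0 0) F v)

theorem lead_Y (k : ℤ) (v : List (Fin 5) → ZMod 2) (F : List A9 → ZMod 2)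
    (h : Lead k v F) : Lead k (fun u => DY u v) (LY F + RY F) := by
  have := lead_LR 0 LY RY (fun v u => dg 4 u v)
    (fun _ x => e9 x * pz (z 0 0) (rh x))
    (fun u x => pz (t9 (c9 u + (1, 0, 0)) (z 0 0)) x + pz (t9 (c9 u) (z 0 0)) x)
    (fun u v => DY u v)
    (lead_gen 0 LY (fun F => L9 q F) _ _ (t9 (k9 (z 0 0)))
      (fun x => rh (t9 (k9 (z 0 0)) x)) e9 (Or.inl rfl) (fun F => rfl)
      (fun F x u => by
        show ev u (fx x (LY F)) = _
        rw [fx_LY, ev_add, ev_add, ev_smul, ev_smul]) (fun x => nd_t9 _ rfl x)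
      (fun x hx => by
        refine ⟨(he9 x hx).1, ?_⟩
        revert x; decide) lead_Lq (fun _ u x hx => by revert x; decide))
    (lead_gen 0 RY (fun F => R9 q F) _ _ id id (fun _ => 0) (Or.inl rfl) (fun F => rfl)
      (fun F x u => by
        show ev u (fx x (RY F)) = _
        rw [fx_RY, ev_add,
          ev_cnt u (fun n => pz (t9 (n + (1, 0, 0)) (z 0 0)) x + pz (t9 n (z 0 0)) x)]
        simp only [id]
        ring) (fun x => rfl)
      (fun x hx => absurd rfl hx) lead_Rq
      (fun _ u x hx => by generalize c9 u = n; revert n x; decide))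
    (fun u v => PP_Y _ (fun u x => by
      rw [mc_leg 2 (by decide)]
      generalize c9 u = n
      revert n x; decide) u v) k v F h
  rw [add_zero] at this
  exact this

end Pool.Agent.H85.FK
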