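import Mathlib

/-!
The basic deletion operators on functions on words, over an arbitrary commutative ring.
-/

namespace Pool.Agent.H85.FK

section Basic

variable {A B : Type*} {k k' : Type*} [CommRing k] [CommRing k']

/-- The deletion operator evaluated at a word. -/
def del (s : A → A → A) (χ : A → A → k) (a : A) : List A → (List A → k) → k
  | [], _ => 0
  | x :: w, F => χ a x * F w + del s χ a w (fun v => F (s a x :: v))

theorem del_add (s : A → A → A) (χ : A → A → k) (a : A) (w : List A) :
    ∀ F G : List A → k, del s χ a w (F + G) = del s χ a w F + del s χ a w G := by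
  induction w with
  | nil => intro F G; simp [del]
  | cons x w ih =>
    intro F G
    have h := ih (fun v => F (s a x :: v)) (fun v => G (s a x :: v))
    simp only [del, Pi.add_apply]
    have e : (fun v => F (s a x :: v) + G (s a x :: v)) =
      (fun v => F (s a x :: v)) + (fun v => G (s a x :: v)) := rfl
    rw [e, h]; ring

theorem del_smul (s : A → A → A) (χ : A → A → k) (a : A) (w : List A) :
    ∀ (c : k) (F : List A → k), del s χ a w (c • F) = c * del s χ a w F := by
  induction w with
  | nil => intro c F; simp [del]
  | cons x w ih =>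
    intro c F
    have h := ih c (fun v => F (s a x :: v))
    simp only [del, Pi.smul_apply, smul_eq_mul]
    have e : (fun v => c * F (s a x :: v)) = c • (fun v => F (s a x :: v)) := rfl
    rw [e, h]; ring

/-- The deletion operator as a linear map on functions on words. -/
def L (s : A → A → A) (χ : A → A → k) (a : A) : (List A → k) →ₗ[k] (List A → k) where
  toFun F := fun w => del s χ a w F
  map_add' F G := by funext w; exact del_add s χ a w F G
  map_smul' c F := by funext w; exact del_smul s χ a w c F

theorem L_nil (s : A → A → A) (χ : A → A → k) (a : A) (F : List A → k) :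
    L s χ a F [] = 0 := rfl

theorem L_cons (s : A → A → A) (χ : A → A → k) (a : A) (F : List A → k) (x : A) (w : List A) :
    L s χ a F (x :: w) = χ a x * F w + L s χ a (fun v => F (s a x :: v)) w := rfl

theorem L_L_cons (s : A → A → A) (χ : A → A → k) (a b : A) (F : List A → k) (x : A)
    (w : List A) :
    L s χ a (L s χ b F) (x :: w) = χ a x * L s χ b F w + χ b (s a x) * L s χ a F w +
      L s χ a (L s χ b (fun v => F (s b (s a x) :: v))) w := by
  rw [L_cons]
  have e : (fun v => L s χ b F (s a x :: v)) =
      χ b (s a x) • F + L s χ b (fun v => F (s b (s a x) :: v)) := by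
    funext v; rw [L_cons]; rfl
  rw [e, map_add, map_smul]
  simp only [Pi.add_apply, Pi.smul_apply, smul_eq_mul]
  ring

/-- The delta function at the empty word. -/
def dl (A : Type*) (k : Type*) [CommRing k] : List A → k
  | [] => 1
  | _ :: _ => 0

/-- Iterated deletion operators applied to a function. -/
def Lw (s : A → A → A) (χ : A → A → k) (w : List A) (F : List A → k) : List A → k :=
  w.foldr (fun a G => L s χ a G) F

@[simp] theorem Lw_nil (s : A → A → A) (χ : A → A → k) (F : List A → k) :
    Lw s χ [] F = F := rfl

@[simp] theorem Lw_cons (s : A → A → A) (χ : A → A → k) (a : A) (w : List A)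
    (F : List A → k) : Lw s χ (a :: w) F = L s χ a (Lw s χ w F) := rfl

theorem Lw_append (s : A → A → A) (χ : A → A → k) (u w : List A)
    (F : List A → k) : Lw s χ (u ++ w) F = Lw s χ u (Lw s χ w F) := by
  induction u with
  | nil => rfl
  | cons a u ih => simp [ih]

/-- A function is supported on words of length `d`. -/
def Supp (d : ℕ) (F : List A → k) : Prop := ∀ w, w.length ≠ d → F w = 0

theorem L_supp (s : A → A → A) (χ : A → A → k) (a : A) (w : List A) :
    ∀ (d : ℕ) (F : List A → k), Supp d F → w.length ≠ d + 1 → L s χ a F w = 0 := by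
  induction w with
  | nil => intro d F _ _; rfl
  | cons x w ih =>
    intro d F hF hw
    have hw' : w.length ≠ d := by simpa using hw
    rw [L_cons, hF w hw', mul_zero, zero_add]
    rcases d with _ | d
    · have : (fun v => F (s a x :: v)) = 0 := by
        funext v; exact hF _ (by simp)
      rw [this, map_zero]; rfl
    · apply ih d
      · intro v hv; apply hF; simpa using hv
      · simpa using hw'

theorem supp_L (s : A → A → A) (χ : A → A → k) (a : A) (d : ℕ) (F : List A → k)
    (hF : Supp d F) : Supp (d + 1) (L s χ a F) := fun w hw => L_supp s χ a w d F hF hw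

theorem supp_dl : Supp 0 (dl A k) := by
  intro w hw
  cases w with
  | nil => simp at hw
  | cons x w => rfl

theorem supp_Lw (s : A → A → A) (χ : A → A → k) (w : List A) :
    Supp w.length (Lw s χ w (dl A k)) := by
  induction w with
  | nil => exact supp_dl
  | cons a w ih => simpa using supp_L s χ a _ _ ih

/-- Naturality in the letters. -/
theorem L_pull (s : A → A → A) (χ : A → A → k) (s' : B → B → B) (χ' : B → B → k)
    (φ : A → B) (a : A) (hs : ∀ x, s' (φ a) (φ x) = φ (s a x))
    (hχ : ∀ x, χ' (φ a) (φ x) = χ a x) (w : List A) : ∀ F : List B → k,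
    L s' χ' (φ a) F (w.map φ) = L s χ a (fun v => F (v.map φ)) w := by
  induction w with
  | nil => intro F; rfl
  | cons x w ih =>
    intro F
    rw [List.map_cons, L_cons, L_cons, hχ, ih, hs]
    rfl

theorem Lw_pull (s : A → A → A) (χ : A → A → k) (s' : B → B → B) (χ' : B → B → k)
    (φ : A → B) (u : List A) (hs : ∀ a ∈ u, ∀ x, s' (φ a) (φ x) = φ (s a x))
    (hχ : ∀ a ∈ u, ∀ x, χ' (φ a) (φ x) = χ a x) : ∀ w : List A,
    Lw s' χ' (u.map φ) (dl B k) (w.map φ) = Lw s χ u (dl A k) w := by
  induction u with
  | nil => intro w; cases w <;> rfl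
  | cons a u ih =>
    intro w
    rw [List.map_cons, Lw_cons, Lw_cons, L_pull s χ s' χ' φ a (hs a (by simp)) (hχ a (by simp))]
    have e : (fun v : List A => Lw s' χ' (u.map φ) (dl B k) (v.map φ)) =
        Lw s χ u (dl A k) :=
      funext (ih (fun a ha => hs a (List.mem_cons_of_mem _ ha))
        (fun a ha => hχ a (List.mem_cons_of_mem _ ha)))
    rw [e]

/-- Naturality in the ring. -/
theorem L_ringHom (f : k →+* k') (s : A → A → A) (χ : A → A → k) (χ' : A → A → k')
    (hχ : ∀ a x, χ' a x = f (χ a x)) (a : A) (w : List A) : ∀ F : List A → k,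
    L s χ' a (fun v => f (F v)) w = f (L s χ a F w) := by
  induction w with
  | nil => intro F; simp [L_nil]
  | cons x w ih =>
    intro F
    rw [L_cons, L_cons, map_add, map_mul, hχ, ← ih]

theorem Lw_ringHom (f : k →+* k') (s : A → A → A) (χ : A → A → k) (χ' : A → A → k')
    (hχ : ∀ a x, χ' a x = f (χ a x)) (u : List A) : ∀ w : List A,
    Lw s χ' u (dl A k') w = f (Lw s χ u (dl A k) w) := by
  induction u with
  | nil => intro w; cases w <;> simp [dl]
  | cons a u ih =>
    intro w
    rw [Lw_cons, Lw_cons, ← L_ringHom f s χ χ' hχ]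
    have e : Lw s χ' u (dl A k') = fun v => f (Lw s χ u (dl A k) v) := funext ih
    rw [e]

end Basic

end Pool.Agent.H85.FK
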