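import Pool.Agent.H85.FK.Defs

/-!
Structure of the subalgebras of the Fomin-Kirillov algebras: factorizations, relabelling, and
irrelevance of the edges inside a module of a graph.
-/

namespace Pool.Agent.H85.FK

variable {n : ℕ}

theorem gen_swap (i j : Fin n) : gen n j i = - gen n i j := by
  unfold gen
  rcases lt_trichotomy i j with h | h | h
  · rw [dif_neg (lt_asymm h), dif_pos h, dif_pos h]
  · subst h; simp
  · rw [dif_pos h, dif_neg (lt_asymm h), dif_pos h, neg_neg]

theorem xx_swap (i j : Fin n) : (xx j i : FKAlg n) = - xx i j := by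
  unfold xx
  rw [gen_swap, map_neg]

theorem xx_sq (i j : Fin n) (h : i ≠ j) : (xx i j : FKAlg n) * xx i j = 0 := by
  unfold xx
  rw [← map_mul, RingQuot.mkAlgHom_rel ℚ (Rel.sq i j h), map_zero]

theorem xx_comm (i j k l : Fin n) (hij : i ≠ j) (hik : i ≠ k) (hil : i ≠ l) (hjk : j ≠ k)
    (hjl : j ≠ l) (hkl : k ≠ l) : (xx i j : FKAlg n) * xx k l = xx k l * xx i j := by
  unfold xx
  rw [← map_mul, ← map_mul, RingQuot.mkAlgHom_rel ℚ (Rel.comm i j k l hij hik hil hjk hjl hkl)]

theorem xx_tri (i j k : Fin n) (hij : i ≠ j) (hjk : j ≠ k) (hik : i ≠ k) :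
    (xx i j : FKAlg n) * xx j k + xx j k * xx k i + xx k i * xx i j = 0 := by
  unfold xx
  rw [← map_mul, ← map_mul, ← map_mul, ← map_add, ← map_add,
    RingQuot.mkAlgHom_rel ℚ (Rel.tri i j k hij hjk hik), map_zero]

theorem xx_mem (G : SimpleGraph (Fin n)) {i j : Fin n} (h : G.Adj i j) : xx i j ∈ FKSub G :=
  Algebra.subset_adjoin ⟨i, j, h, rfl⟩

theorem FKSub_mono {G H : SimpleGraph (Fin n)} (h : ∀ i j, G.Adj i j → H.Adj i j) :
    FKSub G ≤ FKSub H := by
  apply Algebra.adjoin_mono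
  rintro y ⟨i, j, hij, rfl⟩
  exact ⟨i, j, h i j hij, rfl⟩

/-- `x a = b x + c` with `b, c` in the subalgebra. -/
def QQ {A : Type*} [Ring A] [Algebra ℚ A] (S : Subalgebra ℚ A) (x a : A) : Prop :=
  ∃ b ∈ S, ∃ c ∈ S, x * a = b * x + c

section QQ

variable {A : Type*} [Ring A] [Algebra ℚ A] {S : Subalgebra ℚ A} {x a b y z : A}

theorem QQ.negx (h : QQ S x a) : QQ S (-x) a := by
  obtain ⟨b, hb, c, hc, h⟩ := h
  refine ⟨b, hb, -c, neg_mem hc, ?_⟩
  rw [neg_mul, h, mul_neg]; abel

theorem QQ.nega (h : QQ S x a) : QQ S x (-a) := by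
  obtain ⟨b, hb, c, hc, h⟩ := h
  refine ⟨-b, neg_mem hb, -c, neg_mem hc, ?_⟩
  rw [mul_neg, h, neg_mul]; abel

theorem QQ.add (h : QQ S x a) (h' : QQ S x b) : QQ S x (a + b) := by
  obtain ⟨b, hb, c, hc, h⟩ := h
  obtain ⟨b', hb', c', hc', h'⟩ := h'
  refine ⟨b + b', add_mem hb hb', c + c', add_mem hc hc', ?_⟩
  rw [mul_add, h, h', add_mul]; abel

theorem QQ.mul (h : QQ S x a) (hb : b ∈ S) (h' : QQ S x b) : QQ S x (a * b) := by
  obtain ⟨d, hd, c, hc, h⟩ := h
  obtain ⟨d', hd', c', hc', h'⟩ := h'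
  refine ⟨d * d', mul_mem hd hd', d * c' + c * b,
    add_mem (mul_mem hd hc') (mul_mem hc hb), ?_⟩
  rw [← mul_assoc, h, add_mul, mul_assoc d, h', mul_add, mul_assoc]
  abel

theorem QQ.alg (r : ℚ) : QQ S x (algebraMap ℚ A r) :=
  ⟨algebraMap ℚ _ r, Subalgebra.algebraMap_mem _ r, 0, zero_mem _, by
    rw [add_zero]; exact (Algebra.commutes r _).symm⟩

theorem QQ.zero (h : x * a = 0) : QQ S x a := ⟨0, zero_mem _, 0, zero_mem _, by rw [h]; simp⟩

theorem QQ.comm (h : x * a = a * x) (ha : a ∈ S) : QQ S x a :=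
  ⟨a, ha, 0, zero_mem _, by rw [h, add_zero]⟩

theorem QQ.tri (h : x * y + y * z + z * x = 0) (hy : y ∈ S) (hz : z ∈ S) : QQ S x y := by
  refine ⟨-z, neg_mem hz, -(y * z), neg_mem (mul_mem hy hz), ?_⟩
  have : x * y = -(z * x) + -(y * z) := by
    rw [← sub_eq_zero, ← h]; abel
  rw [this, neg_mul]

end QQ

/-- `H` is invariant under `H'`. -/
def Inv (H H' : SimpleGraph (Fin n)) : Prop :=
  ∀ i j k, H'.Adj i j → H.Adj j k → i ≠ k → H.Adj i k

theorem push_key {H H' : SimpleGraph (Fin n)} (hi : Inv H H') (i j l : Fin n)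
    (hij : H'.Adj i j) (hjl : H.Adj j l) : QQ (FKSub H) (xx i j) (xx j l) := by
  by_cases hil : i = l
  · subst hil
    rw [xx_swap i j]
    exact (QQ.zero (xx_sq i j hij.ne)).nega
  · have h := hi i j l hij hjl hil
    exact QQ.tri (xx_tri i j l hij.ne hjl.ne hil) (xx_mem H hjl) (xx_mem H h.symm)

theorem push_gen {H H' : SimpleGraph (Fin n)} (hi : Inv H H') (i j k l : Fin n)
    (hij : H'.Adj i j) (hkl : H.Adj k l) : QQ (FKSub H) (xx i j) (xx k l) := by
  by_cases hjk : j = k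
  · subst hjk; exact push_key hi i j l hij hkl
  by_cases hik : i = k
  · subst hik
    have h := push_key hi j i l hij.symm hkl
    rw [xx_swap j i]
    exact h.negx
  by_cases hjl : j = l
  · subst hjl
    have h := push_key hi i j k hij hkl.symm
    rw [xx_swap j k]
    exact h.nega
  by_cases hil : i = l
  · subst hil
    have h := push_key hi j i k hij.symm hkl.symm
    rw [xx_swap i k, xx_swap j i]
    exact h.negx.nega
  · exact QQ.comm (xx_comm i j k l hij.ne hik hil hjk hjl hkl.ne) (xx_mem H hkl)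

theorem push {H H' : SimpleGraph (Fin n)} (hi : Inv H H') (i j : Fin n) (hij : H'.Adj i j)
    (a : FKAlg n) (ha : a ∈ FKSub H) : QQ (FKSub H) (xx i j) a := by
  refine Algebra.adjoin_induction (R := ℚ)
    (p := fun a _ => QQ (FKSub H) (xx i j) a) ?_ ?_ ?_ ?_ ha
  · rintro x ⟨k, l, hkl, rfl⟩
    exact push_gen hi i j k l hij hkl
  · intro r
    exact QQ.alg r
  · intro x y _ _ ihx ihy
    exact ihx.add ihy
  · intro x y _ hy ihx ihy
    exact ihx.mul hy ihy

section General

variable {A : Type*} [Ring A] [Algebra ℚ A]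

theorem mul_closed (S T : Subalgebra ℚ A) (X : Set A)
    (hX : ∀ x ∈ X, x ∈ S ∨ (x ∈ T ∧ ∀ a ∈ S, QQ S x a)) :
    Subalgebra.toSubmodule (Algebra.adjoin ℚ X) ≤
      Subalgebra.toSubmodule S * Subalgebra.toSubmodule T := by
  set P := Subalgebra.toSubmodule S * Subalgebra.toSubmodule T with hP
  have mm : ∀ a b : A, a ∈ S → b ∈ T → a * b ∈ P := fun a b ha hb =>
    Submodule.mul_mem_mul ha hb
  have h1 : (1 : A) ∈ P := by
    have := mm 1 1 (one_mem S) (one_mem T)
    rwa [one_mul] at this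
  have key : ∀ y ∈ Algebra.adjoin ℚ X, ∀ p ∈ P, y * p ∈ P := by
    intro y hy
    induction hy using Algebra.adjoin_induction with
    | mem x hx =>
      intro p hp
      rcases hX x hx with hxS | ⟨hxT, hxa⟩
      · induction hp using Submodule.mul_induction_on' with
        | mem_mul_mem a ha b hb =>
          rw [← mul_assoc]
          exact mm _ _ (mul_mem hxS ha) hb
        | add x hx y hy ihx ihy => rw [mul_add]; exact add_mem ihx ihy
      · induction hp using Submodule.mul_induction_on' with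
        | mem_mul_mem a ha b hb =>
          obtain ⟨c, hc, d, hd, h⟩ := hxa a ha
          rw [← mul_assoc, h, add_mul, mul_assoc]
          exact add_mem (mm _ _ hc (mul_mem hxT hb)) (mm _ _ hd hb)
        | add x hx y hy ihx ihy => rw [mul_add]; exact add_mem ihx ihy
    | algebraMap r =>
      intro p hp
      rw [← Algebra.smul_def]
      exact P.smul_mem r hp
    | add x y hx hy ihx ihy =>
      intro p hp
      rw [add_mul]; exact add_mem (ihx p hp) (ihy p hp)
    | mul x y hx hy ihx ihy =>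
      intro p hp
      rw [mul_assoc]; exact ihx _ (ihy p hp)
  intro y hy
  have := key y hy 1 h1
  rwa [mul_one] at this

theorem fd_of_le {S T : Subalgebra ℚ A} (h : S ≤ T) (hT : FiniteDimensional ℚ T) :
    FiniteDimensional ℚ S :=
  FiniteDimensional.of_injective (Subalgebra.inclusion h).toLinearMap
    (Subalgebra.inclusion_injective h)

theorem fd_of_le_mul {S T U : Subalgebra ℚ A}
    (h : Subalgebra.toSubmodule U ≤ Subalgebra.toSubmodule S * Subalgebra.toSubmodule T)
    (h1 : FiniteDimensional ℚ S) (h2 : FiniteDimensional ℚ T) : FiniteDimensional ℚ U := by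
  have f1 : (Subalgebra.toSubmodule S).FG := by
    rw [← Module.Finite.iff_fg]; exact h1
  have f2 : (Subalgebra.toSubmodule T).FG := by
    rw [← Module.Finite.iff_fg]; exact h2
  have f3 := f1.mul f2
  rw [← Module.Finite.iff_fg] at f3
  exact FiniteDimensional.of_injective (Submodule.inclusion h)
    (Submodule.inclusion_injective h)

end General

theorem fd_mono {G H : SimpleGraph (Fin n)} (h : ∀ i j, G.Adj i j → H.Adj i j)
    (hH : FiniteDimensional ℚ (FKSub H)) : FiniteDimensional ℚ (FKSub G) :=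
  fd_of_le (FKSub_mono h) hH

/-- If `H` is invariant under `H'` and both algebras are finite-dimensional, so is that of the
union. -/
theorem fd_sup {H H' : SimpleGraph (Fin n)} (hi : Inv H H')
    (h1 : FiniteDimensional ℚ (FKSub H)) (h2 : FiniteDimensional ℚ (FKSub H')) :
    FiniteDimensional ℚ (FKSub (H ⊔ H')) := by
  refine fd_of_le_mul (mul_closed (FKSub H) (FKSub H') _ ?_) h1 h2
  rintro x ⟨i, j, hij, rfl⟩
  rcases hij with hij | hij
  · exact Or.inl (xx_mem H hij)
  · exact Or.inr ⟨xx_mem H' hij, fun a ha => push hi i j hij a ha⟩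

section Relabel

variable {m : ℕ}

/-- relabelling on the free algebra -/
noncomputable def lab0 (ψ : Fin m → Fin n) : FreeAlgebra ℚ (Gen m) →ₐ[ℚ] FKAlg n :=
  FreeAlgebra.lift ℚ (fun p => xx (ψ p.1.1) (ψ p.1.2))

theorem lab0_gen (ψ : Fin m → Fin n) (i j : Fin m) (hij : i ≠ j) :
    lab0 ψ (gen m i j) = xx (ψ i) (ψ j) := by
  unfold gen lab0
  split_ifs with h1 h2
  · rw [FreeAlgebra.lift_ι_apply]
  · rw [map_neg, FreeAlgebra.lift_ι_apply, ← xx_swap]
  · exact absurd (le_antisymm (not_lt.1 h2) (not_lt.1 h1)) hij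

theorem lab0_rel (ψ : Fin m → Fin n) (hψ : Function.Injective ψ) ⦃x y : FreeAlgebra ℚ (Gen m)⦄
    (h : Rel m x y) : lab0 ψ x = lab0 ψ y := by
  cases h with
  | sq i j hij =>
    rw [map_mul, map_zero, lab0_gen ψ i j hij, xx_sq _ _ (hψ.ne hij)]
  | comm i j k l hij hik hil hjk hjl hkl =>
    rw [map_mul, map_mul, lab0_gen ψ i j hij, lab0_gen ψ k l hkl]
    exact xx_comm _ _ _ _ (hψ.ne hij) (hψ.ne hik) (hψ.ne hil) (hψ.ne hjk) (hψ.ne hjl) (hψ.ne hkl)
  | tri i j k hij hjk hik =>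
    rw [map_add, map_add, map_mul, map_mul, map_mul, map_zero, lab0_gen ψ i j hij,
      lab0_gen ψ j k hjk, lab0_gen ψ k i hik.symm]
    exact xx_tri _ _ _ (hψ.ne hij) (hψ.ne hjk) (hψ.ne hik)

/-- relabelling -/
noncomputable def lab (ψ : Fin m → Fin n) (hψ : Function.Injective ψ) : FKAlg m →ₐ[ℚ] FKAlg n :=
  RingQuot.liftAlgHom ℚ ⟨lab0 ψ, lab0_rel ψ hψ⟩

theorem lab_xx (ψ : Fin m → Fin n) (hψ : Function.Injective ψ) (i j : Fin m) (hij : i ≠ j) :
    lab ψ hψ (xx i j) = xx (ψ i) (ψ j) := by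
  unfold lab xx
  rw [RingQuot.liftAlgHom_mkAlgHom_apply]
  exact lab0_gen ψ i j hij

/-- Finite-dimensionality passes to graphs whose edges come from the edges of a graph by an
injective map. -/
theorem fd_map (ψ : Fin m → Fin n) (hψ : Function.Injective ψ) {G : SimpleGraph (Fin m)}
    {H : SimpleGraph (Fin n)}
    (h : ∀ a b, H.Adj a b → ∃ i j, G.Adj i j ∧ ψ i = a ∧ ψ j = b)
    (hG : FiniteDimensional ℚ (FKSub G)) : FiniteDimensional ℚ (FKSub H) := by
  have hle : FKSub H ≤ (FKSub G).map (lab ψ hψ) := by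
    apply Algebra.adjoin_le
    rintro y ⟨a, b, hab, rfl⟩
    obtain ⟨i, j, hij, rfl, rfl⟩ := h a b hab
    exact ⟨xx i j, xx_mem G hij, lab_xx ψ hψ i j hij.ne⟩
  have hfd : FiniteDimensional ℚ ((FKSub G).map (lab ψ hψ)) := by
    have := Module.Finite.map (Subalgebra.toSubmodule (FKSub G)) (lab ψ hψ).toLinearMap
    exact this
  exact fd_of_le hle hfd

end Relabel

end Pool.Agent.H85.FK
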