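import Pool.Agent.H85.FK.K3

/-!
The folding step: deletion operators for a rack with an involution, modulo two.
-/

namespace Pool.Agent.H85.FK

variable {A B : Type*} [DecidableEq A] [DecidableEq B]

/-- involutive quandle axioms -/
structure Quan (s : A → A → A) : Prop where
  inv : ∀ a x, s a (s a x) = x
  dist : ∀ a b x, s a (s b x) = s (s a b) (s a x)
  idem : ∀ a, s a a = a

/-- symmetric under swapping adjacent commuting letters -/
def CSym (s : A → A → A) (F : List A → ZMod 2) : Prop :=
  ∀ u x y v, s x y = y → s y x = x → F (u ++ x :: y :: v) = F (u ++ y :: x :: v)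

/-- invariant under a map on letters -/
def GInv (g : A → A) (F : List A → ZMod 2) : Prop := ∀ w, F (w.map g) = F w

omit [DecidableEq A] in
theorem csym_append {s : A → A → A} {F : List A → ZMod 2} (hF : CSym s F) (l : List A) :
    CSym s (fun v => F (l ++ v)) := by
  intro u x y v h1 h2
  have := hF (l ++ u) x y v h1 h2
  simpa [List.append_assoc] using this

omit [DecidableEq A] in
theorem csym_cons {s : A → A → A} {F : List A → ZMod 2} (hF : CSym s F) (z : A) :
    CSym s (fun v => F (z :: v)) := csym_append hF [z]

theorem eqv_s {s : A → A → A} (h : Quan s) (a b x : A) : eqv b (s a x) = eqv (s a b) x := by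
  unfold eqv
  by_cases hx : s a x = b
  · rw [if_pos hx, if_pos]
    rw [← hx, h.inv]
  · rw [if_neg hx, if_neg]
    intro hx'
    apply hx
    rw [hx', h.inv]

theorem L_comm {s : A → A → A} (h : Quan s) (a b : A) (hab : s a b = b) (hba : s b a = a)
    (w : List A) : ∀ F : List A → ZMod 2,
    L s eqv a (L s eqv b F) w = L s eqv b (L s eqv a F) w := by
  induction w with
  | nil => intro F; rfl
  | cons x w ih =>
    intro F
    rw [L_L_cons, L_L_cons, ih, eqv_s h, eqv_s h, hab, hba]
    have : s b (s a x) = s a (s b x) := by
      rw [h.dist a b x, hab]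
    rw [this]; ring

theorem csym_L {s : A → A → A} (h : Quan s) (a : A) (F : List A → ZMod 2) (hF : CSym s F) :
    CSym s (L s eqv a F) := by
  intro u
  induction u generalizing F with
  | nil =>
    intro x y v h1 h2
    rw [List.nil_append, List.nil_append, L_cons, L_cons, L_cons, L_cons]
    have e : (fun v => F (s a x :: s a y :: v)) = fun v => F (s a y :: s a x :: v) := by
      funext v
      have h3 : s (s a x) (s a y) = s a y := by rw [← h.dist, h1]
      have h4 : s (s a y) (s a x) = s a x := by rw [← h.dist, h2]
      exact hF [] _ _ v h3 h4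
    rw [e]
    have e1 : eqv a x * F (y :: v) = eqv a x * F (s a y :: v) := by
      unfold eqv
      split_ifs with hx
      · rw [← hx, h1]
      · ring
    have e2 : eqv a y * F (s a x :: v) = eqv a y * F (x :: v) := by
      unfold eqv
      split_ifs with hy
      · rw [← hy, h2]
      · ring
    rw [e1, e2]; ring
  | cons z u ih =>
    intro x y v h1 h2
    rw [List.cons_append, List.cons_append, L_cons, L_cons, hF u x y v h1 h2,
      ih _ (csym_cons hF (s a z)) x y v h1 h2]

theorem L_g {s : A → A → A} (g : A → A) (hg : ∀ a, g (g a) = a)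
    (hgs : ∀ a b, g (s a b) = s (g a) (g b)) (a : A) (w : List A) : ∀ F : List A → ZMod 2,
    L s eqv a F (w.map g) = L s eqv (g a) (fun v => F (v.map g)) w := by
  induction w with
  | nil => intro F; rfl
  | cons x w ih =>
    intro F
    rw [List.map_cons, L_cons, L_cons, ih]
    have e1 : eqv a (g x) = eqv (g a) x := by
      unfold eqv
      by_cases hx : g x = a
      · rw [if_pos hx, if_pos]; rw [← hx, hg]
      · rw [if_neg hx, if_neg]; intro hx'; apply hx; rw [hx', hg]
    have e2 : (fun v : List A => F (s a (g x) :: v.map g)) =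
        fun v => F ((s (g a) x :: v).map g) := by
      funext v
      rw [List.map_cons, hgs, hg]
    rw [e1, e2]

section Fold

variable (s : A → A → A) (g : A → A) (r : B → A)

/-- the block of letters of a folded letter -/
def blk (b : B) : List A := if g (r b) = r b then [r b] else [r b, g (r b)]

/-- the operator of a folded letter -/
def LB (b : B) (F : List A → ZMod 2) : List A → ZMod 2 :=
  if g (r b) = r b then L s eqv (r b) F else L s eqv (r b) (L s eqv (g (r b)) F)

/-- the action of a folded letter -/
def ga (b : B) (y : A) : A := if g (r b) = r b then s (r b) y else s (g (r b)) (s (r b) y)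

variable {s g r}

theorem flat_swap (hg : ∀ a, g (g a) = a) (hgs : ∀ a b, g (s a b) = s (g a) (g b))
    (hr : ∀ b, s (r b) (g (r b)) = g (r b)) {H : List A → ZMod 2} (hH : CSym s H)
    (w : List B) : ∀ u, H (u ++ (w.flatMap (blk g r)).map g) = H (u ++ w.flatMap (blk g r)) := by
  induction w with
  | nil => intro u; rfl
  | cons x w ih =>
    intro u
    rw [List.flatMap_cons, List.map_append]
    by_cases hx : g (r x) = r x
    · have : blk g r x = [r x] := by unfold blk; rw [if_pos hx]
      rw [this]
      simp only [List.map_cons, List.map_nil, hx]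
      have := ih (u ++ [r x])
      simpa [List.append_assoc] using this
    · have : blk g r x = [r x, g (r x)] := by unfold blk; rw [if_neg hx]
      rw [this]
      simp only [List.map_cons, List.map_nil, hg]
      have h1 := ih (u ++ [g (r x), r x])
      have h2 : s (g (r x)) (r x) = r x := by
        have := congrArg g (hr x)
        rw [hgs, hg] at this
        exact this
      have h3 := hH u (g (r x)) (r x) (w.flatMap (blk g r)) h2 (hr x)
      simp only [List.append_assoc, List.cons_append, List.nil_append] at h1 ⊢
      rw [h1, h3]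

theorem ginv_blk (hg : ∀ a, g (g a) = a) (hgs : ∀ a b, g (s a b) = s (g a) (g b))
    (hr : ∀ b, s (r b) (g (r b)) = g (r b)) {F : List A → ZMod 2} (hF : CSym s F)
    (hG : GInv g F) (c : B) : GInv g (fun v => F (blk g r c ++ v)) := by
  intro w
  have h1 := hG (blk g r c ++ w)
  rw [List.map_append] at h1
  simp only
  rw [← h1]
  by_cases hx : g (r c) = r c
  · have : blk g r c = [r c] := by unfold blk; rw [if_pos hx]
    rw [this]
    simp only [List.map_cons, List.map_nil, hx]
  · have : blk g r c = [r c, g (r c)] := by unfold blk; rw [if_neg hx]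
    rw [this]
    simp only [List.map_cons, List.map_nil, hg]
    have h2 : s (g (r c)) (r c) = r c := by
      have := congrArg g (hr c)
      rw [hgs, hg] at this
      exact this
    exact hF [] _ _ _ (hr c) h2

theorem g_ga (hs : Quan s) (hg : ∀ a, g (g a) = a) (hgs : ∀ a b, g (s a b) = s (g a) (g b))
    (hr : ∀ b, s (r b) (g (r b)) = g (r b)) (b : B) (y : A) :
    g (ga s g r b y) = ga s g r b (g y) := by
  unfold ga
  split_ifs with h
  · rw [hgs, h]
  · rw [hgs, hgs, hg, hs.dist, hr]

theorem ga_inj (hs : Quan s) (b : B) (y z : A) (h : ga s g r b y = ga s g r b z) : y = z := by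
  unfold ga at h
  split_ifs at h with h1
  · rw [← hs.inv (r b) y, h, hs.inv]
  · have h2 : s (r b) y = s (r b) z := by
      rw [← hs.inv (g (r b)) (s (r b) y), h, hs.inv]
    rw [← hs.inv (r b) y, h2, hs.inv]

theorem blk_act (hs : Quan s) (hg : ∀ a, g (g a) = a) (hgs : ∀ a b, g (s a b) = s (g a) (g b))
    (hr : ∀ b, s (r b) (g (r b)) = g (r b)) {F : List A → ZMod 2} (hF : CSym s F)
    (b x c : B) (hc : r c = ga s g r b (r x) ∨ r c = g (ga s g r b (r x))) (v : List A) :
    F ((blk g r x).map (ga s g r b) ++ v) = F (blk g r c ++ v) := by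
  by_cases hx : g (r x) = r x
  · have e1 : blk g r x = [r x] := by unfold blk; rw [if_pos hx]
    have h1 : g (ga s g r b (r x)) = ga s g r b (r x) := by
      rw [g_ga hs hg hgs hr, hx]
    rw [h1, or_self] at hc
    have e2 : blk g r c = [r c] := by unfold blk; rw [hc, if_pos h1]
    rw [e1, e2, hc]; rfl
  · have e1 : blk g r x = [r x, g (r x)] := by unfold blk; rw [if_neg hx]
    have h1 : g (ga s g r b (r x)) ≠ ga s g r b (r x) := by
      rw [g_ga hs hg hgs hr]
      intro h
      exact hx (ga_inj hs b _ _ h)
    rcases hc with hc | hc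
    · have e2 : blk g r c = [r c, g (r c)] := by unfold blk; rw [hc, if_neg h1]
      rw [e1, e2, hc, g_ga hs hg hgs hr]; rfl
    · have h2 : g (r c) = ga s g r b (r x) := by rw [hc, hg]
      have h3 : g (r c) ≠ r c := by rw [h2, hc]; exact h1.symm
      have e2 : blk g r c = [r c, g (r c)] := by unfold blk; rw [if_neg h3]
      have h4 : s (g (r c)) (r c) = r c := by
        have := congrArg g (hr c)
        rw [hgs, hg] at this
        exact this
      rw [e1, e2]
      have h5 := hF [] (r c) (g (r c)) v (hr c) h4
      have h6 : r c = ga s g r b (g (r x)) := by rw [hc, g_ga hs hg hgs hr]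
      simp only [List.nil_append] at h5
      simp only [List.map_cons, List.map_nil, List.cons_append, List.nil_append]
      rw [h5, h2, ← h6]

theorem LB_block (hs : Quan s) (hg : ∀ a, g (g a) = a)
    (hgs : ∀ a b, g (s a b) = s (g a) (g b)) (hr : ∀ b, s (r b) (g (r b)) = g (r b))
    (hinj : ∀ b x : B, r x = r b ∨ r x = g (r b) → x = b)
    {F : List A → ZMod 2} (hF : CSym s F) (hG : GInv g F) (b x : B) (w : List B) :
    LB s g r b F (blk g r x ++ w.flatMap (blk g r)) = eqv b x * F (w.flatMap (blk g r)) +
      LB s g r b (fun v => F ((blk g r x).map (ga s g r b) ++ v)) (w.flatMap (blk g r)) := by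
  set w' := w.flatMap (blk g r) with hw'
  by_cases hb : g (r b) = r b
  · have eLB : ∀ F, LB s g r b F = L s eqv (r b) F := by intro F; unfold LB; rw [if_pos hb]
    have ega : ∀ y, ga s g r b y = s (r b) y := by intro y; unfold ga; rw [if_pos hb]
    rw [eLB, eLB]
    by_cases hx : g (r x) = r x
    · have e1 : blk g r x = [r x] := by unfold blk; rw [if_pos hx]
      rw [e1]
      simp only [List.map_cons, List.map_nil, List.cons_append, List.nil_append, ega]
      rw [L_cons]
      have : eqv (r b) (r x) = eqv b x := by
        unfold eqv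
        by_cases h : x = b
        · rw [if_pos h, if_pos (by rw [h])]
        · rw [if_neg h, if_neg]
          intro h'; exact h (hinj b x (Or.inl h'))
      rw [this]
    · have e1 : blk g r x = [r x, g (r x)] := by unfold blk; rw [if_neg hx]
      have hxb : x ≠ b := by rintro rfl; exact hx hb
      rw [e1]
      simp only [List.map_cons, List.map_nil, List.cons_append, List.nil_append, ega]
      rw [L_cons, L_cons]
      have h1 : eqv (r b) (r x) = 0 := by
        unfold eqv; rw [if_neg]; intro h; exact hxb (hinj b x (Or.inl h))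
      have h2 : eqv (r b) (g (r x)) = 0 := by
        unfold eqv; rw [if_neg]; intro h
        apply hxb; apply hinj b x; right
        rw [← h, hg]
      have h3 : eqv b x = 0 := by unfold eqv; rw [if_neg hxb]
      rw [h1, h2, h3]; ring
  · have eLB : ∀ F, LB s g r b F = L s eqv (r b) (L s eqv (g (r b)) F) := by
      intro F; unfold LB; rw [if_neg hb]
    have ega : ∀ y, ga s g r b y = s (g (r b)) (s (r b) y) := by
      intro y; unfold ga; rw [if_neg hb]
    have hrb := hr b
    have hrb' : s (g (r b)) (r b) = r b := by
      have := congrArg g hrb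
      rw [hgs, hg] at this
      exact this
    have gn : ∀ y, r x ≠ r b → r x ≠ g (r b) → (y = r x ∨ y = g (r x)) →
        eqv (r b) y = 0 ∧ eqv (g (r b)) (s (r b) y) = 0 := by
      intro y h1 h2 hy
      have h3 : y ≠ r b := by
        rcases hy with h | h
        · rw [h]; exact h1
        · intro h'; apply h2; rw [← h', h, hg]
      have h4 : y ≠ g (r b) := by
        rcases hy with h | h
        · rw [h]; exact h2
        · intro h'; apply h1; rw [← hg (r x), ← h, h', hg]
      constructor
      · unfold eqv; rw [if_neg h3]
      · rw [eqv_s hs, hrb]; unfold eqv; rw [if_neg h4]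
    rw [eLB, eLB]
    by_cases hx : g (r x) = r x
    · have e1 : blk g r x = [r x] := by unfold blk; rw [if_pos hx]
      have hxb : x ≠ b := by rintro rfl; exact hb hx
      rw [e1]
      simp only [List.map_cons, List.map_nil, List.cons_append, List.nil_append, ega]
      rw [L_L_cons]
      obtain ⟨h1, h2⟩ := gn (r x) (fun h => hxb (hinj b x (Or.inl h)))
        (fun h => hxb (hinj b x (Or.inr h))) (Or.inl rfl)
      have h3 : eqv b x = 0 := by unfold eqv; rw [if_neg hxb]
      rw [h1, h2, h3]; ring
    · have e1 : blk g r x = [r x, g (r x)] := by unfold blk; rw [if_neg hx]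
      rw [e1]
      simp only [List.map_cons, List.map_nil, List.cons_append, List.nil_append, ega]
      rw [L_L_cons, L_L_cons]
      by_cases hxb : x = b
      · subst hxb
        have h0 : eqv x x = 1 := by unfold eqv; simp
        have h1 : eqv (r x) (r x) = 1 := by unfold eqv; simp
        have h2 : eqv (g (r x)) (s (r x) (r x)) = 0 := by
          rw [hs.idem]; unfold eqv; rw [if_neg (fun h => hx h.symm)]
        have h3 : eqv (r x) (g (r x)) = 0 := by unfold eqv; rw [if_neg hx]
        have h4 : eqv (g (r x)) (s (r x) (g (r x))) = 1 := by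
          rw [hrb]; unfold eqv; simp
        have h5 : s (g (r x)) (s (r x) (r x)) = r x := by rw [hs.idem, hrb']
        have h6 : s (g (r x)) (s (r x) (g (r x))) = g (r x) := by rw [hrb, hs.idem]
        rw [h0, h1, h2, h3, h4, h5, h6, L_cons]
        have h7 : eqv (g (r x)) (g (r x)) = 1 := by unfold eqv; simp
        have h8 : s (g (r x)) (g (r x)) = g (r x) := hs.idem _
        rw [h7, h8]
        have key : L s eqv (g (r x)) (fun v => F (g (r x) :: v)) w' =
            L s eqv (r x) (fun v => F (r x :: v)) w' := by
          have k1 := flat_swap hg hgs hr (csym_L hs (r x) _ (csym_cons hF (r x))) w []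
          simp only [List.nil_append] at k1
          rw [← hw'] at k1
          rw [L_g g hg hgs] at k1
          rw [← k1]
          have k2 : (fun v : List A => F (r x :: v.map g)) = fun v => F (g (r x) :: v) := by
            funext v
            have := hG (g (r x) :: v)
            rw [List.map_cons, hg] at this
            exact this
          rw [k2]
        rw [key]
        have : ∀ p q t : ZMod 2, 1 * (1 * p + q) + 0 + (0 + 1 * q + t) = 1 * p + t := by decide
        simp only [zero_mul]
        exact this _ _ _
      · have n1 : r x ≠ r b := fun h => hxb (hinj b x (Or.inl h))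
        have n2 : r x ≠ g (r b) := fun h => hxb (hinj b x (Or.inr h))
        obtain ⟨h1, h2⟩ := gn (r x) n1 n2 (Or.inl rfl)
        obtain ⟨h3, h4⟩ := gn (g (r x)) n1 n2 (Or.inr rfl)
        have h0 : eqv b x = 0 := by unfold eqv; rw [if_neg hxb]
        rw [h0, h1, h2, h3, h4]; ring

theorem LB_fold (s' : B → B → B) (hs : Quan s) (hg : ∀ a, g (g a) = a)
    (hgs : ∀ a b, g (s a b) = s (g a) (g b)) (hr : ∀ b, s (r b) (g (r b)) = g (r b))
    (hinj : ∀ b x : B, r x = r b ∨ r x = g (r b) → x = b)
    (hact : ∀ b x : B, r (s' b x) = ga s g r b (r x) ∨ r (s' b x) = g (ga s g r b (r x)))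
    (b : B) (w : List B) : ∀ (F : List A → ZMod 2) (_ : CSym s F) (_ : GInv g F),
    LB s g r b F (w.flatMap (blk g r)) = L s' eqv b (fun v => F (v.flatMap (blk g r))) w := by
  induction w with
  | nil =>
    intro F _ _
    rw [L_nil, List.flatMap_nil]
    unfold LB
    split_ifs <;> rfl
  | cons x w ih =>
    intro F hF hG
    rw [List.flatMap_cons, LB_block hs hg hgs hr hinj hF hG, L_cons]
    have e1 : (fun v => F ((blk g r x).map (ga s g r b) ++ v)) =
        fun v => F (blk g r (s' b x) ++ v) := by
      funext v
      exact blk_act hs hg hgs hr hF b x (s' b x) (hact b x) v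
    rw [e1, ih _ (csym_append hF _) (ginv_blk hg hgs hr hF hG _)]
    simp only [List.flatMap_cons]

omit [DecidableEq B] in
theorem csym_LB (hs : Quan s) {F : List A → ZMod 2} (hF : CSym s F) (b : B) :
    CSym s (LB s g r b F) := by
  unfold LB
  split_ifs
  · exact csym_L hs _ _ hF
  · exact csym_L hs _ _ (csym_L hs _ _ hF)

omit [DecidableEq B] in
theorem ginv_LB (hs : Quan s) (hg : ∀ a, g (g a) = a)
    (hgs : ∀ a b, g (s a b) = s (g a) (g b)) (hr : ∀ b, s (r b) (g (r b)) = g (r b))
    {F : List A → ZMod 2} (hG : GInv g F) (b : B) :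
    GInv g (LB s g r b F) := by
  intro w
  have h1 : (fun v : List A => F (v.map g)) = F := funext hG
  unfold LB
  split_ifs with h
  · rw [L_g g hg hgs, h1, h]
  · rw [L_g g hg hgs]
    have h2 : (fun v : List A => L s eqv (g (r b)) F (v.map g)) = L s eqv (r b) F := by
      funext v
      rw [L_g g hg hgs, h1, hg]
    rw [h2]
    have hrb' : s (g (r b)) (r b) = r b := by
      have := congrArg g (hr b)
      rw [hgs, hg] at this
      exact this
    exact L_comm hs _ _ hrb' (hr b) w F

theorem fold_word (s' : B → B → B) (hs : Quan s) (hg : ∀ a, g (g a) = a)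
    (hgs : ∀ a b, g (s a b) = s (g a) (g b)) (hr : ∀ b, s (r b) (g (r b)) = g (r b))
    (hinj : ∀ b x : B, r x = r b ∨ r x = g (r b) → x = b)
    (hact : ∀ b x : B, r (s' b x) = ga s g r b (r x) ∨ r (s' b x) = g (ga s g r b (r x)))
    (u : List B) :
    CSym s (Lw s eqv (u.flatMap (blk g r)) (dl A (ZMod 2))) ∧
    GInv g (Lw s eqv (u.flatMap (blk g r)) (dl A (ZMod 2))) ∧
    ∀ w : List B, Lw s eqv (u.flatMap (blk g r)) (dl A (ZMod 2)) (w.flatMap (blk g r)) =
      Lw s' eqv u (dl B (ZMod 2)) w := by
  induction u with
  | nil =>
    refine ⟨?_, ?_, ?_⟩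
    · intro u x y v _ _
      cases u <;> rfl
    · intro w; cases w <;> rfl
    · intro w
      cases w with
      | nil => rfl
      | cons x w =>
        rw [List.flatMap_cons]
        unfold blk
        split_ifs <;> rfl
  | cons b u ih =>
    obtain ⟨h1, h2, h3⟩ := ih
    have e : Lw s eqv ((b :: u).flatMap (blk g r)) (dl A (ZMod 2)) =
        LB s g r b (Lw s eqv (u.flatMap (blk g r)) (dl A (ZMod 2))) := by
      rw [List.flatMap_cons]
      by_cases h : g (r b) = r b
      · have e1 : blk g r b = [r b] := by unfold blk; rw [if_pos h]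
        rw [e1]
        unfold LB
        rw [if_pos h]
        rfl
      · have e1 : blk g r b = [r b, g (r b)] := by unfold blk; rw [if_neg h]
        rw [e1]
        unfold LB
        rw [if_neg h]
        rfl
    rw [e]
    refine ⟨csym_LB hs h1 b, ginv_LB hs hg hgs hr h2 b, ?_⟩
    intro w
    rw [LB_fold s' hs hg hgs hr hinj hact b w _ h1 h2, Lw_cons]
    have : (fun v => Lw s eqv (u.flatMap (blk g r)) (dl A (ZMod 2)) (v.flatMap (blk g r))) =
        Lw s' eqv u (dl B (ZMod 2)) := funext h3
    rw [this]

end Fold

end Pool.Agent.H85.FK
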